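import Pool.Agent.Lib.MP_7b7e48_nt.TCF.Def2

/-!
# The frame of theorem TC3: definitions

The same frame as in `TCF`, for the case in which all pairs are linked and the information on the signs is only available for pairs of
numbers of one class (no multipliers). `D` are the long data (`J1`), `sh P N D` the short data (`J1 / (4 MM ^ 2)`): for a prime multiplier `l`
and a short `X`-number `X` of the class `x` the number `l X` is a long `X`-number of the class `l x` with the same tuples.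
-/

set_option autoImplicit false

open Finset

namespace Pool.Agent.Lib.T3F

open Pool.Agent.Lib.TCF
open Pool.Agent.Lib.RG hiding RR sig Good
open Pool.Agent.Lib.RH
open Pool.Agent.Lib.MP_45349e_nt.LS (lam)

/-- all pairs are linked -/
def LT : ℕ → ℕ → ℕ → ℕ → Prop := fun _ _ _ _ => True

/-- the short data -/
noncomputable def sh (P : Prm) (N : ℕ) (D : Dat) : Dat := { D with J1 := D.J1 / (4 * MM P N ^ 2) }

section
variable (P : Prm) (N : ℕ) (D : Dat) (Lk : ℕ → ℕ → ℕ → ℕ → Prop) (Bd : ℕ → ℕ → Prop)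

open Classical in
/-- weight of the pairs (`l X`, `Y`) with the wrong sign, `X` an `X`-number of the class `x`, `Y` a `Y`-number of the class `l x` -/
noncomputable def AQ (l : ℕ) (x : ZMod N) : ℝ :=
  ∑ j ∈ Ico D.J2 D.J1, if Rgh1 P N (x.val + j * N) then
    ∑ t ∈ (TUP D.BX).filter (fun t => t ∣ x.val + j * N), ∑ i ∈ range D.J0,
      AFt P N D Lk Bd 1 (l * (x.val + j * N)) t (((l : ZMod N) * x).val + i * N) else 0

end

open Classical in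
/-- the bound for the bad pairs of tuples: the field `bs` of `PairIn` with the constant `1 / 80` -/
def BsIn (P : Prm) (N : ℕ) (D : Dat) (Bd : ℕ → ℕ → Prop) : Prop :=
  ∀ (v : ℕ) (o : Option (ℕ → ℝ)) (L : ℝ), TM P N v o L → ∀ a b : ℕ, a ≤ b → v * b ≤ D.J1 * N →
    ((v = 1 ∧ o = none) ∨ D.J2 * N < v * (a + 1)) →
    ∑ n ∈ (Ioc a b).filter (fun n => n.Coprime N ∧ ∃ t ∈ TUP D.BX,
      1 / 80 * (VM P N * D.J0 * rho D.BY) < BB P N D Bd t ((v * n : ℕ) : ZMod N)), wt D.y0 o n ≤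
      L / JJ N * len P N v a b

open Classical in
/-- the input on the signs: pairs of numbers of one class with different signs are rare -/
structure Ap3 (P : Prm) (N : ℕ) [NeZero N] (D : Dat) (Bd : ℕ → ℕ → Prop) : Prop where
  a0 : ∑ x : ZMod N, (if IsUnit x then AP P N D LT Bd 1 x else 0) ≤
    N * ((D.J1 * rho D.BX) * (D.J0 * rho D.BY)) / ((JJ N : ℝ) ^ 4 * (MM P N : ℝ) ^ 4)
  a1 : ∀ χ : DirichletCharacter ℂ N, χ ^ 2 = 1 → χ ≠ 1 → (∀ l ∈ PZ N (MM P N), χ (l : ZMod N) = -1) →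
    Blk P N 12 (-1) χ →
    (∃ L : ℝ, LV N (fun n => (χ (n : ZMod N)).re) L ∧ (N : ℝ) ^ (-(1 / 200) : ℝ) ≤ L ∧
      L ≤ (Real.log N) ^ 3 * sgm P χ) →
    ∑ x : ZMod N, (if IsUnit x then AP P N (D.del (QS P χ)) LT Bd 1 x else 0) ≤
      sgm P χ * (N * ((D.J1 * rho D.BX) * (D.J0 * rho D.BY)) / ((JJ N : ℝ) ^ 4 * (MM P N : ℝ) ^ 4))

/-- the data before the removal of primes -/
structure Base3 (P : Prm) (N : ℕ) (D : Dat) : Prop where
  base : Base P N D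
  sj : 8 * MM P N ^ 2 * (JJ N * D.J2) ≤ D.J1
  sx : 8 * (MM P N : ℝ) ^ 2 * (JJ N : ℝ) ^ 4 ≤ D.J1 * rho D.BX

open Classical in
/-- everything which is known before the character appears (`D`: the short data) -/
structure Hyp3 (P : Prm) (N : ℕ) [NeZero N] (D : Dat) (Lk : ℕ → ℕ → ℕ → ℕ → Prop) (Bd : ℕ → ℕ → Prop)
    (A : Finset (ZMod N)) : Prop where
  hP : P.Ok
  nx : NumX P N
  ok : D.Ok P N
  cnt : Cnt P N D
  pin : PairIn P N D Lk Bd 4 (1 / 40)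
  lt : ∀ X t Y t' : ℕ, Lk X t Y t'
  c2l : ∀ (v : ℕ) (o : Option (ℕ → ℝ)) (L : ℝ), TM P N v o L → ∀ a b : ℕ, a ≤ b →
    v * b ≤ 4 * MM P N ^ 2 * (D.J1 * N) → ((v = 1 ∧ o = none) ∨ D.J2 * N < v * (a + 1)) →
    ∑ n ∈ (Ioc a b).filter (fun n => n.Coprime N ∧
      PY P N D ((v * n : ℕ) : ZMod N) < VM P N * D.J0 * rho D.BY / 2), wt D.y0 o n ≤
      L / JJ N * len P N v a b
  bsl : ∀ (v : ℕ) (o : Option (ℕ → ℝ)) (L : ℝ), TM P N v o L → ∀ a b : ℕ, a ≤ b →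
    v * b ≤ 4 * MM P N ^ 2 * (D.J1 * N) → ((v = 1 ∧ o = none) ∨ D.J2 * N < v * (a + 1)) →
    ∑ n ∈ (Ioc a b).filter (fun n => n.Coprime N ∧ ∃ t ∈ TUP D.BX,
      1 / 40 * (VM P N * D.J0 * rho D.BY) < BB P N D Bd t ((v * n : ℕ) : ZMod N)), wt D.y0 o n ≤
      L / JJ N * len P N v a b
  ac : (A.card : ℝ) ≤ (N : ℝ) / (JJ N : ℝ) ^ 2
  apa : ∀ l : ℕ, l = 1 → ∀ x : ZMod N, IsUnit x → x ∉ A →
    AP P N D Lk Bd l x ≤ (D.J1 * rho D.BX) * (D.J0 * rho D.BY) / JJ N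
  aq : ∀ l ∈ PZ N (MM P N), ∀ x : ZMod N, IsUnit x → (l : ZMod N) * x ∉ A →
    AQ P N D Lk Bd l x ≤ (D.J1 * rho D.BX) * (D.J0 * rho D.BY) / JJ N
  ap : ∑ x : ZMod N, (if IsUnit x then AP P N D Lk Bd 1 x else 0) ≤
    N * ((D.J1 * rho D.BX) * (D.J0 * rho D.BY)) / (JJ N : ℝ) ^ 2

open Classical in
/-- the situation of the second part: `D` has no structure prime with `χ = 1` -/
structure EnvX3 (P : Prm) (N : ℕ) [NeZero N] (D : Dat) (Lk : ℕ → ℕ → ℕ → ℕ → Prop) (Bd : ℕ → ℕ → Prop)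
    (A : Finset (ZMod N)) (χ : DirichletCharacter ℂ N) : Prop where
  hyp : Hyp3 P N D Lk Bd A
  mass : MassX P N D
  sq : χ ^ 2 = 1
  ne : χ ≠ 1
  small : ∀ l ∈ PZ N (MM P N), χ (l : ZMod N) = -1
  blk : Blk P N 12 (-1) χ
  fx : ∀ c, ∀ p ∈ D.BX c, χ (p : ZMod N) = -1
  agree : (((Finset.univ : Finset (ZMod N)).filter fun x => IsUnit x ∧
    (FF P N D x : ℂ) ≠ χ x).card : ℝ) ≤ (Real.log N) ^ 102 * N / JJ N
  lv : ∃ L : ℝ, LV N (fun n => (χ (n : ZMod N)).re) L ∧ (N : ℝ) ^ (-(1 / 200) : ℝ) ≤ L ∧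
    L ≤ (Real.log N) ^ 3 * sgm P χ
  ac : (A.card : ℝ) ≤ sgm P χ * N / (JJ N : ℝ) ^ 2
  ap : ∑ x : ZMod N, (if IsUnit x then AP P N D Lk Bd 1 x else 0) ≤
    sgm P χ * N * ((D.J1 * rho D.BX) * (D.J0 * rho D.BY)) / (JJ N : ℝ) ^ 2

end Pool.Agent.Lib.T3F
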