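import Pool.Agent.Lib.MP_7b7e48_nt.T3F.Def
import Pool.Agent.Lib.MP_7b7e48_nt.T3F.Uusum
import Pool.Agent.Lib.MP_7b7e48_nt.T3F.Maj

/-!
# Module Badm (90 minutes): atypical classes of a test measure

PROOF. `K = log N`, `b = v n`, `x` its class, `M = J1 rho_X`, `M' = J0 rho_Y`. By `vm`: `VM ≥ 1000 / K`. Let `n` be counted in `badm`, i.e. one condition of `Typ l x` fails.
(x1) `PX (l x) < M / K ^ 2` implies `PXr l b ≤ PX (l x) < VM M / 8` (`pxr_le`): counted by `Cnt.c1` (`l`); (x2): `Cnt.c1` with `l = 1`;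
(y1): `Cnt.c2`; (bs): if `Cnt.c2` does not count `n` then `PY x ≥ VM M' / 2`, and if `PairIn.bs` (with `k1 = 1 / 40`) does not count `n` then `20 BB t x ≤ 20 VM M' / 40 ≤ PY x`.
In these cases the interval is `Ioc a b` with `a = J2 N / v`, `b = J1 N / v` (`D.J2 * N < v * (a + 1)`, and `len ≤ 2 J1 N / v`; all counted `n` are `> a` as `v n > J2 N`).
(u1), if none of the previous ones fails in the strong form (`PX (l x) ≥ PXr ≥ VM M / 8`, `PY x ≥ VM M' / 2`): `UU l x ≤ UUr l b + ph (l b) PY x` (`uu_le`), `ph (l b) ≤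
pht (l b) = pht b ≤ M / JJ ≤ PX (l x) / 80` (`pht_low`, `mul_low`, `VM / 8 ≥ 125 / K`, `JJ ≥ K ^ 1000`), so `40 UU > PX PY` implies `UUr l b ≥ PX PY / 80 ≥
(125 / K) (500 / K) M M' / 80 ≥ M M' / K ^ 2`. Markov (`wt ≥ 0`) with `uusum`: the weight of these `n` is at most `K ^ 2 (8 / JJ) L J1 N / v`. (u2): the same with `l = 1`.
Total at most `(8 + 16 K ^ 2) / JJ * L * J1 N / v ≤ K ^ 12 / JJ * ..`. `len P N v a b ≤ 2 J1 N / v` because `N ^ (1 - kap / 8) ≤ J1 N`.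
`cls`: the same for all classes, `v = 1`, `n = x.val` (interval `Ioc 0 (N - 1)`, first alternative in `c2`, `bs`; there is no term `ph (l b)`, use `clsu` and
`pxr_class`; `x.val` determines `x`).
-/

set_option autoImplicit false

open Finset

namespace Pool.Agent.Lib.T3F

open Pool.Agent.Lib.TCF

open Pool.Agent.Lib.RG hiding RR sig Good
open Pool.Agent.Lib.RH
open Pool.Agent.Lib.MP_45349e_nt.LS (lam)

variable {P : Prm} {N : ℕ} [NeZero N] {D : Dat} {Lk : ℕ → ℕ → ℕ → ℕ → Prop} {Bd : ℕ → ℕ → Prop}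
  {A : Finset (ZMod N)}

private theorem Badm_typ (hh : Hyp3 P N D Lk Bd A) {l : ℕ} (hl : Mul P N l) {b : ℕ}
    (h1 : VM P N * D.J1 * rho D.BX / 8 ≤ PXr P N D l b)
    (h2 : VM P N * D.J1 * rho D.BX / 8 ≤ PXr P N D 1 b)
    (h3 : VM P N * D.J0 * rho D.BY / 2 ≤ PY P N D ((b : ℕ) : ZMod N))
    (h4 : ∀ t ∈ TUP D.BX, BB P N D Bd t ((b : ℕ) : ZMod N) ≤ 1 / 40 * (VM P N * D.J0 * rho D.BY))
    (h5 : UUr P N D Lk Bd l b ≤ (D.J1 * rho D.BX) * (D.J0 * rho D.BY) / (Real.log N) ^ 2)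
    (h6 : UUr P N D Lk Bd 1 b ≤ (D.J1 * rho D.BX) * (D.J0 * rho D.BY) / (Real.log N) ^ 2)
    (hp : pht D.BX b ≤ D.J1 * rho D.BX / JJ N) : Typ P N D Lk Bd l ((b : ℕ) : ZMod N) := by
  have hn := hh.nx
  have hD := hh.ok
  have hK9 : (10 : ℝ) ^ 9 ≤ Real.log N := hK hn
  have hK1 : (1 : ℝ) ≤ Real.log N := le_trans (by norm_num) hK9
  have hK0 : (0 : ℝ) < Real.log N := by linarith
  have hM := mr_pos_X hn hD
  have hM' := mr_pos_Y hn hD
  have hvm := hn.vm
  have hJK : Real.log N ≤ JJ N := by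
    refine le_trans ?_ (jj_K hn)
    calc Real.log N = (Real.log N) ^ 1 := (pow_one _).symm
      _ ≤ (Real.log N) ^ 1000 := pow_le_pow_right₀ hK1 (by norm_num)
  have hJ0 : (0 : ℝ) < JJ N := lt_of_lt_of_le hK0 hJK
  -- lower bounds
  have lowX : ∀ l', VM P N * D.J1 * rho D.BX / 8 ≤ PXr P N D l' b →
      125 * (D.J1 * rho D.BX) / Real.log N ≤ PX P N D ((l' : ZMod N) * ((b : ℕ) : ZMod N)) := by
    intro l' hl'
    have h := pxr_le (P := P) (N := N) (D := D) l' b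
    have h7 : 1000 / Real.log N * (D.J1 * rho D.BX) ≤ VM P N * (D.J1 * rho D.BX) :=
      mul_le_mul_of_nonneg_right hvm hM.le
    have h8 : 125 * (D.J1 * rho D.BX) / Real.log N = 1000 / Real.log N * (D.J1 * rho D.BX) / 8 := by
      ring
    rw [h8]
    linarith
  have lowY : 500 * (D.J0 * rho D.BY) / Real.log N ≤ PY P N D ((b : ℕ) : ZMod N) := by
    have h7 : 1000 / Real.log N * (D.J0 * rho D.BY) ≤ VM P N * (D.J0 * rho D.BY) :=
      mul_le_mul_of_nonneg_right hvm hM'.le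
    have h8 : 500 * (D.J0 * rho D.BY) / Real.log N = 1000 / Real.log N * (D.J0 * rho D.BY) / 2 := by
      ring
    rw [h8]
    linarith
  have weak : ∀ c m : ℝ, 1 ≤ c → 0 < m → m / (Real.log N) ^ 2 ≤ c * m / Real.log N := by
    intro c m hc hm
    rw [div_le_div_iff₀ (by positivity) hK0]
    have h9 : Real.log N ≤ (Real.log N) ^ 2 := by
      rw [pow_two]
      exact le_mul_of_one_le_left hK0.le hK1
    calc m * Real.log N ≤ m * (Real.log N) ^ 2 := mul_le_mul_of_nonneg_left h9 hm.le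
      _ ≤ c * m * (Real.log N) ^ 2 := by
          apply mul_le_mul_of_nonneg_right _ (by positivity)
          exact le_mul_of_one_le_left hm.le hc
  have lx1 := lowX l h1
  have lx2 := lowX 1 h2
  rw [Nat.cast_one, one_mul] at lx2
  have hPY0 : 0 ≤ PY P N D ((b : ℕ) : ZMod N) := py_nonneg _
  have uu : ∀ l', Mul P N l' →
      125 * (D.J1 * rho D.BX) / Real.log N ≤ PX P N D ((l' : ZMod N) * ((b : ℕ) : ZMod N)) →
      UUr P N D Lk Bd l' b ≤ (D.J1 * rho D.BX) * (D.J0 * rho D.BY) / (Real.log N) ^ 2 →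
      40 * UU P N D Lk Bd l' ((b : ℕ) : ZMod N) ≤
        PX P N D ((l' : ZMod N) * ((b : ℕ) : ZMod N)) * PY P N D ((b : ℕ) : ZMod N) := by
    intro l' hl' hlow hU
    have h := uu_le (Lk := Lk) (Bd := Bd) hD l' b
    have h7 : ph P N D.BX (l' * b) ≤ D.J1 * rho D.BX / JJ N := by
      refine le_trans (ph_le_pht _ _ _ _) ?_
      rw [pht_low hD.fx (mul_low hn hD hl')]
      exact hp
    have h8 : D.J1 * rho D.BX / JJ N ≤
        PX P N D ((l' : ZMod N) * ((b : ℕ) : ZMod N)) / 80 := by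
      have h9 : D.J1 * rho D.BX / JJ N ≤ D.J1 * rho D.BX / Real.log N :=
        div_le_div_of_nonneg_left hM.le hK0 hJK
      have h10 : 125 * (D.J1 * rho D.BX) / Real.log N = 125 * (D.J1 * rho D.BX / Real.log N) := by ring
      have h11 : 0 < D.J1 * rho D.BX / Real.log N := by positivity
      rw [h10] at hlow
      linarith
    set p := PX P N D ((l' : ZMod N) * ((b : ℕ) : ZMod N)) with hpdef
    set q := PY P N D ((b : ℕ) : ZMod N) with hqdef
    have h12 : ph P N D.BX (l' * b) * q ≤ p / 80 * q :=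
      mul_le_mul_of_nonneg_right (h7.trans h8) hPY0
    have h13 : 62500 * ((D.J1 * rho D.BX) * (D.J0 * rho D.BY) / (Real.log N) ^ 2) ≤ p * q := by
      have h14 : (125 * (D.J1 * rho D.BX) / Real.log N) * (500 * (D.J0 * rho D.BY) / Real.log N) ≤
          p * q := mul_le_mul hlow lowY (by positivity) (le_trans (by positivity) hlow)
      have h15 : 62500 * ((D.J1 * rho D.BX) * (D.J0 * rho D.BY) / (Real.log N) ^ 2) =
          (125 * (D.J1 * rho D.BX) / Real.log N) * (500 * (D.J0 * rho D.BY) / Real.log N) := by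
        ring
      rw [h15]
      exact h14
    have h16 : 0 < (D.J1 * rho D.BX) * (D.J0 * rho D.BY) / (Real.log N) ^ 2 := by positivity
    linarith
  refine ⟨?_, ?_, ?_, ?_, uu l hl lx1 h5, ?_⟩
  · exact le_trans (weak 125 _ (by norm_num) hM) lx1
  · exact le_trans (weak 125 _ (by norm_num) hM) lx2
  · exact le_trans (weak 500 _ (by norm_num) hM') lowY
  · intro t ht
    have := h4 t ht
    linarith
  · have h17 := uu 1 (Or.inl rfl) (by rw [Nat.cast_one, one_mul]; exact lx2) h6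
    rw [Nat.cast_one, one_mul] at h17
    exact h17

open Classical in
theorem badm (hh : Hyp3 P N D Lk Bd A) {v : ℕ} {o : Option (ℕ → ℝ)} {L : ℝ} (hm : TM P N v o L)
    {l : ℕ} (hl : Mul P N l) :
    ∑ n ∈ (Icc 1 (D.J1 * N / v)).filter (fun n => n.Coprime N ∧ D.J2 * N < v * n ∧
      pht D.BX (v * n) ≤ D.J1 * rho D.BX / JJ N ∧ ¬ Typ P N D Lk Bd l ((v * n : ℕ) : ZMod N)),
      wt D.y0 o n ≤ (Real.log N) ^ 12 / JJ N * (L * (D.J1 * N / v)) := by
  have hn := hh.nx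
  have hD := hh.ok
  have hP := hh.hP
  have hN2 := N_two hn
  have hK9 : (10 : ℝ) ^ 9 ≤ Real.log N := hK hn
  have hK1 : (1 : ℝ) ≤ Real.log N := le_trans (by norm_num) hK9
  have hK0 : (0 : ℝ) < Real.log N := by linarith
  have hM := mr_pos_X hn hD
  have hM' := mr_pos_Y hn hD
  have hJ0 : (0 : ℝ) < JJ N := by
    have := jj_one hn
    exact_mod_cast this
  have hL := tm_L_pos hn hm
  have hv0 : 0 < v := hm.v1
  have hv : (0 : ℝ) < v := by exact_mod_cast hv0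
  have hN0 : (0 : ℝ) < N := by
    have : (2 : ℝ) ≤ N := by exact_mod_cast hN2
    linarith
  have hN1 : (1 : ℝ) ≤ N := by
    have : (2 : ℝ) ≤ N := by exact_mod_cast hN2
    linarith
  have hJ1 : (1 : ℝ) ≤ D.J1 := by exact_mod_cast j1_pos hn hD
  set a := D.J2 * N / v with ha
  set b := D.J1 * N / v with hb
  have hab : a ≤ b := Nat.div_le_div_right (Nat.mul_le_mul_right _ (j2_lt hn hD).le)
  have hvb : v * b ≤ D.J1 * N := Nat.mul_div_le _ _
  have hva : D.J2 * N < v * (a + 1) := Nat.lt_mul_div_succ _ hv0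
  have hbR : (b : ℝ) ≤ D.J1 * N / v := by
    rw [hb]
    have := Nat.cast_div_le (α := ℝ) (m := D.J1 * N) (n := v)
    rwa [Nat.cast_mul] at this
  have hlen : len P N v a b ≤ 2 * (D.J1 * N / v) := by
    unfold len
    have h1 : (N : ℝ) ^ (1 - P.kap / 8) ≤ N := by
      calc (N : ℝ) ^ (1 - P.kap / 8) ≤ (N : ℝ) ^ (1 : ℝ) := by
            apply Real.rpow_le_rpow_of_exponent_le hN1
            have := hP.kap0
            linarith
        _ = N := Real.rpow_one _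
    have h2 : (N : ℝ) ^ (1 - P.kap / 8) / v ≤ D.J1 * N / v := by
      apply div_le_div_of_nonneg_right _ hv.le
      calc (N : ℝ) ^ (1 - P.kap / 8) ≤ N := h1
        _ = 1 * N := (one_mul _).symm
        _ ≤ D.J1 * N := mul_le_mul_of_nonneg_right hJ1 hN0.le
    have h3 : (0 : ℝ) ≤ a := Nat.cast_nonneg _
    linarith
  have hw : ∀ n, 0 ≤ wt D.y0 o n := fun n => wt_nonneg hm D.y0 n
  -- the six sets
  have c1 := hh.cnt.c1 v o L hm l hl a b hab hvb
  have c2 := hh.cnt.c1 v o L hm 1 (Or.inl rfl) a b hab hvb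
  have c3 := hh.cnt.c2 v o L hm a b hab hvb (Or.inr hva)
  have c4 := hh.pin.bs v o L hm a b hab hvb (Or.inr hva)
  set E := L / JJ N * len P N v a b with hE
  set T := (D.J1 * rho D.BX) * (D.J0 * rho D.BY) / (Real.log N) ^ 2 with hT
  have hT0 : 0 < T := by positivity
  have mk : ∀ l', Mul P N l' → ∑ n ∈ (Icc 1 b).filter (fun n : ℕ => (n.Coprime N ∧ D.J2 * N < v * n) ∧
      T ≤ UUr P N D Lk Bd l' (v * n)), wt D.y0 o n ≤
      8 * (Real.log N) ^ 2 / JJ N * (L * (D.J1 * N / v)) := by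
    intro l' hl'
    have h := uusum hh hm hl'
    have h1 : T * ∑ n ∈ (Icc 1 b).filter (fun n : ℕ => (n.Coprime N ∧ D.J2 * N < v * n) ∧
        T ≤ UUr P N D Lk Bd l' (v * n)), wt D.y0 o n ≤
        8 / JJ N * (D.J1 * rho D.BX) * (D.J0 * rho D.BY) * (L * (D.J1 * N / v)) := by
      refine le_trans ?_ h
      rw [mul_sum, ← filter_filter]
      refine le_trans ?_ (sum_le_sum_of_subset_of_nonneg
        (filter_subset (fun n => T ≤ UUr P N D Lk Bd l' (v * n)) _) ?_)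
      · apply sum_le_sum
        intro n hnm
        rw [mem_filter] at hnm
        rw [mul_comm]
        exact mul_le_mul_of_nonneg_left hnm.2 (hw n)
      · intro n _ _
        exact mul_nonneg (hw n) (uur_nonneg _ _)
    have h2 : 8 / JJ N * (D.J1 * rho D.BX) * (D.J0 * rho D.BY) * (L * (D.J1 * N / v)) =
        T * (8 * (Real.log N) ^ 2 / JJ N * (L * (D.J1 * N / v))) := by
      rw [hT]
      field_simp
    rw [h2] at h1
    exact le_of_mul_le_mul_left h1 hT0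
  have m5 := mk l hl
  have m6 := mk 1 (Or.inl rfl)
  set S1 := (Ioc a b).filter (fun n : ℕ => n.Coprime N ∧
      PXr P N D l (v * n) < VM P N * D.J1 * rho D.BX / 8) with hS1
  set S2 := (Ioc a b).filter (fun n : ℕ => n.Coprime N ∧
      PXr P N D 1 (v * n) < VM P N * D.J1 * rho D.BX / 8) with hS2
  set S3 := (Ioc a b).filter (fun n : ℕ => n.Coprime N ∧
      PY P N D ((v * n : ℕ) : ZMod N) < VM P N * D.J0 * rho D.BY / 2) with hS3
  set S4 := (Ioc a b).filter (fun n : ℕ => n.Coprime N ∧ ∃ t ∈ TUP D.BX,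
      1 / 40 * (VM P N * D.J0 * rho D.BY) < BB P N D Bd t ((v * n : ℕ) : ZMod N)) with hS4
  set S5 := (Icc 1 b).filter (fun n : ℕ => (n.Coprime N ∧ D.J2 * N < v * n) ∧
        T ≤ UUr P N D Lk Bd l (v * n)) with hS5
  set S6 := (Icc 1 b).filter (fun n : ℕ => (n.Coprime N ∧ D.J2 * N < v * n) ∧
        T ≤ UUr P N D Lk Bd 1 (v * n)) with hS6
  have hsub : (Icc 1 b).filter (fun n => n.Coprime N ∧ D.J2 * N < v * n ∧
      pht D.BX (v * n) ≤ D.J1 * rho D.BX / JJ N ∧ ¬ Typ P N D Lk Bd l ((v * n : ℕ) : ZMod N)) ⊆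
      S1 ∪ (S2 ∪ (S3 ∪ (S4 ∪ (S5 ∪ S6)))) := by
    intro n hnm
    rw [mem_filter, mem_Icc] at hnm
    obtain ⟨⟨hn1, hnb⟩, hcop, hlow, hpht, htyp⟩ := hnm
    have hna : a < n := by
      rw [ha, Nat.div_lt_iff_lt_mul hv0, mul_comm n v]
      exact hlow
    by_contra hcon
    rw [mem_union, mem_union, mem_union, mem_union, mem_union] at hcon
    push Not at hcon
    obtain ⟨g1, g2, g3, g4, g5, g6⟩ := hcon
    apply htyp
    have e1' : ¬ PXr P N D l (v * n) < VM P N * D.J1 * rho D.BX / 8 := fun h =>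
      g1 (mem_filter.mpr ⟨mem_Ioc.mpr ⟨hna, hnb⟩, hcop, h⟩)
    have e2' : ¬ PXr P N D 1 (v * n) < VM P N * D.J1 * rho D.BX / 8 := fun h =>
      g2 (mem_filter.mpr ⟨mem_Ioc.mpr ⟨hna, hnb⟩, hcop, h⟩)
    have e3' : ¬ PY P N D ((v * n : ℕ) : ZMod N) < VM P N * D.J0 * rho D.BY / 2 := fun h =>
      g3 (mem_filter.mpr ⟨mem_Ioc.mpr ⟨hna, hnb⟩, hcop, h⟩)
    have e4' : ∀ t ∈ TUP D.BX, ¬ 1 / 40 * (VM P N * D.J0 * rho D.BY) <
        BB P N D Bd t ((v * n : ℕ) : ZMod N) := fun t ht h =>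
      g4 (mem_filter.mpr ⟨mem_Ioc.mpr ⟨hna, hnb⟩, hcop, t, ht, h⟩)
    have e5' : ¬ T ≤ UUr P N D Lk Bd l (v * n) := fun h =>
      g5 (mem_filter.mpr ⟨mem_Icc.mpr ⟨hn1, hnb⟩, ⟨hcop, hlow⟩, h⟩)
    have e6' : ¬ T ≤ UUr P N D Lk Bd 1 (v * n) := fun h =>
      g6 (mem_filter.mpr ⟨mem_Icc.mpr ⟨hn1, hnb⟩, ⟨hcop, hlow⟩, h⟩)
    exact Badm_typ hh hl (not_lt.mp e1') (not_lt.mp e2') (not_lt.mp e3')
      (fun t ht => not_lt.mp (e4' t ht)) (not_le.mp e5').le (not_le.mp e6').le hpht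
  have hun : ∀ (U V : Finset ℕ), ∑ n ∈ U ∪ V, wt D.y0 o n ≤
      ∑ n ∈ U, wt D.y0 o n + ∑ n ∈ V, wt D.y0 o n := by
    intro U V
    rw [← sum_union_inter]
    have : 0 ≤ ∑ n ∈ U ∩ V, wt D.y0 o n := sum_nonneg fun n _ => hw n
    linarith
  have htot := sum_le_sum_of_subset_of_nonneg (f := fun n => wt D.y0 o n) hsub
    (fun n _ _ => hw n)
  have u1 := hun S1 (S2 ∪ (S3 ∪ (S4 ∪ (S5 ∪ S6))))
  have u2 := hun S2 (S3 ∪ (S4 ∪ (S5 ∪ S6)))
  have u3 := hun S3 (S4 ∪ (S5 ∪ S6))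
  have u4 := hun S4 (S5 ∪ S6)
  have u5 := hun S5 S6
  have hX0 : 0 < L * (D.J1 * N / v) := by positivity
  have hE2 : E ≤ 2 / JJ N * (L * (D.J1 * N / v)) := by
    rw [hE]
    calc L / JJ N * len P N v a b ≤ L / JJ N * (2 * (D.J1 * N / v)) :=
          mul_le_mul_of_nonneg_left hlen (by positivity)
      _ = 2 / JJ N * (L * (D.J1 * N / v)) := by ring
  have hfin : 4 * (2 / JJ N * (L * (D.J1 * N / v))) +
      2 * (8 * (Real.log N) ^ 2 / JJ N * (L * (D.J1 * N / v))) ≤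
      (Real.log N) ^ 12 / JJ N * (L * (D.J1 * N / v)) := by
    have h1 : 8 + 16 * (Real.log N) ^ 2 ≤ (Real.log N) ^ 12 := by
      have h2 : (1 : ℝ) ≤ (Real.log N) ^ 2 := one_le_pow₀ hK1
      have h3 : (24 : ℝ) ≤ (Real.log N) ^ 10 := by
        calc (24 : ℝ) ≤ Real.log N := le_trans (by norm_num) hK9
          _ = (Real.log N) ^ 1 := (pow_one _).symm
          _ ≤ (Real.log N) ^ 10 := pow_le_pow_right₀ hK1 (by norm_num)
      have h4 : (Real.log N) ^ 12 = (Real.log N) ^ 10 * (Real.log N) ^ 2 := by ring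
      rw [h4]
      have h5 : 24 * (Real.log N) ^ 2 ≤ (Real.log N) ^ 10 * (Real.log N) ^ 2 :=
        mul_le_mul_of_nonneg_right h3 (by positivity)
      linarith
    have h6 : 4 * (2 / JJ N * (L * (D.J1 * N / v))) +
        2 * (8 * (Real.log N) ^ 2 / JJ N * (L * (D.J1 * N / v))) =
        (8 + 16 * (Real.log N) ^ 2) / JJ N * (L * (D.J1 * N / v)) := by ring
    rw [h6]
    apply mul_le_mul_of_nonneg_right _ hX0.le
    exact div_le_div_of_nonneg_right h1 hJ0.le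
  linarith

end Pool.Agent.Lib.T3F
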