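import Pool.Agent.Lib.MP_7b7e48_nt.T3F.Def
import Pool.Agent.Lib.MP_7b7e48_nt.T3F.Smz
import Pool.Agent.Lib.MP_7b7e48_nt.T3F.Badm

/-!
# Module Smb (90 minutes): atypical classes and unlinked pairs in the two parts

`K = log N`, `M = J1 rho_X`, `M' = J0 rho_Y`, `σ = sgm`, `L` from `EnvX.lv`. PROOFS. `[¬ Typ l a] ≤ [¬ Typ l a and pht a ≤ M / JJ] + [pht a > M / JJ]`.
`bad1`: the first part by `badm` for `v = q t` (`tm_q`; `n ∈ NV (q t)` is coprime to `N`, as `q t n` is): `K ^ 12 / JJ * J1 N / (q t)`, sum by `qm_sum`: `K ^ 12 / JJ * M σ N`; the second part by `big1`: `K ^ 6 JJ σ N ≤ M σ N / JJ` because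
`M ≥ JJ ^ 3`. `bad2`: `badm` for `v = m t` (`tm_m`; dropping the condition that `n` is a prime, weights `≥ 0`): `K ^ 12 / JJ * L * J1 N / (m t)`, sum by `mv_sum`, `L ≤ K ^ 3 σ`; `big2`.
`uu1`, `uu2`: `uusum` for `l = 1` (`Mul P N 1`), `v = q t` resp. `m t`: `8 / JJ * M M' L J1 N / v` (`UUr 1 (v * n)`).
-/

set_option autoImplicit false

open Finset

namespace Pool.Agent.Lib.T3F

open Pool.Agent.Lib.TCF

open Pool.Agent.Lib.RG hiding RR sig Good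
open Pool.Agent.Lib.RH
open Pool.Agent.Lib.MP_45349e_nt.LS (lam)

variable {P : Prm} {N : ℕ} [NeZero N] {D : Dat} {Lk : ℕ → ℕ → ℕ → ℕ → Prop} {Bd : ℕ → ℕ → Prop}
  {A : Finset (ZMod N)} {χ : DirichletCharacter ℂ N}

theorem Smb_cop {v n : ℕ} (h : (v * n).Coprime N) : n.Coprime N :=
  Nat.Coprime.coprime_mul_left h

open Classical in
/-- atypical classes of one measure -/
private theorem Smb_A (hh : Hyp3 P N D Lk Bd A) {v : ℕ} {o : Option (ℕ → ℝ)} {L : ℝ}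
    (hm : TM P N v o L) {l : ℕ} (hl : Mul P N l) (T : Finset ℕ) (hT : T ⊆ NV P N D v) :
    ∑ n ∈ T, wt D.y0 o n * (if ¬ Typ P N D Lk Bd l ((v * n : ℕ) : ZMod N) ∧
      pht D.BX (v * n) ≤ D.J1 * rho D.BX / JJ N then 1 else 0) ≤
      (Real.log N) ^ 12 / JJ N * (L * (D.J1 * N / v)) := by
  refine le_trans ?_ (badm hh hm hl)
  have h1 : ∑ n ∈ T, wt D.y0 o n * (if ¬ Typ P N D Lk Bd l ((v * n : ℕ) : ZMod N) ∧
      pht D.BX (v * n) ≤ D.J1 * rho D.BX / JJ N then (1 : ℝ) else 0) =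
      ∑ n ∈ T.filter (fun n => ¬ Typ P N D Lk Bd l ((v * n : ℕ) : ZMod N) ∧
        pht D.BX (v * n) ≤ D.J1 * rho D.BX / JJ N), wt D.y0 o n := by
    rw [sum_filter]
    refine sum_congr rfl fun n _ => ?_
    split_ifs
    · rw [mul_one]
    · rw [mul_zero]
  rw [h1]
  refine sum_le_sum_of_subset_of_nonneg (fun n hn => ?_) (fun n _ _ => wt_nonneg hm _ _)
  rw [mem_filter] at hn
  have h2 := hT hn.1
  unfold NV at h2
  rw [mem_filter] at h2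
  rw [mem_filter]
  exact ⟨h2.1, Smb_cop h2.2.1.1, h2.2.2, hn.2.2, hn.2.1⟩

/-- unlinked pairs of one measure -/
private theorem Smb_B (hh : Hyp3 P N D Lk Bd A) {v : ℕ} {o : Option (ℕ → ℝ)} {L : ℝ}
    (hm : TM P N v o L) (T : Finset ℕ) (hT : T ⊆ NV P N D v) :
    ∑ n ∈ T, wt D.y0 o n * UUr P N D Lk Bd 1 (v * n) ≤
      8 / JJ N * (D.J1 * rho D.BX) * (D.J0 * rho D.BY) * (L * (D.J1 * N / v)) := by
  classical
  refine le_trans ?_ (uusum hh hm (l := 1) (Or.inl rfl))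
  refine sum_le_sum_of_subset_of_nonneg (fun n hn => ?_)
    (fun n _ _ => mul_nonneg (wt_nonneg hm _ _) (uur_nonneg _ _))
  have h2 := hT hn
  unfold NV at h2
  rw [mem_filter] at h2
  rw [mem_filter]
  exact ⟨h2.1, Smb_cop h2.2.1.1, h2.2.2⟩

/-- the first part from the measures -/
theorem Smb_S1 (E : EnvX3 P N D Lk Bd A χ) (G : ℕ → ℝ) (C : ℝ)
    (h : ∀ q ∈ QM P χ, ∀ t ∈ TUP D.BX, ∑ n ∈ NV P N D (q * t), G (q * t * n) ≤
      C * (1 * (D.J1 * N / ((q * t : ℕ) : ℝ)))) :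
    S1 P D χ (fun _ a => G a) ≤ C * ((D.J1 * rho D.BX) * sgm P χ * N) := by
  unfold S1
  refine (sum_le_sum fun q hq => sum_le_sum fun t ht => h q hq t ht).trans (le_of_eq ?_)
  have h1 : ∑ q ∈ QM P χ, ∑ t ∈ TUP D.BX, C * (1 * (D.J1 * N / ((q * t : ℕ) : ℝ))) =
      C * (D.J1 * N) * ∑ q ∈ QM P χ, ∑ t ∈ TUP D.BX, 1 / ((q * t : ℕ) : ℝ) := by
    rw [mul_sum]
    refine sum_congr rfl fun q _ => ?_
    rw [mul_sum]
    refine sum_congr rfl fun t _ => ?_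
    ring
  rw [h1, qm_sum E]
  ring

open Classical in
/-- the second part from the measures -/
theorem Smb_S2 (E : EnvX3 P N D Lk Bd A χ) (G : ℕ → ℝ) (C L : ℝ) (hC : 0 ≤ C)
    (hL0 : 0 ≤ L) (hL : L ≤ (Real.log N) ^ 3 * sgm P χ)
    (h : ∀ m ∈ MV P N, ∀ t ∈ TUP D.BX,
      ∑ n ∈ (NV P N D (m * t)).filter (fun n : ℕ => n.Prime ∧ (N : ℝ) ^ (1 - P.kap) < (n : ℝ)),
        wt D.y0 (some (cc χ)) n * G (m * t * n) ≤ C * (L * (D.J1 * N / ((m * t : ℕ) : ℝ)))) :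
    S2 P D χ (fun _ a => G a) ≤
      2 * (Real.log N) ^ 4 * C * ((D.J1 * rho D.BX) * sgm P χ * N) := by
  have hK0 : 0 ≤ Real.log N := by
    have := hK E.hyp.nx
    have h9 : (0 : ℝ) < 10 ^ 9 := by norm_num
    linarith
  have hM : 0 < D.J1 * rho D.BX := mr_pos_X E.hyp.nx E.hyp.ok
  have hJ1 : (0 : ℝ) ≤ D.J1 := Nat.cast_nonneg _
  have hN0 : (0 : ℝ) ≤ N := Nat.cast_nonneg _
  unfold S2
  refine (sum_le_sum fun m hm => sum_le_sum fun t ht => h m hm t ht).trans ?_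
  have h1 : ∑ m ∈ MV P N, ∑ t ∈ TUP D.BX, C * (L * (D.J1 * N / ((m * t : ℕ) : ℝ))) =
      C * L * (D.J1 * N) * ∑ m ∈ MV P N, ∑ t ∈ TUP D.BX, 1 / ((m * t : ℕ) : ℝ) := by
    rw [mul_sum]
    refine sum_congr rfl fun q _ => ?_
    rw [mul_sum]
    refine sum_congr rfl fun t _ => ?_
    ring
  rw [h1]
  have h2 : C * L * (D.J1 * N) * ∑ m ∈ MV P N, ∑ t ∈ TUP D.BX, 1 / ((m * t : ℕ) : ℝ) ≤
      C * L * (D.J1 * N) * (2 * Real.log N * rho D.BX) :=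
    mul_le_mul_of_nonneg_left (mv_sum E) (by positivity)
  refine h2.trans ?_
  have h3 : C * L * (D.J1 * N) * (2 * Real.log N * rho D.BX) =
      (C * (D.J1 * rho D.BX) * N * (2 * Real.log N)) * L := by ring
  rw [h3]
  have h4 : (C * (D.J1 * rho D.BX) * N * (2 * Real.log N)) * L ≤
      (C * (D.J1 * rho D.BX) * N * (2 * Real.log N)) * ((Real.log N) ^ 3 * sgm P χ) :=
    mul_le_mul_of_nonneg_left hL (by positivity)
  refine h4.trans (le_of_eq ?_)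
  ring

theorem Smb_num {K : ℝ} (hK : (10 : ℝ) ^ 9 ≤ K) :
    2 * K ^ 4 * K ^ 12 + K ^ 10 ≤ K ^ 20 ∧ K ^ 12 + K ^ 6 ≤ K ^ 20 ∧ 8 ≤ K ^ 20 ∧
      2 * K ^ 4 * 8 ≤ K ^ 20 := by
  have h9 : (100 : ℝ) ≤ 10 ^ 9 := by norm_num
  have hK1 : (100 : ℝ) ≤ K := h9.trans hK
  have hK2 : (1 : ℝ) ≤ K := by linarith
  have a1 : K ^ 6 ≤ K ^ 16 := pow_le_pow_right₀ hK2 (by norm_num)
  have a2 : K ^ 10 ≤ K ^ 16 := pow_le_pow_right₀ hK2 (by norm_num)
  have a3 : K ^ 12 ≤ K ^ 16 := pow_le_pow_right₀ hK2 (by norm_num)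
  have a4 : K ^ 4 ≤ K ^ 16 := pow_le_pow_right₀ hK2 (by norm_num)
  have a5 : (1 : ℝ) ≤ K ^ 16 := one_le_pow₀ hK2
  have a6 : K ≤ K ^ 4 := by
    calc K = K ^ 1 := (pow_one K).symm
      _ ≤ K ^ 4 := pow_le_pow_right₀ hK2 (by norm_num)
  have a7 : 100 * K ^ 16 ≤ K ^ 20 := by
    calc 100 * K ^ 16 ≤ K ^ 4 * K ^ 16 :=
          mul_le_mul_of_nonneg_right (hK1.trans a6) (by positivity)
      _ = K ^ 20 := by ring
  refine ⟨?_, ?_, ?_, ?_⟩
  · have : 2 * K ^ 4 * K ^ 12 = 2 * K ^ 16 := by ring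
    rw [this]
    linarith
  · linarith
  · linarith
  · linarith

/-- the contribution of the numbers with many tuples -/
private theorem Smb_big (E : EnvX3 P N D Lk Bd A χ) (k : ℕ) :
    (Real.log N) ^ k * JJ N * sgm P χ * N ≤
      (Real.log N) ^ k / JJ N * (D.J1 * rho D.BX) * sgm P χ * N := by
  have hK0 : 0 ≤ Real.log N := by
    have := hK E.hyp.nx
    have h9 : (0 : ℝ) < 10 ^ 9 := by norm_num
    linarith
  have hJ : (1 : ℝ) ≤ JJ N := by exact_mod_cast jj_one E.hyp.nx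
  have hs := sgm_pos E
  have h1 : (JJ N : ℝ) ≤ (D.J1 * rho D.BX) / JJ N := by
    rw [le_div_iff₀ (by linarith)]
    refine le_trans ?_ E.hyp.ok.jx
    have h2 : (JJ N : ℝ) * JJ N * 1 ≤ JJ N * JJ N * JJ N :=
      mul_le_mul_of_nonneg_left hJ (by positivity)
    calc (JJ N : ℝ) * JJ N = JJ N * JJ N * 1 := by ring
      _ ≤ _ := h2
      _ = (JJ N : ℝ) ^ 3 := by ring
  calc (Real.log N) ^ k * JJ N * sgm P χ * N ≤
        (Real.log N) ^ k * ((D.J1 * rho D.BX) / JJ N) * sgm P χ * N := by gcongr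
    _ = _ := by ring

open Classical in
private theorem Smb_split (l a : ℕ) :
    (if ¬ Typ P N D Lk Bd l ((a : ℕ) : ZMod N) then (1 : ℝ) else 0) ≤
      (if ¬ Typ P N D Lk Bd l ((a : ℕ) : ZMod N) ∧
        pht D.BX a ≤ D.J1 * rho D.BX / JJ N then 1 else 0) +
      (if D.J1 * rho D.BX / JJ N < pht D.BX a then 1 else 0) := by
  by_cases h1 : Typ P N D Lk Bd l ((a : ℕ) : ZMod N)
  · rw [if_neg (not_not.mpr h1)]
    have h2 : (0 : ℝ) ≤ (if ¬ Typ P N D Lk Bd l ((a : ℕ) : ZMod N) ∧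
        pht D.BX a ≤ D.J1 * rho D.BX / JJ N then (1 : ℝ) else 0) := by split_ifs <;> norm_num
    have h3 : (0 : ℝ) ≤ (if D.J1 * rho D.BX / JJ N < pht D.BX a then (1 : ℝ) else 0) := by
      split_ifs <;> norm_num
    linarith
  · rw [if_pos h1]
    by_cases h2 : pht D.BX a ≤ D.J1 * rho D.BX / JJ N
    · rw [if_pos ⟨h1, h2⟩, if_neg (not_lt.mpr h2), add_zero]
    · rw [if_neg (fun h => h2 h.2), if_pos (not_le.mp h2), zero_add]

theorem Smb_w1 (y0 n : ℕ) (x : ℝ) : wt y0 none n * x = x := by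
  show (1 : ℝ) * x = x
  rw [one_mul]

open Classical in
theorem bad1 (E : EnvX3 P N D Lk Bd A χ) {l : ℕ} (hl : Mul P N l) :
    S1 P D χ (fun _ a => if ¬ Typ P N D Lk Bd l ((a : ℕ) : ZMod N) then 1 else 0) ≤
      (Real.log N) ^ 20 / JJ N * (D.J1 * rho D.BX) * sgm P χ * N := by
  have hKK := hK E.hyp.nx
  have hJ : (1 : ℝ) ≤ JJ N := by exact_mod_cast jj_one E.hyp.nx
  have hM : 0 < D.J1 * rho D.BX := mr_pos_X E.hyp.nx E.hyp.ok
  have hs := sgm_pos E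
  have h1 : S1 P D χ (fun _ a => if ¬ Typ P N D Lk Bd l ((a : ℕ) : ZMod N) then 1 else 0) ≤
      S1 P D χ (fun _ a => if ¬ Typ P N D Lk Bd l ((a : ℕ) : ZMod N) ∧
        pht D.BX a ≤ D.J1 * rho D.BX / JJ N then 1 else 0) +
      S1 P D χ (fun _ a => if D.J1 * rho D.BX / JJ N < pht D.BX a then 1 else 0) := by
    refine (s1_mono (G' := fun _ a => (if ¬ Typ P N D Lk Bd l ((a : ℕ) : ZMod N) ∧
        pht D.BX a ≤ D.J1 * rho D.BX / JJ N then 1 else 0) +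
      (if D.J1 * rho D.BX / JJ N < pht D.BX a then 1 else 0))
      fun t _ a => Smb_split l a).trans (le_of_eq ?_)
    unfold S1
    simp only [sum_add_distrib]
  have h2 : S1 P D χ (fun _ a => if ¬ Typ P N D Lk Bd l ((a : ℕ) : ZMod N) ∧
        pht D.BX a ≤ D.J1 * rho D.BX / JJ N then 1 else 0) ≤
      (Real.log N) ^ 12 / JJ N * ((D.J1 * rho D.BX) * sgm P χ * N) := by
    refine Smb_S1 E _ _ fun q hq t ht => ?_
    refine le_trans (le_of_eq ?_) (Smb_A E.hyp (tm_q E hq ht) hl _ (Finset.Subset.refl _))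
    refine sum_congr rfl fun n _ => ?_
    rw [Smb_w1]
  have h3 := (big1 E).trans (Smb_big E 6)
  have h4 := (Smb_num hKK).2.1
  have h5 : ((Real.log N) ^ 12 + (Real.log N) ^ 6) * (1 / JJ N * (D.J1 * rho D.BX) * sgm P χ * N) ≤
      (Real.log N) ^ 20 * (1 / JJ N * (D.J1 * rho D.BX) * sgm P χ * N) :=
    mul_le_mul_of_nonneg_right h4 (by positivity)
  calc _ ≤ _ := h1
    _ ≤ (Real.log N) ^ 12 / JJ N * ((D.J1 * rho D.BX) * sgm P χ * N) +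
        (Real.log N) ^ 6 / JJ N * (D.J1 * rho D.BX) * sgm P χ * N := add_le_add h2 h3
    _ = ((Real.log N) ^ 12 + (Real.log N) ^ 6) *
        (1 / JJ N * (D.J1 * rho D.BX) * sgm P χ * N) := by ring
    _ ≤ _ := h5
    _ = _ := by ring

open Classical in
theorem bad2 (E : EnvX3 P N D Lk Bd A χ) (hW : WT P N) {l : ℕ} (hl : Mul P N l) :
    S2 P D χ (fun _ a => if ¬ Typ P N D Lk Bd l ((a : ℕ) : ZMod N) then 1 else 0) ≤
      (Real.log N) ^ 20 / JJ N * (D.J1 * rho D.BX) * sgm P χ * N := by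
  have hKK := hK E.hyp.nx
  have hK0 : 0 ≤ Real.log N := by
    have h9 : (0 : ℝ) < 10 ^ 9 := by norm_num
    linarith
  have hJ : (1 : ℝ) ≤ JJ N := by exact_mod_cast jj_one E.hyp.nx
  have hM : 0 < D.J1 * rho D.BX := mr_pos_X E.hyp.nx E.hyp.ok
  have hs := sgm_pos E
  obtain ⟨L, hL1, hL2, hL3⟩ := E.lv
  have hw0 : ∀ m ∈ MV P N, ∀ t ∈ TUP D.BX, ∀ n : ℕ, 0 ≤ wt D.y0 (some (cc χ)) n :=
    fun m hm t ht n => wt_nonneg (tm_m E hL1 hL2 hm ht) _ _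
  have hL0 : 0 ≤ L := le_trans (by positivity) hL2
  have h1 : S2 P D χ (fun _ a => if ¬ Typ P N D Lk Bd l ((a : ℕ) : ZMod N) then 1 else 0) ≤
      S2 P D χ (fun _ a => if ¬ Typ P N D Lk Bd l ((a : ℕ) : ZMod N) ∧
        pht D.BX a ≤ D.J1 * rho D.BX / JJ N then 1 else 0) +
      S2 P D χ (fun _ a => if D.J1 * rho D.BX / JJ N < pht D.BX a then 1 else 0) := by
    unfold S2
    rw [← sum_add_distrib]
    refine sum_le_sum fun m hm => ?_
    rw [← sum_add_distrib]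
    refine sum_le_sum fun t ht => ?_
    rw [← sum_add_distrib]
    refine sum_le_sum fun n _ => ?_
    rw [← mul_add]
    exact mul_le_mul_of_nonneg_left (Smb_split l (m * t * n)) (hw0 m hm t ht n)
  have h2 : S2 P D χ (fun _ a => if ¬ Typ P N D Lk Bd l ((a : ℕ) : ZMod N) ∧
        pht D.BX a ≤ D.J1 * rho D.BX / JJ N then 1 else 0) ≤
      2 * (Real.log N) ^ 4 * ((Real.log N) ^ 12 / JJ N) * ((D.J1 * rho D.BX) * sgm P χ * N) := by
    refine Smb_S2 E _ _ L (by positivity) hL0 hL3 fun m hm t ht => ?_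
    exact Smb_A E.hyp (tm_m E hL1 hL2 hm ht) hl _ (Finset.filter_subset _ _)
  have h3 := (big2 E hW).trans (Smb_big E 10)
  have h4 := (Smb_num hKK).1
  have h5 : (2 * (Real.log N) ^ 4 * (Real.log N) ^ 12 + (Real.log N) ^ 10) *
      (1 / JJ N * (D.J1 * rho D.BX) * sgm P χ * N) ≤
      (Real.log N) ^ 20 * (1 / JJ N * (D.J1 * rho D.BX) * sgm P χ * N) :=
    mul_le_mul_of_nonneg_right h4 (by positivity)
  calc _ ≤ _ := h1
    _ ≤ 2 * (Real.log N) ^ 4 * ((Real.log N) ^ 12 / JJ N) * ((D.J1 * rho D.BX) * sgm P χ * N) +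
        (Real.log N) ^ 10 / JJ N * (D.J1 * rho D.BX) * sgm P χ * N := add_le_add h2 h3
    _ = (2 * (Real.log N) ^ 4 * (Real.log N) ^ 12 + (Real.log N) ^ 10) *
        (1 / JJ N * (D.J1 * rho D.BX) * sgm P χ * N) := by ring
    _ ≤ _ := h5
    _ = _ := by ring

theorem uu1 (E : EnvX3 P N D Lk Bd A χ) :
    S1 P D χ (fun _ a => UUr P N D Lk Bd 1 a) ≤
      (Real.log N) ^ 20 / JJ N * (D.J0 * rho D.BY) * (D.J1 * rho D.BX) ^ 2 * sgm P χ * N := by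
  have hKK := hK E.hyp.nx
  have hJ : (1 : ℝ) ≤ JJ N := by exact_mod_cast jj_one E.hyp.nx
  have hM : 0 < D.J1 * rho D.BX := mr_pos_X E.hyp.nx E.hyp.ok
  have hM' : 0 < D.J0 * rho D.BY := mr_pos_Y E.hyp.nx E.hyp.ok
  have hs := sgm_pos E
  have h2 : S1 P D χ (fun _ a => UUr P N D Lk Bd 1 a) ≤
      (8 / JJ N * (D.J1 * rho D.BX) * (D.J0 * rho D.BY)) *
        ((D.J1 * rho D.BX) * sgm P χ * N) := by
    refine Smb_S1 E _ _ fun q hq t ht => ?_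
    refine le_trans (le_of_eq ?_) (Smb_B E.hyp (tm_q E hq ht) _ (Finset.Subset.refl _))
    refine sum_congr rfl fun n _ => ?_
    rw [Smb_w1]
  have h4 := (Smb_num hKK).2.2.1
  have h5 : 8 * (1 / JJ N * (D.J0 * rho D.BY) * (D.J1 * rho D.BX) ^ 2 * sgm P χ * N) ≤
      (Real.log N) ^ 20 *
        (1 / JJ N * (D.J0 * rho D.BY) * (D.J1 * rho D.BX) ^ 2 * sgm P χ * N) :=
    mul_le_mul_of_nonneg_right h4 (by positivity)
  calc _ ≤ _ := h2
    _ = 8 * (1 / JJ N * (D.J0 * rho D.BY) * (D.J1 * rho D.BX) ^ 2 * sgm P χ * N) := by ring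
    _ ≤ _ := h5
    _ = _ := by ring

theorem uu2 (E : EnvX3 P N D Lk Bd A χ) :
    S2 P D χ (fun _ a => UUr P N D Lk Bd 1 a) ≤
      (Real.log N) ^ 20 / JJ N * (D.J0 * rho D.BY) * (D.J1 * rho D.BX) ^ 2 * sgm P χ * N := by
  have hKK := hK E.hyp.nx
  have hK0 : 0 ≤ Real.log N := by
    have h9 : (0 : ℝ) < 10 ^ 9 := by norm_num
    linarith
  have hJ : (1 : ℝ) ≤ JJ N := by exact_mod_cast jj_one E.hyp.nx
  have hM : 0 < D.J1 * rho D.BX := mr_pos_X E.hyp.nx E.hyp.ok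
  have hM' : 0 < D.J0 * rho D.BY := mr_pos_Y E.hyp.nx E.hyp.ok
  have hs := sgm_pos E
  obtain ⟨L, hL1, hL2, hL3⟩ := E.lv
  have hL0 : 0 ≤ L := le_trans (by positivity) hL2
  have h2 : S2 P D χ (fun _ a => UUr P N D Lk Bd 1 a) ≤
      2 * (Real.log N) ^ 4 * (8 / JJ N * (D.J1 * rho D.BX) * (D.J0 * rho D.BY)) *
        ((D.J1 * rho D.BX) * sgm P χ * N) := by
    refine Smb_S2 E _ _ L (by positivity) hL0 hL3 fun m hm t ht => ?_
    exact Smb_B E.hyp (tm_m E hL1 hL2 hm ht) _ (Finset.filter_subset _ _)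
  have h4 := (Smb_num hKK).2.2.2
  have h5 : (2 * (Real.log N) ^ 4 * 8) *
        (1 / JJ N * (D.J0 * rho D.BY) * (D.J1 * rho D.BX) ^ 2 * sgm P χ * N) ≤
      (Real.log N) ^ 20 *
        (1 / JJ N * (D.J0 * rho D.BY) * (D.J1 * rho D.BX) ^ 2 * sgm P χ * N) :=
    mul_le_mul_of_nonneg_right h4 (by positivity)
  calc _ ≤ _ := h2
    _ = (2 * (Real.log N) ^ 4 * 8) *
        (1 / JJ N * (D.J0 * rho D.BY) * (D.J1 * rho D.BX) ^ 2 * sgm P χ * N) := by ring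
    _ ≤ _ := h5
    _ = _ := by ring

end Pool.Agent.Lib.T3F
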