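import Pool.Agent.Lib.MP_7b7e48_nt.T3F.Def
import Pool.Agent.Lib.MP_7b7e48_nt.T3F.Smz
import Pool.Agent.Lib.MP_7b7e48_nt.T3F.Maj

/-!
# Module Apm (60 minutes): multiplicities in the two parts; the sum of `AP` as a sum over numbers

PROOFS. `s1_mult`: for a fixed pair `(a, t)` with `t ∣ a` the terms of `S1` with `q t n = a` are determined by the prime `q ∣ a`; `a ≤ J1 N ≤ N ^ 2` (`j1_N`) has at most `2 log (N ^ 2) = 4 log N` prime factors (`RG.omega_le_log`, or `card_dvd_le` in `RG/E3.lean`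
with `N ^ 2` for `N`, `Real.log (N ^ 2) = 2 log N`). `n ∈ NV (q t)`: `a = q t n ∈ (J2 N, J1 N]`, `Rgh1 a`. `s2_mult`: the terms with `m t n = a` are determined by the prime `n ∣ a`, and `wt y0 (some (cc χ)) n ≤ rr (cc χ) n = 1 + cc χ n ≤ 2` for a prime `n`.
`ap_split`: `sum_split` with `W a = [Rgh1 a] ∑_{t ∣ a} ∑_i AFt 1 a t (a.val + i N)`; the class of `x.val + j N` is `x`; `(1 : ZMod N) * x = x`; in `AP` non coprime numbers do not count.
-/

set_option autoImplicit false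

open Finset

namespace Pool.Agent.Lib.T3F

open Pool.Agent.Lib.TCF

open Pool.Agent.Lib.RG hiding RR sig Good
open Pool.Agent.Lib.RH
open Pool.Agent.Lib.MP_45349e_nt.LS (lam)

variable {P : Prm} {N : ℕ} [NeZero N] {D : Dat} {Lk : ℕ → ℕ → ℕ → ℕ → Prop} {Bd : ℕ → ℕ → Prop}
  {A : Finset (ZMod N)} {χ : DirichletCharacter ℂ N}

open Classical in
/-- the rough numbers of the range -/
noncomputable def RA (P : Prm) (N : ℕ) (D : Dat) : Finset ℕ :=
  (Ioc (D.J2 * N) (D.J1 * N)).filter fun a => Rgh1 P N a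

omit [NeZero N] in
/-- counting with a prime factor -/
private theorem Apm_fib {ι : Type*} (hP : P.Ok) (hn : NumX P N) (hD : D.Ok P N) (S : Finset ι) (f π : ι → ℕ)
    (R : Finset ℕ) (hRR : ∀ a ∈ R, a ∈ RA P N D) (hR : ∀ z ∈ S, f z ∈ R)
    (hp : ∀ z ∈ S, (π z).Prime ∧ π z ∣ f z)
    (hinj : ∀ z ∈ S, ∀ z' ∈ S, f z = f z' → π z = π z' → z = z') (g : ℕ → ℝ) (hg : ∀ a, 0 ≤ g a) :
    ∑ z ∈ S, g (f z) ≤ 4 * Real.log N * ∑ a ∈ R, g a := by
  classical
  rw [← sum_fiberwise_of_maps_to hR, mul_sum]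
  refine sum_le_sum fun a ha => ?_
  have h1 : ∑ z ∈ S.filter (fun z => f z = a), g (f z) = ((S.filter fun z => f z = a).card : ℝ) * g a := by
    rw [sum_congr rfl (fun z hz => by rw [(mem_filter.mp hz).2]), sum_const, nsmul_eq_mul]
  rw [h1]
  refine mul_le_mul_of_nonneg_right ?_ (hg a)
  have hL : ∀ l ∈ S.image π, l.Prime := by
    intro l hl
    obtain ⟨z, hz, rfl⟩ := mem_image.mp hl
    exact (hp z hz).1
  have h2 : (S.filter fun z => f z = a).card ≤ ((S.image π).filter fun l => l ∣ a).card := by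
    refine card_le_card_of_injOn π ?_ ?_
    · intro z hz
      rw [mem_coe, mem_filter] at hz
      rw [mem_coe, mem_filter]
      exact ⟨mem_image_of_mem _ hz.1, hz.2 ▸ (hp z hz.1).2⟩
    · intro z hz z' hz' h
      rw [mem_coe, mem_filter] at hz hz'
      exact hinj z hz.1 z' hz'.1 (hz.2.trans hz'.2.symm) h
  have ha' := hRR a ha
  unfold RA at ha'
  obtain ⟨h3, h4⟩ := mem_filter.mp ha'
  obtain ⟨h5, h6⟩ := mem_Ioc.mp h3
  have h7 : a ≤ N ^ 2 := h6.trans (j1_N hn hD hP)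
  have h8 := card_dvd_le (N ^ 2) (S.image π) hL a (by omega) h7
  have h9 : ((S.filter fun z => f z = a).card : ℝ) ≤ (((S.image π).filter fun l => l ∣ a).card : ℝ) := by
    exact_mod_cast h2
  refine h9.trans (h8.trans (le_of_eq ?_))
  push_cast
  rw [Real.log_pow]
  push_cast
  ring

omit [NeZero N] in
open Classical in
private theorem Apm_nv {v n : ℕ} (h : n ∈ NV P N D v) : v * n ∈ RA P N D := by
  unfold NV at h
  rw [mem_filter, mem_Icc] at h
  unfold RA
  rw [mem_filter, mem_Ioc]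
  refine ⟨⟨h.2.2, ?_⟩, h.2.1⟩
  calc v * n ≤ v * (D.J1 * N / v) := Nat.mul_le_mul_left _ h.1.2
    _ ≤ D.J1 * N := Nat.mul_div_le _ _

omit [NeZero N] in
private theorem Apm_pos (hn : NumX P N) {a : ℕ} (h : a ∈ RA P N D) : 0 < a := by
  classical
  unfold RA at h
  have h1 := (mem_Ioc.mp (mem_filter.mp h).1).1
  omega

open Classical in
omit [NeZero N] in
private theorem Apm_swap (G : ℕ → ℕ → ℝ) :
    ∑ t ∈ TUP D.BX, ∑ a ∈ (RA P N D).filter (fun a => t ∣ a), G t a =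
      ∑ a ∈ RA P N D, ∑ t ∈ (TUP D.BX).filter (fun t => t ∣ a), G t a := by
  simp only [sum_filter]
  rw [sum_comm]

open Classical in
theorem s1_mult (E : EnvX3 P N D Lk Bd A χ) (G : ℕ → ℕ → ℝ) (hG : ∀ t a, 0 ≤ G t a) :
    S1 P D χ G ≤ 4 * Real.log N * ∑ a ∈ RA P N D, ∑ t ∈ (TUP D.BX).filter (fun t => t ∣ a), G t a := by
  have hn := E.hyp.nx
  rw [← Apm_swap, mul_sum]
  unfold S1
  rw [sum_comm]
  refine sum_le_sum fun t ht => ?_
  rw [sum_sigma']
  refine Apm_fib E.hyp.hP hn E.hyp.ok ((QM P χ).sigma fun q => NV P N D (q * t))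
    (fun z => z.1 * t * z.2) (fun z => z.1) ((RA P N D).filter fun a => t ∣ a)
    (fun a ha => (mem_filter.mp ha).1) ?_ ?_ ?_ (fun a => G t a) (fun a => hG t a)
  · rintro ⟨q, n⟩ hz
    obtain ⟨-, h2⟩ := mem_sigma.mp hz
    rw [mem_filter]
    exact ⟨Apm_nv h2, (dvd_mul_left t q).mul_right n⟩
  · rintro ⟨q, n⟩ hz
    obtain ⟨h1, -⟩ := mem_sigma.mp hz
    refine ⟨?_, (dvd_mul_right q t).mul_right n⟩
    unfold QM QS at h1
    exact (mem_filter.mp (mem_filter.mp h1).1).2.1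
  · rintro ⟨q, n⟩ hz ⟨q', n'⟩ hz' h h'
    obtain ⟨-, h2⟩ := mem_sigma.mp hz
    have hpos := Apm_pos hn (Apm_nv h2)
    simp only at h h'
    subst h'
    have h3 : 0 < q * t := Nat.pos_of_mul_pos_right hpos
    rw [Nat.eq_of_mul_eq_mul_left h3 h]

open Classical in
theorem s2_mult (E : EnvX3 P N D Lk Bd A χ) (G : ℕ → ℕ → ℝ) (hG : ∀ t a, 0 ≤ G t a) :
    S2 P D χ G ≤ 8 * Real.log N * ∑ a ∈ RA P N D, ∑ t ∈ (TUP D.BX).filter (fun t => t ∣ a), G t a := by
  have hn := E.hyp.nx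
  have hrc : RC N (cc χ) := RC_char N (N_two hn) χ E.sq E.ne
  have hw : ∀ n : ℕ, n.Prime → wt D.y0 (some (cc χ)) n ≤ 2 := by
    intro n hp
    show (if Rough D.y0 n then rr (cc χ) n else 0) ≤ 2
    split_ifs
    · unfold rr
      rw [hp.divisors, sum_pair hp.one_lt.ne]
      have h1 : ∀ m, cc χ m ≤ 1 := by
        intro m
        by_cases hm : m.Coprime N
        · rcases hrc.val m hm with h | h <;> rw [h]
          norm_num
        · rw [hrc.zero m hm]
          norm_num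
      linarith [h1 1, h1 n]
    · norm_num
  rw [← Apm_swap]
  unfold S2
  rw [sum_comm, mul_sum]
  refine sum_le_sum fun t ht => ?_
  have h1 : ∑ m ∈ MV P N, ∑ n ∈ (NV P N D (m * t)).filter
      (fun n : ℕ => n.Prime ∧ (N : ℝ) ^ (1 - P.kap) < (n : ℝ)), wt D.y0 (some (cc χ)) n * G t (m * t * n) ≤
      2 * ∑ m ∈ MV P N, ∑ n ∈ (NV P N D (m * t)).filter
        (fun n : ℕ => n.Prime ∧ (N : ℝ) ^ (1 - P.kap) < (n : ℝ)), G t (m * t * n) := by
    rw [mul_sum]
    refine sum_le_sum fun m _ => ?_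
    rw [mul_sum]
    refine sum_le_sum fun n hnn => ?_
    exact mul_le_mul_of_nonneg_right (hw n (mem_filter.mp hnn).2.1) (hG _ _)
  refine h1.trans ?_
  have h2 : ∑ m ∈ MV P N, ∑ n ∈ (NV P N D (m * t)).filter
        (fun n : ℕ => n.Prime ∧ (N : ℝ) ^ (1 - P.kap) < (n : ℝ)), G t (m * t * n) ≤
      4 * Real.log N * ∑ a ∈ (RA P N D).filter (fun a => t ∣ a), G t a := by
    rw [sum_sigma']
    refine Apm_fib E.hyp.hP hn E.hyp.ok ((MV P N).sigma fun m => (NV P N D (m * t)).filter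
        (fun n : ℕ => n.Prime ∧ (N : ℝ) ^ (1 - P.kap) < (n : ℝ)))
      (fun z => z.1 * t * z.2) (fun z => z.2) ((RA P N D).filter fun a => t ∣ a)
      (fun a ha => (mem_filter.mp ha).1) ?_ ?_ ?_ (fun a => G t a) (fun a => hG t a)
    · rintro ⟨m, n⟩ hz
      obtain ⟨-, h2⟩ := mem_sigma.mp hz
      rw [mem_filter]
      exact ⟨Apm_nv (mem_filter.mp h2).1, (dvd_mul_left t m).mul_right n⟩
    · rintro ⟨m, n⟩ hz
      obtain ⟨-, h2⟩ := mem_sigma.mp hz
      exact ⟨(mem_filter.mp h2).2.1, dvd_mul_left _ _⟩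
    · rintro ⟨m, n⟩ hz ⟨m', n'⟩ hz' h h'
      obtain ⟨-, h2⟩ := mem_sigma.mp hz
      have hpos := Apm_pos hn (Apm_nv (mem_filter.mp h2).1)
      simp only at h h'
      subst h'
      have h3 : 0 < n := Nat.pos_of_mul_pos_left hpos
      have h4 := Nat.eq_of_mul_eq_mul_right h3 h
      have h5 : 0 < t := Nat.pos_of_mul_pos_left (Nat.pos_of_mul_pos_right hpos)
      have h6 := Nat.eq_of_mul_eq_mul_right h5 h4
      rw [h6]
  calc 2 * ∑ m ∈ MV P N, ∑ n ∈ (NV P N D (m * t)).filter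
        (fun n : ℕ => n.Prime ∧ (N : ℝ) ^ (1 - P.kap) < (n : ℝ)), G t (m * t * n)
      ≤ 2 * (4 * Real.log N * ∑ a ∈ (RA P N D).filter (fun a => t ∣ a), G t a) :=
        mul_le_mul_of_nonneg_left h2 (by norm_num)
    _ = _ := by ring

open Classical in
theorem ap_split (hn : NumX P N) :
    ∑ a ∈ RA P N D, ∑ t ∈ (TUP D.BX).filter (fun t => t ∣ a),
      ∑ i ∈ range D.J0, AFt P N D Lk Bd 1 a t (((a : ℕ) : ZMod N).val + i * N) =
      ∑ x : ZMod N, (if IsUnit x then AP P N D Lk Bd 1 x else 0) := by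
  set W : ℕ → ℝ := fun a => if Rgh1 P N a then ∑ t ∈ (TUP D.BX).filter (fun t => t ∣ a),
    ∑ i ∈ range D.J0, AFt P N D Lk Bd 1 a t (((a : ℕ) : ZMod N).val + i * N) else 0 with hW
  have h1 : ∑ a ∈ RA P N D, ∑ t ∈ (TUP D.BX).filter (fun t => t ∣ a),
      ∑ i ∈ range D.J0, AFt P N D Lk Bd 1 a t (((a : ℕ) : ZMod N).val + i * N) = ∑ a ∈ RA P N D, W a := by
    refine sum_congr rfl fun a ha => ?_
    unfold RA at ha
    rw [hW]
    simp only
    rw [if_pos (mem_filter.mp ha).2]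
  have h2 : ∑ a ∈ RA P N D, W a = ∑ a ∈ (Ioc (D.J2 * N) (D.J1 * N)).filter (fun a => a.Coprime N), W a := by
    refine sum_subset ?_ ?_
    · intro a ha
      unfold RA at ha
      obtain ⟨h3, h4⟩ := mem_filter.mp ha
      exact mem_filter.mpr ⟨h3, h4.1⟩
    · intro a ha ha'
      rw [hW]
      simp only
      rw [if_neg]
      intro h
      apply ha'
      unfold RA
      exact mem_filter.mpr ⟨(mem_filter.mp ha).1, h⟩
  rw [h1, h2, sum_split hn W, sum_filter]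
  refine sum_congr rfl fun x _ => ?_
  by_cases hx : IsUnit x
  · rw [if_pos hx, if_pos hx]
    unfold AP
    refine sum_congr rfl fun j _ => ?_
    have hcast : ((x.val + j * N : ℕ) : ZMod N) = x := by
      push_cast
      rw [ZMod.natCast_self, mul_zero, add_zero, ZMod.natCast_val, ZMod.cast_id', id]
    rw [hW]
    simp only
    rw [hcast, Nat.cast_one, one_mul]
  · rw [if_neg hx, if_neg hx]

end Pool.Agent.Lib.T3F
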