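import Pool.Agent.Lib.MP_7b7e48_nt.T3F.Def
import Pool.Agent.Lib.MP_7b7e48_nt.TCF.Def2

/-!
# Module M3s (75 minutes): sum of `NLt` over a measure

PROOF. Fix `t`, `n ∈ NV (v t)`, `a = v t n`, `J2 N < a ≤ J1 N`. With `k = a / N` (`J2 ≤ k < J1`: `a` is coprime to `N`, so `a ≠ J1 N`) the class representative is `a - k N`, so the `Y`-number is `a - k N + i N = a - d N` (natural
subtraction, `a ≥ d N`) with `d = k - i ≥ J2 - J0 > 0` (`i < J0`, `j0_le`). Fix `i` and `k`: `PairIn.m3` with this `d`, and the interval `k N < a ≤ (k + 1) N` (`d N ≤ k N`, `(k + 1) N ≤ J1 N`, `JJ ((k + 1) N - d N) = JJ (i + 1) N ≤ JJ J0 N ≤ d N`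
by `Dat.Ok.j02`); all `(t, n)` with `a / N = k` are counted there (`a ≠ k N` as `a` is coprime to `N`; `n ≤ a ≤ (k + 1) N`). Bound `(4 / JJ) rho rho (L / v) (N + N ^ (1 - kap / 8)) ≤ (8 / JJ) rho rho (L / v) N`. Sum over `i < J0`, `k < J1`.
-/

set_option autoImplicit false

open Finset

namespace Pool.Agent.Lib.T3F

open Pool.Agent.Lib.TCF

open Pool.Agent.Lib.RG hiding RR sig Good
open Pool.Agent.Lib.RH
open Pool.Agent.Lib.MP_45349e_nt.LS (lam)

variable {P : Prm} {N : ℕ} [NeZero N] {D : Dat} {Lk : ℕ → ℕ → ℕ → ℕ → Prop} {Bd : ℕ → ℕ → Prop}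
  {A : Finset (ZMod N)}

open Classical in
private theorem M3s_key (hn : NumX P N) (hD : D.Ok P N) {v : ℕ} {o : Option (ℕ → ℝ)} {L : ℝ}
    (hm : TM P N v o L) {t : ℕ} (ht : t ∈ TUP D.BX) :
    ∑ n ∈ NV P N D (v * t), wt D.y0 o n *
      ∑ i ∈ range D.J0, NLt P N D Lk Bd (v * t * n) t (((v * t * n : ℕ) : ZMod N).val + i * N) ≤
    ∑ i ∈ range D.J0, ∑ k ∈ Ico D.J2 D.J1, ∑ n ∈ (Icc 1 ((k + 1) * N)).filter
      (fun n => k * N < v * t * n ∧ v * t * n ≤ (k + 1) * N ∧ Rgh1 P N (v * t * n)),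
      wt D.y0 o n * NLt P N D Lk Bd (v * t * n) t (v * t * n - (k - i) * N) := by
  have hN2 := N_two hn
  have hv1 := hm.v1
  have ht1 := (tup_facts hD.fx ht).1
  have hvt : 0 < v * t := Nat.mul_pos (by omega) (by omega)
  have hJ02 : D.J0 ≤ D.J2 := by
    have h1 := j0_le hn hD
    have h2 := mm_one P N
    have h3 : D.J0 ≤ 8 * MM P N ^ 2 * D.J0 := Nat.le_mul_of_pos_left _ (by positivity)
    omega
  -- facts on the members of `NV`
  have hNV : ∀ n ∈ NV P N D (v * t), 1 ≤ n ∧ Rgh1 P N (v * t * n) ∧ D.J2 * N < v * t * n ∧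
      v * t * n / N ∈ Ico D.J2 D.J1 ∧ (v * t * n / N) * N < v * t * n ∧
      v * t * n < (v * t * n / N + 1) * N := by
    intro n hnv
    unfold NV at hnv
    rw [mem_filter, mem_Icc] at hnv
    obtain ⟨⟨h1, h2⟩, h3, h4⟩ := hnv
    have h5 : v * t * n ≤ D.J1 * N := by
      rw [Nat.le_div_iff_mul_le hvt] at h2
      rw [mul_comm]
      exact h2
    have h6 : ∀ k : ℕ, v * t * n ≠ k * N := by
      intro k hk
      have h7 : N ∣ Nat.gcd (v * t * n) N := Nat.dvd_gcd (hk ▸ Dvd.intro_left k rfl) (dvd_refl N)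
      have h8 : Nat.gcd (v * t * n) N = 1 := h3.1
      rw [h8] at h7
      have := Nat.le_of_dvd one_pos h7
      omega
    have h7 : v * t * n < D.J1 * N := lt_of_le_of_ne h5 (h6 _)
    refine ⟨h1, h3, h4, ?_, ?_, ?_⟩
    · rw [mem_Ico]
      refine ⟨?_, ?_⟩
      · rw [Nat.le_div_iff_mul_le (by omega)]
        exact h4.le
      · rw [Nat.div_lt_iff_lt_mul (by omega)]
        exact h7
    · exact lt_of_le_of_ne (Nat.div_mul_le_self _ _) (h6 _).symm
    · rw [mul_comm (v * t * n / N + 1) N]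
      exact Nat.lt_mul_div_succ _ (by omega)
  calc ∑ n ∈ NV P N D (v * t), wt D.y0 o n *
      ∑ i ∈ range D.J0, NLt P N D Lk Bd (v * t * n) t (((v * t * n : ℕ) : ZMod N).val + i * N)
      = ∑ i ∈ range D.J0, ∑ n ∈ NV P N D (v * t), wt D.y0 o n *
        NLt P N D Lk Bd (v * t * n) t (((v * t * n : ℕ) : ZMod N).val + i * N) := by
        rw [Finset.sum_comm]
        exact Finset.sum_congr rfl fun n _ => Finset.mul_sum _ _ _
    _ = ∑ i ∈ range D.J0, ∑ k ∈ Ico D.J2 D.J1,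
        ∑ n ∈ (NV P N D (v * t)).filter (fun n => v * t * n / N = k), wt D.y0 o n *
        NLt P N D Lk Bd (v * t * n) t (((v * t * n : ℕ) : ZMod N).val + i * N) := by
        refine Finset.sum_congr rfl fun i _ => ?_
        exact (Finset.sum_fiberwise_of_maps_to (fun n hnv => (hNV n hnv).2.2.2.1) _).symm
    _ ≤ _ := by
        refine Finset.sum_le_sum fun i hi => Finset.sum_le_sum fun k hk => ?_
        rw [mem_range] at hi
        rw [mem_Ico] at hk
        have hik : i ≤ k := by omega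
        calc ∑ n ∈ (NV P N D (v * t)).filter (fun n => v * t * n / N = k), wt D.y0 o n *
              NLt P N D Lk Bd (v * t * n) t (((v * t * n : ℕ) : ZMod N).val + i * N)
            = ∑ n ∈ (NV P N D (v * t)).filter (fun n => v * t * n / N = k), wt D.y0 o n *
              NLt P N D Lk Bd (v * t * n) t (v * t * n - (k - i) * N) := by
              refine Finset.sum_congr rfl fun n hnk => ?_
              rw [mem_filter] at hnk
              have h1 : (((v * t * n : ℕ) : ZMod N).val + i * N) = v * t * n - (k - i) * N := by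
                rw [ZMod.val_natCast]
                have h2 := Nat.mod_add_div (v * t * n) N
                rw [hnk.2] at h2
                have h3 : (k - i) * N + i * N = N * k := by
                  rw [← Nat.add_mul, Nat.sub_add_cancel hik, mul_comm]
                omega
              rw [h1]
          _ ≤ _ := by
              refine Finset.sum_le_sum_of_subset_of_nonneg ?_ fun n _ _ =>
                mul_nonneg (wt_nonneg hm _ _) (nlt_nonneg _ _ _ _ _ _ _ _)
              intro n hnk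
              rw [mem_filter] at hnk
              obtain ⟨h1, h2, h3, h4, h5, h6⟩ := hNV n hnk.1
              rw [hnk.2] at h5 h6
              have h7 : n ≤ v * t * n := Nat.le_mul_of_pos_left _ hvt
              rw [mem_filter, mem_Icc]
              exact ⟨⟨h1, by omega⟩, h5, h6.le, h2⟩

theorem m3s (hh : Hyp3 P N D Lk Bd A) {v : ℕ} {o : Option (ℕ → ℝ)} {L : ℝ} (hm : TM P N v o L) :
    ∑ t ∈ TUP D.BX, ∑ n ∈ NV P N D (v * t), wt D.y0 o n *
      ∑ i ∈ range D.J0, NLt P N D Lk Bd (v * t * n) t (((v * t * n : ℕ) : ZMod N).val + i * N) ≤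
      8 / JJ N * (D.J1 * rho D.BX) * (D.J0 * rho D.BY) * (L / v) * N := by
  classical
  have hn := hh.nx
  have hD := hh.ok
  have hP := hh.hP
  have hN2 := N_two hn
  have hNr : (1 : ℝ) ≤ N := by exact_mod_cast (by omega : 1 ≤ N)
  have hJJ1 := jj_one hn
  have hJJ : (0 : ℝ) < JJ N := by exact_mod_cast hJJ1
  have hL := tm_L_pos hn hm
  have hMX := mr_pos_X hn hD
  have hMY := mr_pos_Y hn hD
  have hv1 := hm.v1
  have hvr : (0 : ℝ) < v := by exact_mod_cast hv1
  have hKK := hK hn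
  have hρX : 0 ≤ rho D.BX := (rho_pos hD.fx (by linarith)).le
  have hρY : 0 ≤ rho D.BY := (rho_pos hD.fy (by linarith)).le
  have hJ02 : JJ N * D.J0 ≤ D.J2 - D.J0 ∧ D.J0 ≤ D.J2 := by
    have h1 := hD.j02
    have h2 := mm_one P N
    have h3 : 8 * (JJ N * D.J0) ≤ 8 * JJ N * MM P N ^ 2 * D.J0 := by
      have h4 : 1 ≤ MM P N ^ 2 := Nat.one_le_pow _ _ (by omega)
      calc 8 * (JJ N * D.J0) = 8 * JJ N * 1 * D.J0 := by ring
        _ ≤ _ := by gcongr
    have h5 : D.J0 ≤ JJ N * D.J0 := Nat.le_mul_of_pos_left _ (by omega)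
    omega
  refine (Finset.sum_le_sum fun t ht => M3s_key hn hD hm ht).trans ?_
  rw [Finset.sum_comm]
  have hB : ∀ i ∈ range D.J0, ∀ k ∈ Ico D.J2 D.J1,
      ∑ t ∈ TUP D.BX, ∑ n ∈ (Icc 1 ((k + 1) * N)).filter
        (fun n => k * N < v * t * n ∧ v * t * n ≤ (k + 1) * N ∧ Rgh1 P N (v * t * n)),
        wt D.y0 o n * NLt P N D Lk Bd (v * t * n) t (v * t * n - (k - i) * N) ≤
      8 / JJ N * (rho D.BX * rho D.BY * (L / v) * N) := by
    intro i hi k hk
    rw [mem_range] at hi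
    rw [mem_Ico] at hk
    have h1 := hh.pin.m3 v o L hm (k - i) (k * N) ((k + 1) * N) (by omega)
      (Nat.mul_le_mul_right _ (by omega)) (Nat.mul_le_mul_right _ (by omega))
      (Nat.mul_le_mul_right _ (by omega)) (by
        have h2 : (k + 1) * N - (k - i) * N = (i + 1) * N := by
          rw [← Nat.sub_mul]
          congr 1
          omega
        rw [h2, ← mul_assoc]
        refine Nat.mul_le_mul_right _ ?_
        have h3 : JJ N * (i + 1) ≤ JJ N * D.J0 := Nat.mul_le_mul_left _ (by omega)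
        omega)
    refine h1.trans ?_
    have h2 : (((k + 1) * N : ℕ) : ℝ) - ((k * N : ℕ) : ℝ) + (N : ℝ) ^ (1 - P.kap / 8) ≤ 2 * N := by
      have h3 : (N : ℝ) ^ (1 - P.kap / 8) ≤ (N : ℝ) ^ (1 : ℝ) :=
        Real.rpow_le_rpow_of_exponent_le hNr (by have := hP.kap0; linarith)
      rw [Real.rpow_one] at h3
      push_cast
      linarith
    have h3 : 0 ≤ rho D.BX * rho D.BY * (L / v) := by positivity
    calc 4 / (JJ N : ℝ) * (rho D.BX * rho D.BY * (L / v) *
          ((((k + 1) * N : ℕ) : ℝ) - ((k * N : ℕ) : ℝ) + (N : ℝ) ^ (1 - P.kap / 8)))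
        ≤ 4 / (JJ N : ℝ) * (rho D.BX * rho D.BY * (L / v) * (2 * N)) := by gcongr
      _ = _ := by ring
  calc ∑ i ∈ range D.J0, ∑ t ∈ TUP D.BX, ∑ k ∈ Ico D.J2 D.J1, ∑ n ∈ (Icc 1 ((k + 1) * N)).filter
        (fun n => k * N < v * t * n ∧ v * t * n ≤ (k + 1) * N ∧ Rgh1 P N (v * t * n)),
        wt D.y0 o n * NLt P N D Lk Bd (v * t * n) t (v * t * n - (k - i) * N)
      ≤ ∑ i ∈ range D.J0, ∑ k ∈ Ico D.J2 D.J1, 8 / JJ N * (rho D.BX * rho D.BY * (L / v) * N) := by
        refine Finset.sum_le_sum fun i hi => ?_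
        rw [Finset.sum_comm]
        exact Finset.sum_le_sum fun k hk => hB i hi k hk
    _ = (D.J0 : ℝ) * (((D.J1 - D.J2 : ℕ) : ℝ) * (8 / JJ N * (rho D.BX * rho D.BY * (L / v) * N))) := by
        rw [Finset.sum_const, Finset.sum_const, card_range, Nat.card_Ico, nsmul_eq_mul, nsmul_eq_mul]
    _ ≤ (D.J0 : ℝ) * ((D.J1 : ℝ) * (8 / JJ N * (rho D.BX * rho D.BY * (L / v) * N))) := by
        have h1 : ((D.J1 - D.J2 : ℕ) : ℝ) ≤ D.J1 := by exact_mod_cast Nat.sub_le _ _
        gcongr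
    _ = _ := by ring

end Pool.Agent.Lib.T3F
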