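import Pool.Agent.Lib.MP_7b7e48_nt.T3F.Def
import Pool.Agent.Lib.MP_7b7e48_nt.T3F.Smz
import Pool.Agent.Lib.MP_7b7e48_nt.T3F.M3s
import Pool.Agent.Lib.MP_7b7e48_nt.T3F.Maj
import Pool.Agent.Lib.MP_7b7e48_nt.T3F.Apm

/-!
# Module Sml (75 minutes): numbers whose `lam` is not the majority sign, in the two parts

`K = log N`, `M = J1 rho_X`, `M' = J0 rho_Y`, `σ = sgm`. PROOF. `Lf a` : the class `x` of `a` satisfies `Typ 1 x`, `x ∉ A` and `lam a ≠ FF x`. If `Lf a`, `a ∈ (J2 N, J1 N]` rough and coprime to `N` and `t ∈ TUP`, `t ∣ a`: `a = x.val + j N` with `J2 ≤ j < J1`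
(`j = a / N`), so `maj3` and `Typ.y1` give `1 ≤ (4 / 3) (K ^ 2 / M') ∑_i (NLt + AFt) a t (x.val + i N)`. The first sum is bounded by `m3s`, the second one by `s1_mult`, `s2_mult`, `ap_split` and `EnvX.ap`: `S1, S2 ≤ 8 K σ N M M' / JJ ^ 2`.
-/

set_option autoImplicit false

open Finset

namespace Pool.Agent.Lib.T3F

open Pool.Agent.Lib.TCF

open Pool.Agent.Lib.RG hiding RR sig Good
open Pool.Agent.Lib.RH
open Pool.Agent.Lib.MP_45349e_nt.LS (lam)

variable {P : Prm} {N : ℕ} [NeZero N] {D : Dat} {Lk : ℕ → ℕ → ℕ → ℕ → Prop} {Bd : ℕ → ℕ → Prop}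
  {A : Finset (ZMod N)} {χ : DirichletCharacter ℂ N}

open Classical in
/-- `lam a` is not the majority sign of a typical class -/
def Lf (P : Prm) (N : ℕ) [NeZero N] (D : Dat) (Lk : ℕ → ℕ → ℕ → ℕ → Prop) (Bd : ℕ → ℕ → Prop)
    (A : Finset (ZMod N)) (a : ℕ) : Prop :=
  Typ P N D Lk Bd 1 ((a : ℕ) : ZMod N) ∧ ((a : ℕ) : ZMod N) ∉ A ∧ lam a ≠ FF P N D ((a : ℕ) : ZMod N)

omit [NeZero N] in
private theorem sml_nlt (X t Y : ℕ) : 0 ≤ NLt P N D Lk Bd X t Y := by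
  unfold NLt
  split_ifs
  · exact Nat.cast_nonneg _
  · exact le_rfl

/-- the exceptional weight of a number with a tuple -/
private noncomputable def smlE (P : Prm) (N : ℕ) [NeZero N] (D : Dat) (Lk : ℕ → ℕ → ℕ → ℕ → Prop)
    (Bd : ℕ → ℕ → Prop) (t a : ℕ) : ℝ :=
  ∑ i ∈ range D.J0, AFt P N D Lk Bd 1 a t (((a : ℕ) : ZMod N).val + i * N)

private theorem smlE_nonneg (t a : ℕ) : 0 ≤ smlE P N D Lk Bd t a :=
  sum_nonneg fun i _ => aft_nonneg _ _ _ _ _ _ _ _ _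

open Classical in
private theorem sml_key (hh : Hyp3 P N D Lk Bd A) {a t : ℕ} (hr : Rgh1 P N a) (ht : t ∈ TUP D.BX) :
    (if Lf P N D Lk Bd A a then (1 : ℝ) else 0) ≤
      4 / 3 * ((Real.log N) ^ 2 / (D.J0 * rho D.BY)) *
        (∑ i ∈ range D.J0, NLt P N D Lk Bd a t (((a : ℕ) : ZMod N).val + i * N) +
          smlE P N D Lk Bd t a) := by
  have hn := hh.nx
  have hD := hh.ok
  have hK := hK hn
  have hM := mr_pos_Y hn hD
  have hK0 : (0 : ℝ) < Real.log N := by linarith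
  have hs : 0 ≤ ∑ i ∈ range D.J0, NLt P N D Lk Bd a t (((a : ℕ) : ZMod N).val + i * N) :=
    sum_nonneg fun i _ => sml_nlt _ _ _
  have hs' : 0 ≤ smlE P N D Lk Bd t a := smlE_nonneg t a
  split_ifs with hL
  · obtain ⟨h1, h2, h3⟩ := hL
    have h7 := maj3 hh (l := 1) (t := t) (unit_of_cop hr.1) h2 h1 ht h3
    rw [sum_add_distrib] at h7
    have h8 := h1.y1
    have h9 : (1 : ℝ) = (Real.log N) ^ 2 / (D.J0 * rho D.BY) * (D.J0 * rho D.BY / (Real.log N) ^ 2) := by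
      have hne := hM.ne'
      generalize (D.J0 : ℝ) * rho D.BY = My at hne ⊢
      field_simp
    have h10 : (0 : ℝ) ≤ (Real.log N) ^ 2 / (D.J0 * rho D.BY) := by positivity
    calc (1 : ℝ) = (Real.log N) ^ 2 / (D.J0 * rho D.BY) * (D.J0 * rho D.BY / (Real.log N) ^ 2) := h9
      _ ≤ (Real.log N) ^ 2 / (D.J0 * rho D.BY) * PY P N D ((a : ℕ) : ZMod N) :=
          mul_le_mul_of_nonneg_left h8 h10
      _ ≤ (Real.log N) ^ 2 / (D.J0 * rho D.BY) * (4 / 3 * (∑ i ∈ range D.J0,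
            NLt P N D Lk Bd a t (((a : ℕ) : ZMod N).val + i * N) + smlE P N D Lk Bd t a)) := by
          refine mul_le_mul_of_nonneg_left ?_ h10
          have h11 : smlE P N D Lk Bd t a =
            ∑ i ∈ range D.J0, AFt P N D Lk Bd 1 a t (((a : ℕ) : ZMod N).val + i * N) := rfl
          linarith
      _ = _ := by ring
  · positivity

omit [NeZero N] in
open Classical in
private theorem sml_nv {v n : ℕ} (h : n ∈ NV P N D v) : D.J2 * N < v * n ∧ v * n ≤ D.J1 * N ∧ Rgh1 P N (v * n) := by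
  unfold NV at h
  rw [mem_filter, mem_Icc] at h
  refine ⟨h.2.2, ?_, h.2.1⟩
  calc v * n ≤ v * (D.J1 * N / v) := Nat.mul_le_mul_left _ h.1.2
    _ ≤ D.J1 * N := Nat.mul_div_le _ _

open Classical in
private theorem sml_exc (E : EnvX3 P N D Lk Bd A χ) :
    ∑ a ∈ RA P N D, ∑ t ∈ (TUP D.BX).filter (fun t => t ∣ a), smlE P N D Lk Bd t a ≤
      sgm P χ * N * ((D.J1 * rho D.BX) * (D.J0 * rho D.BY)) / (JJ N : ℝ) ^ 2 := by
  unfold smlE
  rw [ap_split E.hyp.nx]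
  exact E.ap

private theorem sml_num {K J M M' s n x a b : ℝ} (hK : (10 : ℝ) ^ 9 ≤ K) (hJ : 1 ≤ J) (hM : 0 < M)
    (hM' : 0 < M') (hs : 0 ≤ s) (hn : 0 ≤ n)
    (hx : x ≤ 4 / 3 * (K ^ 2 / M') * (a + b)) (ha : a ≤ 16 * K ^ 4 * (1 / J * M * M' * s * n))
    (hb : b ≤ 8 * K * (s * n * (M * M') / J ^ 2)) : x ≤ K ^ 20 / J * M * s * n := by
  have hK0 : 0 < K := lt_of_lt_of_le (by norm_num) hK
  have hJ0 : 0 < J := by linarith
  have h1 : b ≤ 8 * K * (1 / J * M * M' * s * n) := by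
    refine hb.trans (mul_le_mul_of_nonneg_left ?_ (by positivity))
    have h2 : s * n * (M * M') / J ^ 2 = (1 / J * M * M' * s * n) * (1 / J) := by
      field_simp
    rw [h2]
    refine mul_le_of_le_one_right (by positivity) ?_
    rw [div_le_one hJ0]
    exact hJ
  have h2 : 0 ≤ 1 / J * M * s * n := by positivity
  calc x ≤ 4 / 3 * (K ^ 2 / M') * (16 * K ^ 4 * (1 / J * M * M' * s * n) + 8 * K * (1 / J * M * M' * s * n)) :=
        hx.trans (mul_le_mul_of_nonneg_left (add_le_add ha h1) (by positivity))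
    _ = (4 / 3 * K ^ 2 * (16 * K ^ 4 + 8 * K)) * (1 / J * M * s * n) := by
        field_simp
    _ ≤ K ^ 20 * (1 / J * M * s * n) := by
        refine mul_le_mul_of_nonneg_right ?_ h2
        have h3 : K ≤ K ^ 4 := by
          calc K = K ^ 1 := (pow_one K).symm
            _ ≤ K ^ 4 := pow_le_pow_right₀ (by linarith) (by norm_num)
        have h4 : 4 / 3 * K ^ 2 * (16 * K ^ 4 + 8 * K) ≤ 32 * K ^ 6 := by
          have h5 : 4 / 3 * K ^ 2 * (16 * K ^ 4 + 8 * K) ≤ 4 / 3 * K ^ 2 * (16 * K ^ 4 + 8 * K ^ 4) :=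
            mul_le_mul_of_nonneg_left (by linarith) (by positivity)
          calc _ ≤ 4 / 3 * K ^ 2 * (16 * K ^ 4 + 8 * K ^ 4) := h5
            _ = 32 * K ^ 6 := by ring
        refine h4.trans ?_
        calc 32 * K ^ 6 ≤ K * K ^ 6 := mul_le_mul_of_nonneg_right (by linarith) (by positivity)
          _ = K ^ 7 := by ring
          _ ≤ K ^ 20 := pow_le_pow_right₀ (by linarith) (by norm_num)
    _ = _ := by ring

open Classical in
theorem lf1 (E : EnvX3 P N D Lk Bd A χ) :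
    S1 P D χ (fun _ a => if Lf P N D Lk Bd A a then 1 else 0) ≤
      (Real.log N) ^ 20 / JJ N * (D.J1 * rho D.BX) * sgm P χ * N := by
  have hn := E.hyp.nx
  have hD := E.hyp.ok
  have hK := hK hn
  have hMY := mr_pos_Y hn hD
  have hMX := mr_pos_X hn hD
  have hσ := sgm_pos E
  have hJ : (1 : ℝ) ≤ JJ N := by exact_mod_cast jj_one hn
  have hK0 : (0 : ℝ) < Real.log N := by linarith
  have hJ0 : (0 : ℝ) < JJ N := by linarith
  have hN0 : (0 : ℝ) ≤ N := Nat.cast_nonneg N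
  have h1 : S1 P D χ (fun t a => ∑ i ∈ range D.J0, NLt P N D Lk Bd a t (((a : ℕ) : ZMod N).val + i * N)) ≤
      16 * (Real.log N) ^ 4 * (1 / JJ N * (D.J1 * rho D.BX) * (D.J0 * rho D.BY) * sgm P χ * N) := by
    have h2 : ∀ q ∈ QM P χ, ∑ t ∈ TUP D.BX, ∑ n ∈ NV P N D (q * t),
        ∑ i ∈ range D.J0, NLt P N D Lk Bd (q * t * n) t (((q * t * n : ℕ) : ZMod N).val + i * N) ≤
        8 / JJ N * (D.J1 * rho D.BX) * (D.J0 * rho D.BY) * (1 / (q : ℝ)) * N := by
      intro q hq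
      refine le_trans ?_ (m3s E.hyp (tm_q0 E hq))
      refine sum_le_sum fun t ht => sum_le_sum fun n hnn => ?_
      have h6 : wt D.y0 none n = 1 := rfl
      rw [h6, one_mul]
    calc S1 P D χ (fun t a => ∑ i ∈ range D.J0, NLt P N D Lk Bd a t (((a : ℕ) : ZMod N).val + i * N))
        ≤ ∑ q ∈ QM P χ, 8 / JJ N * (D.J1 * rho D.BX) * (D.J0 * rho D.BY) * (1 / (q : ℝ)) * N := by
          unfold S1
          exact sum_le_sum h2
      _ = 8 * (1 / JJ N * (D.J1 * rho D.BX) * (D.J0 * rho D.BY) * sgm P χ * N) := by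
          unfold sgm
          rw [mul_sum, sum_mul, mul_sum]
          exact sum_congr rfl fun q _ => by ring
      _ ≤ 16 * (Real.log N) ^ 4 * (1 / JJ N * (D.J1 * rho D.BX) * (D.J0 * rho D.BY) * sgm P χ * N) := by
          refine mul_le_mul_of_nonneg_right ?_ (by positivity)
          have h7 : (1 : ℝ) ≤ (Real.log N) ^ 4 := one_le_pow₀ (by linarith)
          linarith
  have h2 : S1 P D χ (smlE P N D Lk Bd) ≤ 8 * Real.log N *
      (sgm P χ * N * ((D.J1 * rho D.BX) * (D.J0 * rho D.BY)) / (JJ N : ℝ) ^ 2) := by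
    refine (s1_mult E _ smlE_nonneg).trans ?_
    have h3 := sml_exc E
    have h4 : 0 ≤ sgm P χ * N * ((D.J1 * rho D.BX) * (D.J0 * rho D.BY)) / (JJ N : ℝ) ^ 2 := by positivity
    calc _ ≤ 4 * Real.log N * (sgm P χ * N * ((D.J1 * rho D.BX) * (D.J0 * rho D.BY)) / (JJ N : ℝ) ^ 2) :=
          mul_le_mul_of_nonneg_left h3 (by positivity)
      _ ≤ _ := mul_le_mul_of_nonneg_right (by linarith) h4
  refine sml_num hK hJ hMX hMY hσ.le hN0 ?_ h1 h2
  rw [← show S1 P D χ (fun t a => ∑ i ∈ range D.J0,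
      NLt P N D Lk Bd a t (((a : ℕ) : ZMod N).val + i * N) + smlE P N D Lk Bd t a) =
      S1 P D χ (fun t a => ∑ i ∈ range D.J0, NLt P N D Lk Bd a t (((a : ℕ) : ZMod N).val + i * N)) +
        S1 P D χ (smlE P N D Lk Bd) by unfold S1; simp only [sum_add_distrib]]
  unfold S1
  rw [mul_sum]
  refine sum_le_sum fun q hq => ?_
  rw [mul_sum]
  refine sum_le_sum fun t ht => ?_
  rw [mul_sum]
  refine sum_le_sum fun n hnn => ?_
  obtain ⟨h2, h3, h4⟩ := sml_nv hnn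
  exact sml_key E.hyp h4 ht

open Classical in
theorem lf2 (E : EnvX3 P N D Lk Bd A χ) :
    S2 P D χ (fun _ a => if Lf P N D Lk Bd A a then 1 else 0) ≤
      (Real.log N) ^ 20 / JJ N * (D.J1 * rho D.BX) * sgm P χ * N := by
  obtain ⟨L, hL, hL1, hL2⟩ := E.lv
  have hL' : LV N (cc χ) L := hL
  have hn := E.hyp.nx
  have hD := E.hyp.ok
  have hK := hK hn
  have hMY := mr_pos_Y hn hD
  have hMX := mr_pos_X hn hD
  have hσ := sgm_pos E
  have hJ : (1 : ℝ) ≤ JJ N := by exact_mod_cast jj_one hn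
  have hK0 : (0 : ℝ) < Real.log N := by linarith
  have hJ0 : (0 : ℝ) < JJ N := by linarith
  have hN0 : (0 : ℝ) ≤ N := Nat.cast_nonneg N
  have hLp : 0 ≤ L := le_trans (Real.rpow_nonneg hN0 _) hL1
  have h1 : S2 P D χ (fun t a => ∑ i ∈ range D.J0, NLt P N D Lk Bd a t (((a : ℕ) : ZMod N).val + i * N)) ≤
      16 * (Real.log N) ^ 4 * (1 / JJ N * (D.J1 * rho D.BX) * (D.J0 * rho D.BY) * sgm P χ * N) := by
    have h2 : ∀ m ∈ MV P N, ∑ t ∈ TUP D.BX, ∑ n ∈ (NV P N D (m * t)).filter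
          (fun n : ℕ => n.Prime ∧ (N : ℝ) ^ (1 - P.kap) < (n : ℝ)), wt D.y0 (some (cc χ)) n *
        ∑ i ∈ range D.J0, NLt P N D Lk Bd (m * t * n) t (((m * t * n : ℕ) : ZMod N).val + i * N) ≤
        8 / JJ N * (D.J1 * rho D.BX) * (D.J0 * rho D.BY) * (L / (m : ℝ)) * N := by
      intro m hm
      have htm := tm_m0 E hL' hL1 hm
      refine le_trans ?_ (m3s E.hyp htm)
      refine sum_le_sum fun t ht => ?_
      exact sum_le_sum_of_subset_of_nonneg (filter_subset _ _) fun n _ _ =>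
        mul_nonneg (wt_nonneg htm _ _) (sum_nonneg fun i _ => sml_nlt _ _ _)
    have h8 := mv_sum0 E
    calc S2 P D χ (fun t a => ∑ i ∈ range D.J0, NLt P N D Lk Bd a t (((a : ℕ) : ZMod N).val + i * N))
        ≤ ∑ m ∈ MV P N, 8 / JJ N * (D.J1 * rho D.BX) * (D.J0 * rho D.BY) * (L / (m : ℝ)) * N := by
          unfold S2
          exact sum_le_sum h2
      _ = (8 / JJ N * (D.J1 * rho D.BX) * (D.J0 * rho D.BY) * N) * L * ∑ m ∈ MV P N, 1 / (m : ℝ) := by
          rw [mul_sum]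
          exact sum_congr rfl fun q _ => by ring
      _ ≤ (8 / JJ N * (D.J1 * rho D.BX) * (D.J0 * rho D.BY) * N) * L * (2 * Real.log N) :=
          mul_le_mul_of_nonneg_left h8 (by positivity)
      _ = 16 * Real.log N * (1 / JJ N * (D.J1 * rho D.BX) * (D.J0 * rho D.BY) * N) * L := by ring
      _ ≤ 16 * Real.log N * (1 / JJ N * (D.J1 * rho D.BX) * (D.J0 * rho D.BY) * N) *
            ((Real.log N) ^ 3 * sgm P χ) := mul_le_mul_of_nonneg_left hL2 (by positivity)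
      _ = _ := by ring
  have h2 : S2 P D χ (smlE P N D Lk Bd) ≤ 8 * Real.log N *
      (sgm P χ * N * ((D.J1 * rho D.BX) * (D.J0 * rho D.BY)) / (JJ N : ℝ) ^ 2) := by
    refine (s2_mult E _ smlE_nonneg).trans ?_
    exact mul_le_mul_of_nonneg_left (sml_exc E) (by positivity)
  refine sml_num hK hJ hMX hMY hσ.le hN0 ?_ h1 h2
  rw [← show S2 P D χ (fun t a => ∑ i ∈ range D.J0,
      NLt P N D Lk Bd a t (((a : ℕ) : ZMod N).val + i * N) + smlE P N D Lk Bd t a) =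
      S2 P D χ (fun t a => ∑ i ∈ range D.J0, NLt P N D Lk Bd a t (((a : ℕ) : ZMod N).val + i * N)) +
        S2 P D χ (smlE P N D Lk Bd) by unfold S2; simp only [mul_add, sum_add_distrib]]
  unfold S2
  rw [mul_sum]
  refine sum_le_sum fun m hm => ?_
  have htm := tm_m0 E hL' hL1 hm
  rw [mul_sum]
  refine sum_le_sum fun t ht => ?_
  rw [mul_sum]
  refine sum_le_sum fun n hnn => ?_
  obtain ⟨h2, h3, h4⟩ := sml_nv (mem_filter.1 hnn).1
  have h5 := sml_key E.hyp h4 ht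
  have h6 := mul_le_mul_of_nonneg_left h5 (wt_nonneg htm D.y0 n)
  refine h6.trans (le_of_eq ?_)
  ring

end Pool.Agent.Lib.T3F
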