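import Pool.Agent.Lib.MP_7b7e48_nt.T3F.Def
import Pool.Agent.Lib.MP_7b7e48_nt.T3F.Smb
import Pool.Agent.Lib.MP_7b7e48_nt.T3F.Sml
import Pool.Agent.Lib.MP_7b7e48_nt.RG.TRI
import Pool.Agent.Lib.MP_7b7e48_nt.TCF.Usl0

/-!
# Module Lbm (120 minutes): lower bound for `|ZX|`

`K = log N`, `M = J1 rho_X`, `σ = sgm`. PROOF. Triples `(q, t, n)`: `q ∈ QM`, `t ∈ TUP BX`, `n ∈ T3 P χ y`, `y = J1 N / (q t)`, `a = q t n < J1 N`. `y ≤ N` (`t > y0 ≥ 2 J1`), `y ≥ J1 N / (N ^ (1 - kap) N ^ (kap / 100)) - 1 ≥ N ^ (kap / 2)`, so by `tri` there are `≥ y / K ^ 5 ≥ J1 N / (2 q t K ^ 5)`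
numbers `n`, together `≥ σ M N / (2 K ^ 5)` triples (`qm_sum`). `a` is coprime to `N` and rough, `lam a = - χ a`: `lam q = -1 = - χ q`, `lam t = χ t` (`fx`), `lam n = -1 = χ n`, so `DA χ a` (`χ a ≠ 0`). Remove the triples with
(i) `a ≤ J2 N`: at most `∑ J2 N / (q t) ≤ σ M N / JJ`; (ii) `¬ GD a`: `Cnt.c3` (`q` prime, `t`, interval `Ioc 0 y`; `n` coprime to `N`): at most `∑ 2 J1 N / (q t JJ) = 2 σ M N / JJ`; (iii) `¬ Typ 1 a`: at most `bad1` (`l = 1`; the `n` are in `NV (q t)`); (iv) `Lf a`: `lf1`;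
(v) the class is in `A`, `GD a`: a number `a` belongs to at most `4 K ph a` triples (`q` a prime factor of `a ≤ N ^ 2`: at most `4 K`; `t ∣ a` a tuple), so at most `4 K ∑_{x ∈ A, GD} PT x ≤ 12 K M |A| ≤ 12 K σ M N / JJ ^ 2` (`EnvX.ac`; as in `sum_ag`).
At least `σ M N / (3 K ^ 5)` triples remain; for them `lam a = FF a` (not `Lf`), so `FF a = lam a = - χ a`, `PX ≥ M / K ^ 2` (`Typ.x2`): the class of `a` is in `ZX` and satisfies `GD`. As in (v) their number is `≤ 4 K ∑_{x ∈ ZX, GD} PT x ≤ 12 K M |ZX|` (`sum_ag` with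
`W` = indicator of `ZX`, times `4 K`). So `|ZX| ≥ σ N / (36 K ^ 6) ≥ σ N / K ^ 20`.
-/

set_option autoImplicit false

open Finset

namespace Pool.Agent.Lib.T3F

open Pool.Agent.Lib.TCF

open Pool.Agent.Lib.RG hiding RR sig Good
open Pool.Agent.Lib.RH
open Pool.Agent.Lib.MP_45349e_nt.LS (lam)

variable {P : Prm} {N : ℕ} [NeZero N] {D : Dat} {Lk : ℕ → ℕ → ℕ → ℕ → Prop} {Bd : ℕ → ℕ → Prop}
  {A : Finset (ZMod N)} {χ : DirichletCharacter ℂ N}

private theorem Lbm_cop {p : ℕ} (h : χ (p : ZMod N) = 1 ∨ χ (p : ZMod N) = -1) : p.Coprime N := by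
  by_contra hc
  have h0 : ¬ IsUnit (p : ZMod N) := fun hu => hc ((ZMod.isUnit_iff_coprime p N).1 hu)
  rw [χ.map_nonunit h0] at h
  rcases h with h | h
  · exact zero_ne_one h
  · rw [eq_comm, neg_eq_zero] at h
    exact one_ne_zero h

private theorem Lbm_q {q : ℕ} (hq : q ∈ QM P χ) :
    q.Prime ∧ MM P N < q ∧ χ (q : ZMod N) = 1 ∧ (q : ℝ) ≤ (N : ℝ) ^ (1 - P.kap) := by
  unfold QM QS at hq
  rw [mem_filter, mem_filter] at hq
  exact ⟨hq.1.2.1, hq.1.2.2.1, hq.1.2.2.2, hq.2⟩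

private theorem Lbm_six {α : Type*} (S F1 F2 F3 F4 F5 F6 : Finset α)
    (h : ∀ n ∈ S, n ∈ F1 ∨ n ∈ F2 ∨ n ∈ F3 ∨ n ∈ F4 ∨ n ∈ F5 ∨ n ∈ F6) :
    (S.card : ℝ) ≤ F1.card + F2.card + F3.card + F4.card + F5.card + F6.card := by
  classical
  have h1 : S ⊆ F1 ∪ (F2 ∪ (F3 ∪ (F4 ∪ (F5 ∪ F6)))) := by
    intro n hn
    simp only [mem_union]
    exact h n hn
  have h2 := card_le_card h1
  have h3 := card_union_le F1 (F2 ∪ (F3 ∪ (F4 ∪ (F5 ∪ F6))))
  have h4 := card_union_le F2 (F3 ∪ (F4 ∪ (F5 ∪ F6)))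
  have h5 := card_union_le F3 (F4 ∪ (F5 ∪ F6))
  have h6 := card_union_le F4 (F5 ∪ F6)
  have h7 := card_union_le F5 F6
  have h8 : S.card ≤ F1.card + F2.card + F3.card + F4.card + F5.card + F6.card := by omega
  exact_mod_cast h8

private theorem Lbm_fac {a : ℕ} (ha : 0 < a) (haN : a ≤ N ^ 2) (hK : 0 < Real.log N) :
    (a.primeFactors.card : ℝ) ≤ 4 * Real.log N := by
  have h1 : 2 ^ a.primeFactors.card ≤ a := by
    calc 2 ^ a.primeFactors.card ≤ ∏ p ∈ a.primeFactors, p :=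
          pow_card_le_prod _ _ _ fun p hp => (Nat.prime_of_mem_primeFactors hp).two_le
      _ ≤ a := Nat.le_of_dvd ha (Nat.prod_primeFactors_dvd a)
  have h2 : (2 : ℝ) ^ a.primeFactors.card ≤ (N : ℝ) ^ 2 := by exact_mod_cast h1.trans haN
  have h3 := Real.log_le_log (by positivity) h2
  rw [Real.log_pow, Real.log_pow] at h3
  have h4 := Real.log_two_gt_d9
  have h5 : (a.primeFactors.card : ℝ) * (1 / 2) ≤ (a.primeFactors.card : ℝ) * Real.log 2 :=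
    mul_le_mul_of_nonneg_left (by linarith) (Nat.cast_nonneg _)
  push_cast at h3
  linarith

/-- sizes of the cofactors -/
private theorem Lbm_y (hP : P.Ok) (E : EnvX3 P N D Lk Bd A χ) {q t : ℕ} (hq : q ∈ QM P χ) (ht : t ∈ TUP D.BX) :
    (N : ℝ) ^ (P.kap / 2) ≤ ((D.J1 * N / (q * t) : ℕ) : ℝ) ∧ D.J1 * N / (q * t) ≤ N ∧
      (D.J1 * N : ℝ) / (2 * ((q * t : ℕ) : ℝ)) ≤ ((D.J1 * N / (q * t) : ℕ) : ℝ) := by
  have hn := E.hyp.nx
  have hD := E.hyp.ok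
  have hN0 : (0 : ℝ) < N := by exact_mod_cast Nat.pos_of_ne_zero (NeZero.ne N)
  have hN1 : (1 : ℝ) ≤ N := by exact_mod_cast Nat.pos_of_ne_zero (NeZero.ne N)
  have hK : (1 : ℝ) ≤ Real.log N := le_trans (by norm_num) hn.num.K
  obtain ⟨q1, q2, q3, q4⟩ := Lbm_q hq
  obtain ⟨t1, t2, t3, t4, t5, t6, t7⟩ := tup_facts hD.fx ht
  have hkap := hP.kap0
  have hqt : 0 < q * t := Nat.mul_pos q1.pos (by omega)
  have hqtr : (0 : ℝ) < ((q * t : ℕ) : ℝ) := by exact_mod_cast hqt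
  have h2 : (2 : ℝ) ≤ (N : ℝ) ^ (P.kap / 1000) := by
    refine le_trans ?_ hn.num.sm
    calc (2 : ℝ) ≤ (10 : ℝ) ^ 9 := by norm_num
      _ ≤ Real.log N := hn.num.K
      _ ≤ (Real.log N) ^ (100 * P.C1 + 10000) := le_self_pow₀ hK (by omega)
  have h3 : (2 : ℝ) ≤ (N : ℝ) ^ (P.kap * (49 / 100)) :=
    h2.trans (Real.rpow_le_rpow_of_exponent_le hN1 (by linarith))
  have h3' : (1 : ℝ) ≤ (N : ℝ) ^ (P.kap / 2) := Real.one_le_rpow hN1 (by linarith)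
  have hJ1 : 1 ≤ D.J1 := j1_pos hn hD
  have hJ1r : (1 : ℝ) ≤ D.J1 := by exact_mod_cast hJ1
  have hv : ((q * t : ℕ) : ℝ) ≤ (N : ℝ) ^ (1 - P.kap * (99 / 100)) := by
    have e : (N : ℝ) ^ (1 - P.kap * (99 / 100)) = (N : ℝ) ^ (1 - P.kap) * (N : ℝ) ^ (P.kap / 100) := by
      rw [← Real.rpow_add hN0]
      congr 1
      ring
    rw [e, Nat.cast_mul]
    exact mul_le_mul q4 t7 (Nat.cast_nonneg _) (Real.rpow_nonneg hN0.le _)
  have hx : 2 * (N : ℝ) ^ (P.kap / 2) ≤ (D.J1 * N : ℝ) / ((q * t : ℕ) : ℝ) := by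
    rw [le_div_iff₀ hqtr]
    calc 2 * (N : ℝ) ^ (P.kap / 2) * ((q * t : ℕ) : ℝ)
        ≤ ((N : ℝ) ^ (P.kap * (49 / 100)) * (N : ℝ) ^ (P.kap / 2)) * (N : ℝ) ^ (1 - P.kap * (99 / 100)) :=
          mul_le_mul (mul_le_mul_of_nonneg_right h3 (by positivity)) hv (Nat.cast_nonneg _) (by positivity)
      _ = (N : ℝ) := by
          rw [← Real.rpow_add hN0, ← Real.rpow_add hN0]
          have e : P.kap * (49 / 100) + P.kap / 2 + (1 - P.kap * (99 / 100)) = 1 := by ring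
          rw [e, Real.rpow_one]
      _ = 1 * N := (one_mul _).symm
      _ ≤ D.J1 * N := mul_le_mul_of_nonneg_right hJ1r hN0.le
  have hfl : (D.J1 * N : ℝ) / ((q * t : ℕ) : ℝ) < ((D.J1 * N / (q * t) : ℕ) : ℝ) + 1 := by
    have h := Nat.lt_floor_add_one (((D.J1 * N : ℕ) : ℝ) / ((q * t : ℕ) : ℝ))
    rw [Nat.floor_div_eq_div] at h
    rw [Nat.cast_mul D.J1 N] at h
    exact h
  refine ⟨by linarith, ?_, ?_⟩
  · refine Nat.div_le_of_le_mul ?_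
    refine Nat.mul_le_mul_right _ ?_
    have h4 := y0_J1 hn hD
    calc D.J1 ≤ D.y0 := by omega
      _ ≤ t := t2.le
      _ = 1 * t := (one_mul _).symm
      _ ≤ q * t := Nat.mul_le_mul_right _ q1.one_lt.le
  · have e : (D.J1 * N : ℝ) / (2 * ((q * t : ℕ) : ℝ)) = ((D.J1 * N : ℝ) / ((q * t : ℕ) : ℝ)) / 2 := by
      field_simp
    rw [e]
    linarith

/-- the structure of the numbers `q t n` -/
private theorem Lbm_elt (E : EnvX3 P N D Lk Bd A χ) {q t n : ℕ} (hq : q ∈ QM P χ) (ht : t ∈ TUP D.BX)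
    (hnT : n ∈ T3 P χ (D.J1 * N / (q * t))) :
    0 < n ∧ n < D.J1 * N / (q * t) ∧ q * t * n < D.J1 * N ∧ n.Coprime N ∧ Rgh1 P N (q * t * n) ∧
      (lam (q * t * n) : ℂ) = - χ ((q * t * n : ℕ) : ZMod N) := by
  classical
  have hn := E.hyp.nx
  have hD := E.hyp.ok
  obtain ⟨q1, q2, q3, q4⟩ := Lbm_q hq
  obtain ⟨t1, t2, t3, t4, t5, t6, t7⟩ := tup_facts hD.fx ht
  unfold T3 at hnT
  rw [mem_filter, mem_range] at hnT
  obtain ⟨hy, l1, l2, l3, ⟨p1, z1, c1⟩, ⟨p2, z2, c2⟩, ⟨p3, z3, c3⟩, rfl⟩ := hnT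
  have hn0 : 0 < l1 * l2 * l3 := Nat.mul_pos (Nat.mul_pos p1.pos p2.pos) p3.pos
  have ht0 : 0 < t := by omega
  have hqt : 0 < q * t := Nat.mul_pos q1.pos ht0
  have hqc := Lbm_cop (Or.inl q3)
  have hncop : (l1 * l2 * l3).Coprime N := Nat.Coprime.mul_left (Nat.Coprime.mul_left
    (Lbm_cop (Or.inr c1)) (Lbm_cop (Or.inr c2))) (Lbm_cop (Or.inr c3))
  have hMz := MM_lt_zz hn.num
  have hMy : MM P N ≤ D.y0 := by
    have h1 := y0_MM hn hD
    have h2 := mm_one P N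
    have h3 : MM P N ≤ MM P N ^ 4 := Nat.le_self_pow (by norm_num) _
    omega
  have hr3 : Rough (MM P N) (l1 * l2 * l3) :=
    rough_mul (rough_mul (rough_prime p1 (hMz.trans z1)) (rough_prime p2 (hMz.trans z2)))
      (rough_prime p3 (hMz.trans z3))
  refine ⟨hn0, hy, ?_, hncop, ⟨?_, ?_⟩, ?_⟩
  · exact lt_of_lt_of_le (Nat.mul_lt_mul_of_pos_left hy hqt) (Nat.mul_div_le _ _)
  · exact Nat.Coprime.mul_left (Nat.Coprime.mul_left hqc t4) hncop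
  · exact rough_mul (rough_mul (rough_prime q1 q2) (rough_mono hMy t5)) hr3
  · have hlt : (lam t : ℂ) = χ (t : ZMod N) := by
      by_contra hcon
      obtain ⟨p, hp, hpt, hpc⟩ := DA_prime E.sq ht0 t4 hcon
      obtain ⟨c, hc⟩ := t6 p hp hpt
      have h1 := E.fx c p hc
      rw [hpc] at h1
      norm_num at h1
    have hl : lam (q * t * (l1 * l2 * l3)) = lam t := by
      rw [Pool.Agent.Lib.MP_45349e_nt.LS.lam_mul (q * t) _ hqt.ne' hn0.ne',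
        Pool.Agent.Lib.MP_45349e_nt.LS.lam_mul q t q1.ne_zero ht0.ne',
        Pool.Agent.Lib.MP_45349e_nt.LS.lam_mul (l1 * l2) l3 (Nat.mul_pos p1.pos p2.pos).ne' p3.ne_zero,
        Pool.Agent.Lib.MP_45349e_nt.LS.lam_mul l1 l2 p1.ne_zero p2.ne_zero,
        Pool.Agent.Lib.MP_45349e_nt.LS.lam_prime q q1, Pool.Agent.Lib.MP_45349e_nt.LS.lam_prime l1 p1,
        Pool.Agent.Lib.MP_45349e_nt.LS.lam_prime l2 p2, Pool.Agent.Lib.MP_45349e_nt.LS.lam_prime l3 p3]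
      ring
    rw [hl, hlt]
    push_cast
    rw [map_mul, map_mul, map_mul, map_mul, q3, c1, c2, c3]
    ring

private theorem Lbm_mult (hP : P.Ok) (E : EnvX3 P N D Lk Bd A χ) (W : ZMod N → ℝ) (hW : ∀ x, 0 ≤ W x) :
    ∑ q ∈ QM P χ, ∑ t ∈ TUP D.BX, ∑ n ∈ (T3 P χ (D.J1 * N / (q * t))).filter (fun n => q * t * n ∈ AG P N D),
      W ((q * t * n : ℕ) : ZMod N) ≤
      12 * Real.log N * (D.J1 * rho D.BX) * ∑ x : ZMod N, W x := by
  classical
  have hn := E.hyp.nx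
  have hD := E.hyp.ok
  have hK9 : (10 : ℝ) ^ 9 ≤ Real.log N := hn.num.K
  have hK0 : 0 < Real.log N := lt_of_lt_of_le (by norm_num) hK9
  have h1 : ∀ q ∈ QM P χ, ∀ t ∈ TUP D.BX,
      ∑ n ∈ (T3 P χ (D.J1 * N / (q * t))).filter (fun n => q * t * n ∈ AG P N D),
        W ((q * t * n : ℕ) : ZMod N) ≤
      ∑ a ∈ AG P N D, (if q ∣ a then (1 : ℝ) else 0) * (if t ∣ a then (1 : ℝ) else 0) * W ((a : ℕ) : ZMod N) := by
    intro q hq t ht
    have hqt : 0 < q * t := Nat.mul_pos (Lbm_q hq).1.pos (by have := (tup_facts hD.fx ht).1; omega)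
    have e1 : ∑ n ∈ (T3 P χ (D.J1 * N / (q * t))).filter (fun n => q * t * n ∈ AG P N D),
        W ((q * t * n : ℕ) : ZMod N) =
        ∑ a ∈ ((T3 P χ (D.J1 * N / (q * t))).filter (fun n => q * t * n ∈ AG P N D)).image (fun n => q * t * n),
          W ((a : ℕ) : ZMod N) := by
      rw [sum_image]
      intro n _ n' _ h
      exact Nat.eq_of_mul_eq_mul_left hqt h
    rw [e1]
    have e2 : ∑ a ∈ ((T3 P χ (D.J1 * N / (q * t))).filter (fun n => q * t * n ∈ AG P N D)).image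
        (fun n => q * t * n), W ((a : ℕ) : ZMod N) =
        ∑ a ∈ ((T3 P χ (D.J1 * N / (q * t))).filter (fun n => q * t * n ∈ AG P N D)).image
        (fun n => q * t * n), (if q ∣ a then (1 : ℝ) else 0) * (if t ∣ a then (1 : ℝ) else 0) *
          W ((a : ℕ) : ZMod N) := by
      refine sum_congr rfl fun a ha => ?_
      rw [mem_image] at ha
      obtain ⟨n, _, rfl⟩ := ha
      rw [if_pos ⟨t * n, by ring⟩, if_pos ⟨q * n, by ring⟩]
      ring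
    rw [e2]
    refine sum_le_sum_of_subset_of_nonneg ?_ fun a _ _ => ?_
    · intro a ha
      rw [mem_image] at ha
      obtain ⟨n, hn', rfl⟩ := ha
      exact (mem_filter.1 hn').2
    · refine mul_nonneg (mul_nonneg ?_ ?_) (hW _)
      · split_ifs <;> norm_num
      · split_ifs <;> norm_num
  refine (sum_le_sum fun q hq => sum_le_sum fun t ht => h1 q hq t ht).trans ?_
  have h2 : ∑ q ∈ QM P χ, ∑ t ∈ TUP D.BX, ∑ a ∈ AG P N D,
      (if q ∣ a then (1 : ℝ) else 0) * (if t ∣ a then (1 : ℝ) else 0) * W ((a : ℕ) : ZMod N) =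
      ∑ a ∈ AG P N D, (∑ q ∈ QM P χ, (if q ∣ a then (1 : ℝ) else 0)) *
        (∑ t ∈ TUP D.BX, (if t ∣ a then (1 : ℝ) else 0)) * W ((a : ℕ) : ZMod N) := by
    rw [sum_congr rfl fun q _ => sum_comm, sum_comm]
    refine sum_congr rfl fun a _ => ?_
    rw [sum_mul_sum, sum_mul]
    refine sum_congr rfl fun q _ => ?_
    rw [sum_mul]
  rw [h2]
  have h3 : ∑ a ∈ AG P N D, (∑ q ∈ QM P χ, (if q ∣ a then (1 : ℝ) else 0)) *
        (∑ t ∈ TUP D.BX, (if t ∣ a then (1 : ℝ) else 0)) * W ((a : ℕ) : ZMod N) ≤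
      ∑ a ∈ AG P N D, (4 * Real.log N) * (pht D.BX a * W ((a : ℕ) : ZMod N)) := by
    refine sum_le_sum fun a ha => ?_
    unfold AG at ha
    rw [mem_filter, mem_Ioc] at ha
    have ha0 : 0 < a := by omega
    have haN : a ≤ N ^ 2 := ha.1.2.trans (j1_N hn hD hP)
    have e1 : ∑ t ∈ TUP D.BX, (if t ∣ a then (1 : ℝ) else 0) = pht D.BX a := by
      rw [pht_eq hD.fx, sum_boole]
    have e2 : ∑ q ∈ QM P χ, (if q ∣ a then (1 : ℝ) else 0) ≤ 4 * Real.log N := by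
      rw [sum_boole]
      refine le_trans ?_ (Lbm_fac ha0 haN hK0)
      have e3 : ((QM P χ).filter fun q => q ∣ a).card ≤ a.primeFactors.card := by
        refine card_le_card fun q hq => ?_
        rw [mem_filter] at hq
        rw [Nat.mem_primeFactors]
        exact ⟨(Lbm_q hq.1).1, hq.2, ha0.ne'⟩
      exact_mod_cast e3
    rw [e1, mul_assoc]
    exact mul_le_mul_of_nonneg_right e2 (mul_nonneg (pht_nonneg _ _) (hW _))
  refine h3.trans ?_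
  rw [← mul_sum]
  have h4 := sum_ag hP hn hD W hW
  calc 4 * Real.log N * ∑ a ∈ AG P N D, pht D.BX a * W ((a : ℕ) : ZMod N)
      ≤ 4 * Real.log N * (3 * (D.J1 * rho D.BX) * ∑ x : ZMod N, W x) :=
        mul_le_mul_of_nonneg_left h4 (by positivity)
    _ = 12 * Real.log N * (D.J1 * rho D.BX) * ∑ x : ZMod N, W x := by ring

private theorem Lbm_card {α : Type*} {S : Finset α} {p : α → Prop} [DecidablePred p] {g : α → ℝ} (h0 : ∀ n, 0 ≤ g n)
    (h1 : ∀ n ∈ S, p n → 1 ≤ g n) : ((S.filter p).card : ℝ) ≤ ∑ n ∈ S, g n := by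
  calc ((S.filter p).card : ℝ) = ∑ n ∈ S.filter p, (1 : ℝ) := by rw [sum_const, nsmul_eq_mul, mul_one]
    _ ≤ ∑ n ∈ S.filter p, g n := sum_le_sum fun n hn => h1 n (mem_filter.1 hn).1 (mem_filter.1 hn).2
    _ ≤ ∑ n ∈ S, g n := sum_le_sum_of_subset_of_nonneg (filter_subset _ _) fun n _ _ => h0 n

open Classical in
/-- the inequality for one pair `(q, t)` -/
private theorem Lbm_pair (hP : P.Ok) (E : EnvX3 P N D Lk Bd A χ) {G3 G4 : ℕ → ℕ → ℝ}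
    (h30 : ∀ t a, 0 ≤ G3 t a) (h31 : ∀ t a : ℕ, ¬ Typ P N D Lk Bd 1 ((a : ℕ) : ZMod N) → 1 ≤ G3 t a)
    (h40 : ∀ t a, 0 ≤ G4 t a) (h41 : ∀ t a : ℕ, Lf P N D Lk Bd A a → 1 ≤ G4 t a)
    {q t : ℕ} (hq : q ∈ QM P χ) (ht : t ∈ TUP D.BX) :
    (D.J1 * N / (2 * (Real.log N) ^ 5) : ℝ) * (1 / ((q * t : ℕ) : ℝ)) ≤
      (D.J2 * N + 2 / JJ N * (D.J1 * N) : ℝ) * (1 / ((q * t : ℕ) : ℝ)) +
      ∑ n ∈ NV P N D (q * t), G3 t (q * t * n) + ∑ n ∈ NV P N D (q * t), G4 t (q * t * n) +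
      ∑ n ∈ (T3 P χ (D.J1 * N / (q * t))).filter (fun n => q * t * n ∈ AG P N D),
        (if ((q * t * n : ℕ) : ZMod N) ∈ A then (1 : ℝ) else 0) +
      ∑ n ∈ (T3 P χ (D.J1 * N / (q * t))).filter (fun n => q * t * n ∈ AG P N D),
        (if ((q * t * n : ℕ) : ZMod N) ∈ ZX P N D χ then (1 : ℝ) else 0) := by
  have hn := E.hyp.nx
  have hD := E.hyp.ok
  have hN0 : (0 : ℝ) < N := by exact_mod_cast Nat.pos_of_ne_zero (NeZero.ne N)
  have hN1 : (1 : ℝ) ≤ N := by exact_mod_cast Nat.pos_of_ne_zero (NeZero.ne N)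
  have hK9 : (10 : ℝ) ^ 9 ≤ Real.log N := hn.num.K
  have hK0 : 0 < Real.log N := lt_of_lt_of_le (by norm_num) hK9
  obtain ⟨q1, q2, q3, q4⟩ := Lbm_q hq
  obtain ⟨t1, t2, t3, t4, t5, t6, t7⟩ := tup_facts hD.fx ht
  have hqt : 0 < q * t := Nat.mul_pos q1.pos (by omega)
  have hqtr : (0 : ℝ) < ((q * t : ℕ) : ℝ) := by exact_mod_cast hqt
  obtain ⟨y1, y2, y3⟩ := Lbm_y hP E hq ht
  obtain ⟨y, hy⟩ : ∃ y, y = D.J1 * N / (q * t) := ⟨_, rfl⟩
  have hT := tri P hP N hn.num χ E.sq E.blk y (by rw [hy]; exact y1) (by rw [hy]; exact y2)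
  have hlow : (D.J1 * N / (2 * (Real.log N) ^ 5) : ℝ) * (1 / ((q * t : ℕ) : ℝ)) ≤ (T3 P χ y).card := by
    refine le_trans ?_ hT
    rw [le_div_iff₀ (by positivity), hy]
    refine le_trans (le_of_eq ?_) y3
    field_simp
  refine hlow.trans ?_
  rw [← hy]
  have hsix := Lbm_six (T3 P χ y) ((T3 P χ y).filter fun n => q * t * n ≤ D.J2 * N)
    ((Ioc 0 y).filter fun n => n.Coprime N ∧ ¬ GD N D ((q * t * n : ℕ) : ZMod N))
    ((NV P N D (q * t)).filter fun n => ¬ Typ P N D Lk Bd 1 ((q * t * n : ℕ) : ZMod N))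
    ((NV P N D (q * t)).filter fun n => Lf P N D Lk Bd A (q * t * n))
    (((T3 P χ y).filter fun n => q * t * n ∈ AG P N D).filter fun n => ((q * t * n : ℕ) : ZMod N) ∈ A)
    (((T3 P χ y).filter fun n => q * t * n ∈ AG P N D).filter fun n => ((q * t * n : ℕ) : ZMod N) ∈ ZX P N D χ) (by
      intro n hnT
      have hnT' := hnT
      rw [hy] at hnT'
      obtain ⟨n1, n2, n3, n4, n5, n6⟩ := Lbm_elt E hq ht hnT'
      rw [← hy] at n2
      by_cases c1 : q * t * n ≤ D.J2 * N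
      · exact Or.inl (mem_filter.2 ⟨hnT, c1⟩)
      right
      by_cases c2 : ¬ GD N D ((q * t * n : ℕ) : ZMod N)
      · exact Or.inl (mem_filter.2 ⟨mem_Ioc.2 ⟨n1, n2.le⟩, n4, c2⟩)
      right
      have hNV : n ∈ NV P N D (q * t) := by
        unfold NV
        rw [mem_filter, mem_Icc, ← hy]
        exact ⟨⟨n1, n2.le⟩, n5, not_le.1 c1⟩
      by_cases c3 : ¬ Typ P N D Lk Bd 1 ((q * t * n : ℕ) : ZMod N)
      · exact Or.inl (mem_filter.2 ⟨hNV, c3⟩)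
      right
      by_cases c4 : Lf P N D Lk Bd A (q * t * n)
      · exact Or.inl (mem_filter.2 ⟨hNV, c4⟩)
      right
      have hAG : q * t * n ∈ AG P N D := by
        unfold AG
        rw [mem_filter, mem_Ioc]
        exact ⟨⟨not_le.1 c1, n3.le⟩, n5, not_not.1 c2⟩
      by_cases c5 : ((q * t * n : ℕ) : ZMod N) ∈ A
      · exact Or.inl (mem_filter.2 ⟨mem_filter.2 ⟨hnT, hAG⟩, c5⟩)
      right
      refine mem_filter.2 ⟨mem_filter.2 ⟨hnT, hAG⟩, ?_⟩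
      have c3' := not_not.1 c3
      unfold ZX
      rw [mem_filter]
      refine ⟨mem_univ _, unit_of_cop n5.1, c3'.x2, ?_⟩
      have c6 : lam (q * t * n) = FF P N D ((q * t * n : ℕ) : ZMod N) := by
        by_contra hcon
        exact c4 ⟨c3', c5, hcon⟩
      rw [← c6]
      exact n6)
  refine hsix.trans ?_
  -- the six parts
  have f1 : (((T3 P χ y).filter fun n => q * t * n ≤ D.J2 * N).card : ℝ) ≤ (D.J2 * N : ℝ) * (1 / ((q * t : ℕ) : ℝ)) := by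
    have e1 : ((T3 P χ y).filter fun n => q * t * n ≤ D.J2 * N).card ≤ D.J2 * N / (q * t) := by
      have e2 : ((T3 P χ y).filter fun n => q * t * n ≤ D.J2 * N) ⊆ Icc 1 (D.J2 * N / (q * t)) := by
        intro n hn'
        rw [mem_filter] at hn'
        have hnT' := hn'.1
        rw [hy] at hnT'
        have n1 := (Lbm_elt E hq ht hnT').1
        rw [mem_Icc]
        refine ⟨n1, ?_⟩
        rw [Nat.le_div_iff_mul_le hqt, mul_comm]
        exact hn'.2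
      have e3 := card_le_card e2
      rwa [Nat.card_Icc, Nat.add_sub_cancel] at e3
    have e4 : ((D.J2 * N / (q * t) : ℕ) : ℝ) ≤ ((D.J2 * N : ℕ) : ℝ) / ((q * t : ℕ) : ℝ) := Nat.cast_div_le
    have e5 : (((T3 P χ y).filter fun n => q * t * n ≤ D.J2 * N).card : ℝ) ≤ ((D.J2 * N / (q * t) : ℕ) : ℝ) := by
      exact_mod_cast e1
    refine e5.trans (e4.trans (le_of_eq ?_))
    rw [Nat.cast_mul D.J2 N]
    ring
  have f2 : (((Ioc 0 y).filter fun n => n.Coprime N ∧ ¬ GD N D ((q * t * n : ℕ) : ZMod N)).card : ℝ) ≤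
      (2 / JJ N * (D.J1 * N) : ℝ) * (1 / ((q * t : ℕ) : ℝ)) := by
    have hv : ((q * t : ℕ) : ℝ) ≤ (N : ℝ) ^ (1 - P.kap / 2) := by
      rcases (tm_q E hq ht).ty with h | ⟨c, h, _⟩
      · exact h.2.2
      · cases h
    have h1 := E.hyp.cnt.c3 q t (Or.inr q1) (Lbm_cop (Or.inl q3)) (Or.inr ht) hv 0 y (Nat.zero_le _)
      (by rw [hy]; exact Nat.mul_div_le _ _)
    refine h1.trans ?_
    unfold len
    have h2 : (y : ℝ) ≤ (D.J1 * N : ℝ) / ((q * t : ℕ) : ℝ) := by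
      rw [hy]
      refine le_trans Nat.cast_div_le (le_of_eq ?_)
      rw [Nat.cast_mul D.J1 N]
    have h3 : (N : ℝ) ^ (1 - P.kap / 8) / ((q * t : ℕ) : ℝ) ≤ (D.J1 * N : ℝ) / ((q * t : ℕ) : ℝ) := by
      refine div_le_div_of_nonneg_right ?_ hqtr.le
      have h4 : (N : ℝ) ^ (1 - P.kap / 8) ≤ (N : ℝ) ^ (1 : ℝ) :=
        Real.rpow_le_rpow_of_exponent_le hN1 (by have := hP.kap0; linarith)
      rw [Real.rpow_one] at h4
      have h5 : (1 : ℝ) ≤ D.J1 := by exact_mod_cast j1_pos hn hD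
      nlinarith
    have hJ0 : (0 : ℝ) ≤ 1 / JJ N := by positivity
    calc 1 / (JJ N : ℝ) * ((y : ℝ) - ((0 : ℕ) : ℝ) + (N : ℝ) ^ (1 - P.kap / 8) / ((q * t : ℕ) : ℝ))
        ≤ 1 / (JJ N : ℝ) * (2 * ((D.J1 * N : ℝ) / ((q * t : ℕ) : ℝ))) := by
          refine mul_le_mul_of_nonneg_left ?_ hJ0
          rw [Nat.cast_zero]
          linarith
      _ = (2 / JJ N * (D.J1 * N) : ℝ) * (1 / ((q * t : ℕ) : ℝ)) := by ring
  have f3 : (((NV P N D (q * t)).filter fun n => ¬ Typ P N D Lk Bd 1 ((q * t * n : ℕ) : ZMod N)).card : ℝ) ≤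
      ∑ n ∈ NV P N D (q * t), G3 t (q * t * n) :=
    Lbm_card (g := fun n => G3 t (q * t * n)) (fun n => h30 _ _) fun n _ h => h31 _ _ h
  have f4 : (((NV P N D (q * t)).filter fun n => Lf P N D Lk Bd A (q * t * n)).card : ℝ) ≤
      ∑ n ∈ NV P N D (q * t), G4 t (q * t * n) :=
    Lbm_card (g := fun n => G4 t (q * t * n)) (fun n => h40 _ _) fun n _ h => h41 _ _ h
  have f5 : ((((T3 P χ y).filter fun n => q * t * n ∈ AG P N D).filter fun n =>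
      ((q * t * n : ℕ) : ZMod N) ∈ A).card : ℝ) ≤
      ∑ n ∈ (T3 P χ y).filter (fun n => q * t * n ∈ AG P N D),
        (if ((q * t * n : ℕ) : ZMod N) ∈ A then (1 : ℝ) else 0) :=
    Lbm_card (g := fun n => if ((q * t * n : ℕ) : ZMod N) ∈ A then (1 : ℝ) else 0)
      (fun n => by split_ifs <;> norm_num) fun n _ h => by rw [if_pos h]
  have f6 : ((((T3 P χ y).filter fun n => q * t * n ∈ AG P N D).filter fun n =>
      ((q * t * n : ℕ) : ZMod N) ∈ ZX P N D χ).card : ℝ) ≤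
      ∑ n ∈ (T3 P χ y).filter (fun n => q * t * n ∈ AG P N D),
        (if ((q * t * n : ℕ) : ZMod N) ∈ ZX P N D χ then (1 : ℝ) else 0) :=
    Lbm_card (g := fun n => if ((q * t * n : ℕ) : ZMod N) ∈ ZX P N D χ then (1 : ℝ) else 0)
      (fun n => by split_ifs <;> norm_num) fun n _ h => by rw [if_pos h]
  have f0 : (D.J2 * N + 2 / JJ N * (D.J1 * N) : ℝ) * (1 / ((q * t : ℕ) : ℝ)) =
      (D.J2 * N : ℝ) * (1 / ((q * t : ℕ) : ℝ)) + (2 / JJ N * (D.J1 * N) : ℝ) * (1 / ((q * t : ℕ) : ℝ)) := by ring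
  rw [f0]
  linarith

private theorem Lbm_ind (S : Finset (ZMod N)) [DecidablePred fun x => x ∈ S] :
    ∑ x : ZMod N, (if x ∈ S then (1 : ℝ) else 0) = S.card := by
  classical
  rw [sum_boole]
  congr 2
  ext x
  rw [mem_filter]
  exact ⟨fun h => h.2, fun h => ⟨mem_univ _, h⟩⟩

theorem lbm (hP : P.Ok) (E : EnvX3 P N D Lk Bd A χ) :
    sgm P χ * N / (Real.log N) ^ 20 ≤ (ZX P N D χ).card := by
  classical
  have hn := E.hyp.nx
  have hD := E.hyp.ok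
  have hN0 : (0 : ℝ) < N := by exact_mod_cast Nat.pos_of_ne_zero (NeZero.ne N)
  have hσ := sgm_pos E
  have hqm := qm_sum E
  have hM0 := mr_pos_X hn hD
  obtain ⟨G3, ⟨h30, h31⟩, b3⟩ : ∃ G3 : ℕ → ℕ → ℝ, ((∀ t a, 0 ≤ G3 t a) ∧
      ∀ t a : ℕ, ¬ Typ P N D Lk Bd 1 ((a : ℕ) : ZMod N) → 1 ≤ G3 t a) ∧ S1 P D χ G3 ≤
      (Real.log N) ^ 20 / JJ N * (D.J1 * rho D.BX) * sgm P χ * N := by
    refine ⟨_, ⟨?_, ?_⟩, bad1 E (l := 1) (Or.inl rfl)⟩
    · intro t a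
      split_ifs <;> norm_num
    · intro t a h
      rw [if_pos h]
  obtain ⟨G4, ⟨h40, h41⟩, b4⟩ : ∃ G4 : ℕ → ℕ → ℝ, ((∀ t a, 0 ≤ G4 t a) ∧
      ∀ t a : ℕ, Lf P N D Lk Bd A a → 1 ≤ G4 t a) ∧ S1 P D χ G4 ≤
      (Real.log N) ^ 20 / JJ N * (D.J1 * rho D.BX) * sgm P χ * N := by
    refine ⟨_, ⟨?_, ?_⟩, lf1 E⟩
    · intro t a
      split_ifs <;> norm_num
    · intro t a h
      rw [if_pos h]
  have b5 := Lbm_mult hP E (fun x => if x ∈ A then (1 : ℝ) else 0) (fun x => by split_ifs <;> norm_num)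
  have b6 := Lbm_mult hP E (fun x => if x ∈ ZX P N D χ then (1 : ℝ) else 0)
    (fun x => by split_ifs <;> norm_num)
  rw [Lbm_ind] at b5 b6
  have hsum := sum_le_sum fun q (hq : q ∈ QM P χ) => sum_le_sum fun t (ht : t ∈ TUP D.BX) =>
    Lbm_pair hP E h30 h31 h40 h41 hq ht
  simp only [sum_add_distrib, ← mul_sum] at hsum
  unfold S1 at b3 b4
  rw [hqm] at hsum
  have hac := E.ac
  have hj21 : (JJ N : ℝ) * D.J2 ≤ D.J1 := by exact_mod_cast hD.j21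
  have hJJ := hn.num.J1
  have hK9 := hn.num.K
  have hρ : 0 < rho D.BX := by
    have h1 : (0 : ℝ) < D.J1 := by exact_mod_cast j1_pos hn hD
    exact (mul_pos_iff_of_pos_left h1).1 hM0
  obtain ⟨K, hKe⟩ : ∃ K : ℝ, K = Real.log N := ⟨_, rfl⟩
  obtain ⟨J, hJe⟩ : ∃ J : ℝ, J = JJ N := ⟨_, rfl⟩
  obtain ⟨M, hMe⟩ : ∃ M : ℝ, M = D.J1 * rho D.BX := ⟨_, rfl⟩
  obtain ⟨σ, hσe⟩ : ∃ σ : ℝ, σ = sgm P χ := ⟨_, rfl⟩
  obtain ⟨X, hXe⟩ : ∃ X : ℝ, X = σ * M * N := ⟨_, rfl⟩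
  rw [← hKe, ← hJe, ← hMe, ← hσe] at b3 b4
  rw [← hKe, ← hMe] at b5 b6
  rw [← hKe, ← hJe, ← hσe] at hsum
  rw [← hKe, ← hJe] at hJJ
  rw [← hJe] at hj21
  rw [← hKe] at hK9
  rw [← hσe, ← hJe] at hac
  rw [← hσe] at hσ
  rw [← hMe] at hM0
  rw [← hσe, ← hKe]
  have hK1 : (1 : ℝ) ≤ K := le_trans (by norm_num) hK9
  have hK0 : 0 < K := lt_of_lt_of_le one_pos hK1
  have hJ0 : 0 < J := lt_of_lt_of_le (pow_pos hK0 _) hJJ
  have hX0 : 0 < X := by rw [hXe]; positivity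
  -- the parts
  have d0 : (D.J1 * N / (2 * K ^ 5) : ℝ) * (σ * rho D.BX) = X / (2 * K ^ 5) := by
    rw [hXe, hMe]
    ring
  have d1 : (D.J2 * N + 2 / J * (D.J1 * N) : ℝ) * (σ * rho D.BX) ≤ 3 * X * (1 / J) := by
    have e1 : (D.J2 : ℝ) ≤ D.J1 * (1 / J) := by
      rw [mul_one_div, le_div_iff₀ hJ0, mul_comm]
      exact hj21
    calc (D.J2 * N + 2 / J * (D.J1 * N) : ℝ) * (σ * rho D.BX)
        ≤ (D.J1 * (1 / J) * N + 2 / J * (D.J1 * N) : ℝ) * (σ * rho D.BX) := by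
          refine mul_le_mul_of_nonneg_right ?_ (mul_pos hσ hρ).le
          have := mul_le_mul_of_nonneg_right e1 hN0.le
          linarith
      _ = 3 * X * (1 / J) := by
          rw [hXe, hMe]
          ring
  have d3 : K ^ 20 / J * M * σ * N = K ^ 20 * X * (1 / J) := by
    rw [hXe]
    ring
  rw [d3] at b3 b4
  have d5 : 12 * K * M * (A.card : ℝ) ≤ 12 * K * X * (1 / J) := by
    have e1 : (A.card : ℝ) ≤ σ * N * (1 / J) := by
      refine hac.trans ?_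
      rw [mul_one_div]
      refine div_le_div_of_nonneg_left (by positivity) hJ0 ?_
      have hJ1 : 1 ≤ J := (one_le_pow₀ hK1).trans hJJ
      nlinarith
    calc 12 * K * M * (A.card : ℝ) ≤ 12 * K * M * (σ * N * (1 / J)) :=
          mul_le_mul_of_nonneg_left e1 (by positivity)
      _ = 12 * K * X * (1 / J) := by
          rw [hXe]
          ring
  rw [d0] at hsum
  have hfin : X / (2 * K ^ 5) ≤ X * (3 * K ^ 20 * (1 / J)) + 12 * K * M * ((ZX P N D χ).card : ℝ) := by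
    have e1 : 3 * X * (1 / J) + K ^ 20 * X * (1 / J) + K ^ 20 * X * (1 / J) + 12 * K * X * (1 / J) ≤
        X * (3 * K ^ 20 * (1 / J)) := by
      have e2 : 3 + 12 * K ≤ K ^ 20 := by
        calc 3 + 12 * K ≤ K * K := by nlinarith
          _ = K ^ 2 := by ring
          _ ≤ K ^ 20 := pow_le_pow_right₀ hK1 (by norm_num)
      have e3 : 0 ≤ X * (1 / J) := by positivity
      have e4 := mul_le_mul_of_nonneg_left e2 e3
      nlinarith
    linarith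
  have hsm : X * (3 * K ^ 20 * (1 / J)) ≤ X / (4 * K ^ 5) := by
    have e1 : 3 * K ^ 20 * (1 / J) ≤ 1 / (4 * K ^ 5) := by
      rw [mul_one_div, div_le_div_iff₀ hJ0 (by positivity), one_mul]
      calc 3 * K ^ 20 * (4 * K ^ 5) = 12 * K ^ 25 := by ring
        _ ≤ K * K ^ 25 := mul_le_mul_of_nonneg_right (by linarith) (by positivity)
        _ = K ^ 26 := by ring
        _ ≤ K ^ 1000 := pow_le_pow_right₀ hK1 (by norm_num)
        _ ≤ J := hJJ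
    calc X * (3 * K ^ 20 * (1 / J)) ≤ X * (1 / (4 * K ^ 5)) := mul_le_mul_of_nonneg_left e1 hX0.le
      _ = X / (4 * K ^ 5) := by ring
  have hhalf : X / (2 * K ^ 5) = 2 * (X / (4 * K ^ 5)) := by
    field_simp
    norm_num
  have hlast : X / (4 * K ^ 5) ≤ 12 * K * M * ((ZX P N D χ).card : ℝ) := by linarith
  rw [div_le_iff₀ (by positivity), hXe] at hlast
  rw [div_le_iff₀ (by positivity)]
  have e5 : M * (σ * N) ≤ M * ((48 * K ^ 6) * ((ZX P N D χ).card : ℝ)) := by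
    calc M * (σ * N) = σ * M * N := by ring
      _ ≤ _ := hlast
      _ = M * ((48 * K ^ 6) * ((ZX P N D χ).card : ℝ)) := by ring
  have e6 := le_of_mul_le_mul_left e5 hM0
  refine e6.trans ?_
  rw [mul_comm]
  refine mul_le_mul_of_nonneg_left ?_ (Nat.cast_nonneg _)
  calc 48 * K ^ 6 ≤ K * K ^ 6 := mul_le_mul_of_nonneg_right (by linarith) (by positivity)
    _ = K ^ 7 := by ring
    _ ≤ K ^ 20 := pow_le_pow_right₀ hK1 (by norm_num)

end Pool.Agent.Lib.T3F
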