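import Pool.Agent.Lib.MP_7b7e48_nt.T3F.Def
import Pool.Agent.Lib.MP_7b7e48_nt.T3F.Uusum
import Pool.Agent.Lib.MP_7b7e48_nt.T3F.Maj

/-!
# Module Badl: atypical classes `l x` for the classes `x` of a test measure

`K = log N`, `b = v n`, `M = J1 rho_X`, `M' = J0 rho_Y`. The conditions of `Typ 1 (l b)`: (x1), (x2): `PX (l b) ≥ PXr l b ≥ VM M / 8` except for the `n` counted by `Cnt.c1`
(measure `v`, multiplier `l`); (y1), (bs): `Hyp3.c2l`, `Hyp3.bsl` for the measure `l v` (`l v b ≤ l J1 N ≤ 4 MM ^ 2 J1 N`); (u1), (u2): all pairs are linked (`Hyp3.lt`), so `UU = 0`.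
-/

set_option autoImplicit false

open Finset

namespace Pool.Agent.Lib.T3F

open Pool.Agent.Lib.TCF

open Pool.Agent.Lib.RG hiding RR sig Good
open Pool.Agent.Lib.RH
open Pool.Agent.Lib.MP_45349e_nt.LS (lam)

variable {P : Prm} {N : ℕ} [NeZero N] {D : Dat} {Lk : ℕ → ℕ → ℕ → ℕ → Prop} {Bd : ℕ → ℕ → Prop}
  {A : Finset (ZMod N)}

theorem uu_zero (hh : Hyp3 P N D Lk Bd A) (l : ℕ) (x : ZMod N) : UU P N D Lk Bd l x = 0 := by
  classical
  unfold UU
  refine sum_eq_zero fun j _ => sum_eq_zero fun i _ => ?_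
  unfold NL
  split_ifs
  · refine sum_eq_zero fun t _ => ?_
    rw [Nat.cast_eq_zero, card_eq_zero, filter_eq_empty_iff]
    rintro t' - ⟨-, -, h5⟩
    exact h5 (hh.lt _ _ _ _)
  · rfl

private theorem Badl_typ (hh : Hyp3 P N D Lk Bd A) {l b : ℕ}
    (h1 : VM P N * D.J1 * rho D.BX / 8 ≤ PXr P N D l b)
    (h3 : VM P N * D.J0 * rho D.BY / 2 ≤ PY P N D ((l : ZMod N) * ((b : ℕ) : ZMod N)))
    (h4 : ∀ t ∈ TUP D.BX, BB P N D Bd t ((l : ZMod N) * ((b : ℕ) : ZMod N)) ≤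
      1 / 40 * (VM P N * D.J0 * rho D.BY)) :
    Typ P N D Lk Bd 1 ((l : ZMod N) * ((b : ℕ) : ZMod N)) := by
  have hn := hh.nx
  have hD := hh.ok
  have hK9 : (10 : ℝ) ^ 9 ≤ Real.log N := hK hn
  have hK1 : (1 : ℝ) ≤ Real.log N := le_trans (by norm_num) hK9
  have hK0 : (0 : ℝ) < Real.log N := by linarith
  have hM := mr_pos_X hn hD
  have hM' := mr_pos_Y hn hD
  have hvm := hn.vm
  have weak : ∀ c m : ℝ, 1 ≤ c → 0 < m → m / (Real.log N) ^ 2 ≤ c * m / Real.log N := by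
    intro c m hc hm
    rw [div_le_div_iff₀ (by positivity) hK0]
    have h9 : Real.log N ≤ (Real.log N) ^ 2 := by
      rw [pow_two]
      exact le_mul_of_one_le_left hK0.le hK1
    calc m * Real.log N ≤ m * (Real.log N) ^ 2 := mul_le_mul_of_nonneg_left h9 hm.le
      _ ≤ c * m * (Real.log N) ^ 2 := by
          apply mul_le_mul_of_nonneg_right _ (by positivity)
          exact le_mul_of_one_le_left hm.le hc
  have lowX : D.J1 * rho D.BX / (Real.log N) ^ 2 ≤ PX P N D ((l : ZMod N) * ((b : ℕ) : ZMod N)) := by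
    have h := pxr_le (P := P) (N := N) (D := D) l b
    have h7 : 1000 / Real.log N * (D.J1 * rho D.BX) ≤ VM P N * (D.J1 * rho D.BX) :=
      mul_le_mul_of_nonneg_right hvm hM.le
    have h8 : 125 * (D.J1 * rho D.BX) / Real.log N = 1000 / Real.log N * (D.J1 * rho D.BX) / 8 := by
      ring
    have h9 := weak 125 _ (by norm_num) hM
    rw [h8] at h9
    linarith
  have lowY : D.J0 * rho D.BY / (Real.log N) ^ 2 ≤ PY P N D ((l : ZMod N) * ((b : ℕ) : ZMod N)) := by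
    have h7 : 1000 / Real.log N * (D.J0 * rho D.BY) ≤ VM P N * (D.J0 * rho D.BY) :=
      mul_le_mul_of_nonneg_right hvm hM'.le
    have h8 : 500 * (D.J0 * rho D.BY) / Real.log N = 1000 / Real.log N * (D.J0 * rho D.BY) / 2 := by
      ring
    have h9 := weak 500 _ (by norm_num) hM'
    rw [h8] at h9
    linarith
  have hnn : 0 ≤ PX P N D ((l : ZMod N) * ((b : ℕ) : ZMod N)) * PY P N D ((l : ZMod N) * ((b : ℕ) : ZMod N)) :=
    mul_nonneg (px_nonneg _) (py_nonneg _)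
  refine ⟨?_, lowX, lowY, ?_, ?_, ?_⟩
  · rw [Nat.cast_one, one_mul]; exact lowX
  · intro t ht
    have := h4 t ht
    linarith
  · rw [uu_zero hh, mul_zero, Nat.cast_one, one_mul]; exact hnn
  · rw [uu_zero hh, mul_zero]; exact hnn

open Classical in
theorem badl (hh : Hyp3 P N D Lk Bd A) {v : ℕ} {o : Option (ℕ → ℝ)} {L : ℝ} (hm : TM P N v o L)
    {l : ℕ} (hl : l ∈ PZ N (MM P N)) (hml : TM P N (l * v) o L) :
    ∑ n ∈ (Icc 1 (D.J1 * N / v)).filter (fun n => n.Coprime N ∧ D.J2 * N < v * n ∧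
      ¬ Typ P N D Lk Bd 1 ((l : ZMod N) * ((v * n : ℕ) : ZMod N))),
      wt D.y0 o n ≤ (Real.log N) ^ 12 / JJ N * (L * (D.J1 * N / v)) := by
  have hn := hh.nx
  have hD := hh.ok
  have hP := hh.hP
  have hlM : Mul P N l := Or.inr hl
  obtain ⟨hl1, hl2, -, -, -⟩ := mul_facts hn hlM
  have hN2 := N_two hn
  have hK9 : (10 : ℝ) ^ 9 ≤ Real.log N := hK hn
  have hK1 : (1 : ℝ) ≤ Real.log N := le_trans (by norm_num) hK9
  have hK0 : (0 : ℝ) < Real.log N := by linarith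
  have hJ0 : (0 : ℝ) < JJ N := by
    have := jj_one hn
    exact_mod_cast this
  have hL := tm_L_pos hn hm
  have hv0 : 0 < v := hm.v1
  have hv : (0 : ℝ) < v := by exact_mod_cast hv0
  have hN0 : (0 : ℝ) < N := by
    have : (2 : ℝ) ≤ N := by exact_mod_cast hN2
    linarith
  have hN1 : (1 : ℝ) ≤ N := by
    have : (2 : ℝ) ≤ N := by exact_mod_cast hN2
    linarith
  have hJ1 : (1 : ℝ) ≤ D.J1 := by exact_mod_cast j1_pos hn hD
  set a := D.J2 * N / v with ha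
  set b := D.J1 * N / v with hb
  have hab : a ≤ b := Nat.div_le_div_right (Nat.mul_le_mul_right _ (j2_lt hn hD).le)
  have hvb : v * b ≤ D.J1 * N := Nat.mul_div_le _ _
  have hva : D.J2 * N < v * (a + 1) := Nat.lt_mul_div_succ _ hv0
  have hlvb : l * v * b ≤ 4 * MM P N ^ 2 * (D.J1 * N) := by
    rw [mul_assoc]
    exact Nat.mul_le_mul hl2 hvb
  have hlva : D.J2 * N < l * v * (a + 1) := by
    rw [mul_assoc]
    exact hva.trans_le (Nat.le_mul_of_pos_left _ hl1)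
  have hbR : (b : ℝ) ≤ D.J1 * N / v := by
    rw [hb]
    have := Nat.cast_div_le (α := ℝ) (m := D.J1 * N) (n := v)
    rwa [Nat.cast_mul] at this
  have hlen : len P N v a b ≤ 2 * (D.J1 * N / v) := by
    unfold len
    have h1 : (N : ℝ) ^ (1 - P.kap / 8) ≤ N := by
      calc (N : ℝ) ^ (1 - P.kap / 8) ≤ (N : ℝ) ^ (1 : ℝ) := by
            apply Real.rpow_le_rpow_of_exponent_le hN1
            have := hP.kap0
            linarith
        _ = N := Real.rpow_one _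
    have h2 : (N : ℝ) ^ (1 - P.kap / 8) / v ≤ D.J1 * N / v := by
      apply div_le_div_of_nonneg_right _ hv.le
      calc (N : ℝ) ^ (1 - P.kap / 8) ≤ N := h1
        _ = 1 * N := (one_mul _).symm
        _ ≤ D.J1 * N := mul_le_mul_of_nonneg_right hJ1 hN0.le
    have h3 : (0 : ℝ) ≤ a := Nat.cast_nonneg _
    linarith
  have hlen2 : len P N (l * v) a b ≤ len P N v a b := by
    unfold len
    have h1 : (v : ℝ) ≤ ((l * v : ℕ) : ℝ) := by
      exact_mod_cast Nat.le_mul_of_pos_left _ hl1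
    have h2 : (N : ℝ) ^ (1 - P.kap / 8) / ((l * v : ℕ) : ℝ) ≤ (N : ℝ) ^ (1 - P.kap / 8) / v :=
      div_le_div_of_nonneg_left (by positivity) hv h1
    linarith
  have hw : ∀ n, 0 ≤ wt D.y0 o n := fun n => wt_nonneg hm D.y0 n
  have c1 := hh.cnt.c1 v o L hm l hlM a b hab hvb
  have c3 := hh.c2l (l * v) o L hml a b hab hlvb (Or.inr hlva)
  have c4 := hh.bsl (l * v) o L hml a b hab hlvb (Or.inr hlva)
  set S1 := (Ioc a b).filter (fun n : ℕ => n.Coprime N ∧
      PXr P N D l (v * n) < VM P N * D.J1 * rho D.BX / 8) with hS1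
  set S3 := (Ioc a b).filter (fun n : ℕ => n.Coprime N ∧
      PY P N D ((l * v * n : ℕ) : ZMod N) < VM P N * D.J0 * rho D.BY / 2) with hS3
  set S4 := (Ioc a b).filter (fun n : ℕ => n.Coprime N ∧ ∃ t ∈ TUP D.BX,
      1 / 40 * (VM P N * D.J0 * rho D.BY) < BB P N D Bd t ((l * v * n : ℕ) : ZMod N)) with hS4
  have hcast : ∀ n : ℕ, ((l * v * n : ℕ) : ZMod N) = (l : ZMod N) * ((v * n : ℕ) : ZMod N) := by
    intro n
    push_cast
    ring
  have hsub : (Icc 1 b).filter (fun n => n.Coprime N ∧ D.J2 * N < v * n ∧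
      ¬ Typ P N D Lk Bd 1 ((l : ZMod N) * ((v * n : ℕ) : ZMod N))) ⊆
      S1 ∪ (S3 ∪ S4) := by
    intro n hnm
    rw [mem_filter, mem_Icc] at hnm
    obtain ⟨⟨hn1, hnb⟩, hcop, hlow, htyp⟩ := hnm
    have hna : a < n := by
      rw [ha, Nat.div_lt_iff_lt_mul hv0, mul_comm n v]
      exact hlow
    by_contra hcon
    rw [mem_union, mem_union] at hcon
    push Not at hcon
    obtain ⟨g1, g3, g4⟩ := hcon
    apply htyp
    have e1' : ¬ PXr P N D l (v * n) < VM P N * D.J1 * rho D.BX / 8 := fun h =>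
      g1 (mem_filter.mpr ⟨mem_Ioc.mpr ⟨hna, hnb⟩, hcop, h⟩)
    have e3' : ¬ PY P N D ((l * v * n : ℕ) : ZMod N) < VM P N * D.J0 * rho D.BY / 2 := fun h =>
      g3 (mem_filter.mpr ⟨mem_Ioc.mpr ⟨hna, hnb⟩, hcop, h⟩)
    have e4' : ∀ t ∈ TUP D.BX, ¬ 1 / 40 * (VM P N * D.J0 * rho D.BY) <
        BB P N D Bd t ((l * v * n : ℕ) : ZMod N) := fun t ht h =>
      g4 (mem_filter.mpr ⟨mem_Ioc.mpr ⟨hna, hnb⟩, hcop, t, ht, h⟩)
    rw [hcast] at e3' e4'
    exact Badl_typ hh (not_lt.mp e1') (not_lt.mp e3') (fun t ht => not_lt.mp (e4' t ht))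
  have hun : ∀ (U V : Finset ℕ), ∑ n ∈ U ∪ V, wt D.y0 o n ≤
      ∑ n ∈ U, wt D.y0 o n + ∑ n ∈ V, wt D.y0 o n := by
    intro U V
    rw [← sum_union_inter]
    have : 0 ≤ ∑ n ∈ U ∩ V, wt D.y0 o n := sum_nonneg fun n _ => hw n
    linarith
  have htot := sum_le_sum_of_subset_of_nonneg (f := fun n => wt D.y0 o n) hsub
    (fun n _ _ => hw n)
  have u1 := hun S1 (S3 ∪ S4)
  have u3 := hun S3 S4
  have hX0 : 0 < L * (D.J1 * N / v) := by positivity
  have hE1 : L / JJ N * len P N v a b ≤ 2 / JJ N * (L * (D.J1 * N / v)) := by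
    calc L / JJ N * len P N v a b ≤ L / JJ N * (2 * (D.J1 * N / v)) :=
          mul_le_mul_of_nonneg_left hlen (by positivity)
      _ = 2 / JJ N * (L * (D.J1 * N / v)) := by ring
  have hE2 : L / JJ N * len P N (l * v) a b ≤ 2 / JJ N * (L * (D.J1 * N / v)) :=
    (mul_le_mul_of_nonneg_left hlen2 (by positivity)).trans hE1
  have hfin : 3 * (2 / JJ N * (L * (D.J1 * N / v))) ≤ (Real.log N) ^ 12 / JJ N * (L * (D.J1 * N / v)) := by
    have h1 : 6 ≤ (Real.log N) ^ 12 := by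
      calc (6 : ℝ) ≤ Real.log N := le_trans (by norm_num) hK9
        _ = (Real.log N) ^ 1 := (pow_one _).symm
        _ ≤ (Real.log N) ^ 12 := pow_le_pow_right₀ hK1 (by norm_num)
    have h6 : 3 * (2 / JJ N * (L * (D.J1 * N / v))) = 6 / JJ N * (L * (D.J1 * N / v)) := by ring
    rw [h6]
    apply mul_le_mul_of_nonneg_right _ hX0.le
    exact div_le_div_of_nonneg_right h1 hJ0.le
  linarith

end Pool.Agent.Lib.T3F
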