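import Pool.Agent.Lib.MP_7b7e48_nt.T3F.Def
import Pool.Agent.Lib.MP_7b7e48_nt.T3F.Smb
import Pool.Agent.Lib.MP_7b7e48_nt.T3F.Badl

/-!
# Module Smc: atypical classes `l x` in the two parts

`badl` for the measures `q t` (first part) and `m t` (second part); `l (q t)` and `l (m t)` are again measures (`l ≤ 4 MM ^ 2 ≤ N ^ (kap / 1000)`).
-/

set_option autoImplicit false

open Finset

namespace Pool.Agent.Lib.T3F

open Pool.Agent.Lib.TCF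

open Pool.Agent.Lib.RG hiding RR sig Good
open Pool.Agent.Lib.RH
open Pool.Agent.Lib.MP_45349e_nt.LS (lam)

variable {P : Prm} {N : ℕ} [NeZero N] {D : Dat} {Lk : ℕ → ℕ → ℕ → ℕ → Prop} {Bd : ℕ → ℕ → Prop}
  {A : Finset (ZMod N)} {χ : DirichletCharacter ℂ N}

private theorem Smc_l (E : EnvX3 P N D Lk Bd A χ) {l : ℕ} (hl : l ∈ PZ N (MM P N)) :
    1 ≤ l ∧ (l : ℝ) ≤ (N : ℝ) ^ (P.kap / 1000) ∧ l.Coprime N ∧ Rough (MM P N) l := by
  have hn := E.hyp.nx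
  obtain ⟨h1, h2, h3, h4, -⟩ := mul_facts hn (Or.inr hl : Mul P N l)
  refine ⟨h1, ?_, h3, h4⟩
  have hK9 := hK hn
  have hJ : (4 : ℝ) ≤ JJ N := by
    refine le_trans ?_ (jj_K hn)
    calc (4 : ℝ) ≤ Real.log N := le_trans (by norm_num) hK9
      _ = (Real.log N) ^ 1 := (pow_one _).symm
      _ ≤ (Real.log N) ^ 1000 := pow_le_pow_right₀ (le_trans (by norm_num) hK9) (by norm_num)
  have hM : (1 : ℝ) ≤ MM P N := by exact_mod_cast mm_one P N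
  have h5 : (l : ℝ) ≤ 4 * (MM P N : ℝ) ^ 2 := by exact_mod_cast h2
  refine h5.trans (le_trans ?_ hn.pw)
  have h6 : (4 : ℝ) ≤ (JJ N : ℝ) ^ 10 := by
    calc (4 : ℝ) ≤ JJ N := hJ
      _ = (JJ N : ℝ) ^ 1 := (pow_one _).symm
      _ ≤ (JJ N : ℝ) ^ 10 := pow_le_pow_right₀ (by linarith) (by norm_num)
  have h7 : (MM P N : ℝ) ^ 2 ≤ (MM P N : ℝ) ^ 10 := pow_le_pow_right₀ hM (by norm_num)
  exact mul_le_mul h6 h7 (by positivity) (by positivity)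

theorem tm_ql (E : EnvX3 P N D Lk Bd A χ) {l : ℕ} (hl : l ∈ PZ N (MM P N)) {q t : ℕ}
    (hq : q ∈ QM P χ) (ht : t ∈ TUP D.BX) : TM P N (l * (q * t)) none 1 := by
  obtain ⟨h1, h2, -, h4, h5⟩ := smz_qm hq
  obtain ⟨t1, t2, t3, t4⟩ := smz_tup E ht
  obtain ⟨l1, l2, l3, l4⟩ := Smc_l E hl
  have hN := smz_N E
  have hk := E.hyp.hP.kap0
  refine ⟨Nat.mul_pos l1 (Nat.mul_pos h1.pos t1), Nat.Coprime.mul_left l3 (Nat.Coprime.mul_left h5 t3),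
    rough_mul l4 (rough_mul (rough_prime h1 h2) t4), Or.inl ⟨rfl, rfl, ?_⟩, nofun⟩
  push_cast
  calc (l : ℝ) * (q * t) ≤ (N : ℝ) ^ (P.kap / 1000) * ((N : ℝ) ^ (1 - P.kap) * (N : ℝ) ^ (P.kap / 100)) := by gcongr
    _ = (N : ℝ) ^ (P.kap / 1000 + (1 - P.kap + P.kap / 100)) := by
        rw [← Real.rpow_add (by linarith), ← Real.rpow_add (by linarith)]
    _ ≤ (N : ℝ) ^ (1 - P.kap / 2) := Real.rpow_le_rpow_of_exponent_le hN (by linarith)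

theorem tm_ml (E : EnvX3 P N D Lk Bd A χ) {L : ℝ} (hL : LV N (cc χ) L)
    (hL2 : (N : ℝ) ^ (-(1 / 200) : ℝ) ≤ L) {l : ℕ} (hl : l ∈ PZ N (MM P N)) {m t : ℕ} (hm : m ∈ MV P N)
    (ht : t ∈ TUP D.BX) : TM P N (l * (m * t)) (some (cc χ)) L := by
  obtain ⟨h1, h2, h3, h4⟩ := smz_mv hm
  obtain ⟨t1, t2, t3, t4⟩ := smz_tup E ht
  obtain ⟨l1, l2, l3, l4⟩ := Smc_l E hl
  have hN := smz_N E
  have hk := E.hyp.hP.kap0
  refine ⟨Nat.mul_pos l1 (Nat.mul_pos h1 t1), Nat.Coprime.mul_left l3 (Nat.Coprime.mul_left h3 t3),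
    rough_mul l4 (rough_mul h4 t4), Or.inr ⟨cc χ, rfl, smz_rc E, hL, hL2, ?_⟩, smz_sm E⟩
  push_cast
  calc (l : ℝ) * (m * t) ≤ (N : ℝ) ^ (P.kap / 1000) * ((N : ℝ) ^ P.kap * (N : ℝ) ^ (P.kap / 100)) := by gcongr
    _ = (N : ℝ) ^ (P.kap / 1000 + (P.kap + P.kap / 100)) := by
        rw [← Real.rpow_add (by linarith), ← Real.rpow_add (by linarith)]
    _ ≤ (N : ℝ) ^ (2 * P.kap) := Real.rpow_le_rpow_of_exponent_le hN (by linarith)

open Classical in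
private theorem Smc_A (hh : Hyp3 P N D Lk Bd A) {v : ℕ} {o : Option (ℕ → ℝ)} {L : ℝ}
    (hm : TM P N v o L) {l : ℕ} (hl : l ∈ PZ N (MM P N)) (hml : TM P N (l * v) o L) (T : Finset ℕ)
    (hT : T ⊆ NV P N D v) :
    ∑ n ∈ T, wt D.y0 o n * (if ¬ Typ P N D Lk Bd 1 ((l : ZMod N) * ((v * n : ℕ) : ZMod N)) then 1 else 0) ≤
      (Real.log N) ^ 12 / JJ N * (L * (D.J1 * N / v)) := by
  refine le_trans ?_ (badl hh hm hl hml)
  have h1 : ∑ n ∈ T, wt D.y0 o n *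
      (if ¬ Typ P N D Lk Bd 1 ((l : ZMod N) * ((v * n : ℕ) : ZMod N)) then (1 : ℝ) else 0) =
      ∑ n ∈ T.filter (fun n => ¬ Typ P N D Lk Bd 1 ((l : ZMod N) * ((v * n : ℕ) : ZMod N))), wt D.y0 o n := by
    rw [sum_filter]
    refine sum_congr rfl fun n _ => ?_
    split_ifs
    · rw [mul_zero]
    · rw [mul_one]
  rw [h1]
  refine sum_le_sum_of_subset_of_nonneg (fun n hn => ?_) (fun n _ _ => wt_nonneg hm _ _)
  rw [mem_filter] at hn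
  have h2 := hT hn.1
  unfold NV at h2
  rw [mem_filter] at h2
  rw [mem_filter]
  exact ⟨h2.1, Smb_cop h2.2.1.1, h2.2.2, hn.2⟩

open Classical in
theorem bad1l (E : EnvX3 P N D Lk Bd A χ) {l : ℕ} (hl : l ∈ PZ N (MM P N)) :
    S1 P D χ (fun _ a => if ¬ Typ P N D Lk Bd 1 ((l : ZMod N) * ((a : ℕ) : ZMod N)) then 1 else 0) ≤
      (Real.log N) ^ 20 / JJ N * (D.J1 * rho D.BX) * sgm P χ * N := by
  have hKK := hK E.hyp.nx
  have hJ : (1 : ℝ) ≤ JJ N := by exact_mod_cast jj_one E.hyp.nx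
  have hM : 0 < D.J1 * rho D.BX := mr_pos_X E.hyp.nx E.hyp.ok
  have hs := sgm_pos E
  have h2 : S1 P D χ (fun _ a => if ¬ Typ P N D Lk Bd 1 ((l : ZMod N) * ((a : ℕ) : ZMod N)) then 1 else 0) ≤
      (Real.log N) ^ 12 / JJ N * ((D.J1 * rho D.BX) * sgm P χ * N) := by
    refine Smb_S1 E _ _ fun q hq t ht => ?_
    refine le_trans (le_of_eq ?_) (Smc_A E.hyp (tm_q E hq ht) hl (tm_ql E hl hq ht) _ (Finset.Subset.refl _))
    refine sum_congr rfl fun n _ => ?_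
    rw [Smb_w1]
  have h4 : (Real.log N) ^ 12 ≤ (Real.log N) ^ 20 := by
    have h9 : (1 : ℝ) ≤ 10 ^ 9 := by norm_num
    exact pow_le_pow_right₀ (h9.trans hKK) (by norm_num)
  have h5 : (Real.log N) ^ 12 * (1 / JJ N * (D.J1 * rho D.BX) * sgm P χ * N) ≤
      (Real.log N) ^ 20 * (1 / JJ N * (D.J1 * rho D.BX) * sgm P χ * N) :=
    mul_le_mul_of_nonneg_right h4 (by positivity)
  calc _ ≤ _ := h2
    _ = (Real.log N) ^ 12 * (1 / JJ N * (D.J1 * rho D.BX) * sgm P χ * N) := by ring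
    _ ≤ _ := h5
    _ = _ := by ring

open Classical in
theorem bad2l (E : EnvX3 P N D Lk Bd A χ) {l : ℕ} (hl : l ∈ PZ N (MM P N)) :
    S2 P D χ (fun _ a => if ¬ Typ P N D Lk Bd 1 ((l : ZMod N) * ((a : ℕ) : ZMod N)) then 1 else 0) ≤
      (Real.log N) ^ 20 / JJ N * (D.J1 * rho D.BX) * sgm P χ * N := by
  have hKK := hK E.hyp.nx
  have h9 : (1 : ℝ) ≤ 10 ^ 9 := by norm_num
  have hK0 : 0 ≤ Real.log N := by linarith
  have hJ : (1 : ℝ) ≤ JJ N := by exact_mod_cast jj_one E.hyp.nx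
  have hM : 0 < D.J1 * rho D.BX := mr_pos_X E.hyp.nx E.hyp.ok
  have hs := sgm_pos E
  obtain ⟨L, hL1, hL2, hL3⟩ := E.lv
  have hL0 : 0 ≤ L := le_trans (by positivity) hL2
  have h2 : S2 P D χ (fun _ a => if ¬ Typ P N D Lk Bd 1 ((l : ZMod N) * ((a : ℕ) : ZMod N)) then 1 else 0) ≤
      2 * (Real.log N) ^ 4 * ((Real.log N) ^ 12 / JJ N) * ((D.J1 * rho D.BX) * sgm P χ * N) := by
    refine Smb_S2 E _ _ L (by positivity) hL0 hL3 fun m hm t ht => ?_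
    exact Smc_A E.hyp (tm_m E hL1 hL2 hm ht) hl (tm_ml E hL1 hL2 hl hm ht) _ (Finset.filter_subset _ _)
  have h4 : 2 * (Real.log N) ^ 4 * (Real.log N) ^ 12 ≤ (Real.log N) ^ 20 := by
    have h5 := (Smb_num hKK).1
    have h6 : 0 ≤ (Real.log N) ^ 10 := by positivity
    linarith
  have h5 : (2 * (Real.log N) ^ 4 * (Real.log N) ^ 12) * (1 / JJ N * (D.J1 * rho D.BX) * sgm P χ * N) ≤
      (Real.log N) ^ 20 * (1 / JJ N * (D.J1 * rho D.BX) * sgm P χ * N) :=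
    mul_le_mul_of_nonneg_right h4 (by positivity)
  calc _ ≤ _ := h2
    _ = (2 * (Real.log N) ^ 4 * (Real.log N) ^ 12) * (1 / JJ N * (D.J1 * rho D.BX) * sgm P χ * N) := by ring
    _ ≤ _ := h5
    _ = _ := by ring

end Pool.Agent.Lib.T3F
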