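import Pool.Agent.Lib.MP_7b7e48_nt.T3F.Def
import Pool.Agent.Lib.MP_7b7e48_nt.T3F.Invz
import Pool.Agent.Lib.MP_7b7e48_nt.TCF.Usl0

/-!
# Module Tha (45 minutes): numbers of `AD` outside `ZX`

PROOF. `a ∈ AG` (range, rough, coprime, `GD`) with `DA χ a`, class `x ∉ ZX`. Then `¬ Typ 1 x`, or `x ∈ A`, or `Lf a`: otherwise `FF x = lam a`, and `lam a = - χ a` (`DA`: `lam a = ± 1`, `χ a = ± 1` as `a` is coprime to `N`), `PX x ≥ M / K ^ 2` (`Typ.x2`), so `x ∈ ZX`.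
So the sum is `≤ bads (l = 1) + lamf + ∑_{a ∈ AG, x ∈ A} pht a ≤ 4 K ^ 20 / JJ * M σ N + 3 M |A|` (`sum_ag` with the indicator of `A`), `σ N ≤ K ^ 20 |ZX|` (`lbm`), `acz`.
-/

set_option autoImplicit false

open Finset

namespace Pool.Agent.Lib.T3F

open Pool.Agent.Lib.TCF

open Pool.Agent.Lib.RG hiding RR sig Good
open Pool.Agent.Lib.RH
open Pool.Agent.Lib.MP_45349e_nt.LS (lam)

variable {P : Prm} {N : ℕ} [NeZero N] {D : Dat} {Lk : ℕ → ℕ → ℕ → ℕ → Prop} {Bd : ℕ → ℕ → Prop}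
  {A : Finset (ZMod N)} {χ : DirichletCharacter ℂ N}

open Classical in
private theorem Tha_case (E : EnvX3 P N D Lk Bd A χ) {a : ℕ} (ha : a.Coprime N)
    (hDA : DA χ a) (hZ : ((a : ℕ) : ZMod N) ∉ ZX P N D χ)
    (hT : Typ P N D Lk Bd 1 ((a : ℕ) : ZMod N)) (hA : ((a : ℕ) : ZMod N) ∉ A) :
    Lf P N D Lk Bd A a := by
  refine ⟨hT, hA, fun hlam => hZ ?_⟩
  have hu : IsUnit ((a : ℕ) : ZMod N) := unit_of_cop ha
  unfold ZX
  refine mem_filter.2 ⟨mem_univ _, hu, hT.x2, ?_⟩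
  rw [← hlam]
  have h3 : χ (a : ZMod N) = 1 ∨ χ (a : ZMod N) = -1 := chi_pm E.sq hu
  unfold DA at hDA
  rcases lam_pm a with h4 | h4 <;> rcases h3 with h5 | h5 <;> rw [h4, h5] at hDA <;>
    rw [h4, h5] <;> simp at hDA ⊢

open Classical in
theorem tha (hP : P.Ok) (E : EnvX3 P N D Lk Bd A χ) (hW : WT P N) :
    ∑ a ∈ AG P N D, pht D.BX a * (if DA χ a ∧ ((a : ℕ) : ZMod N) ∉ ZX P N D χ then 1 else 0) ≤
      (Real.log N) ^ 45 / JJ N * (D.J1 * rho D.BX) * (ZX P N D χ).card := by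
  have hnn : ∀ a, 0 ≤ pht D.BX a := fun a => prod_nonneg fun c _ => Nat.cast_nonneg _
  set F : ℕ → ℝ := fun a => (if ¬ Typ P N D Lk Bd 1 ((a : ℕ) : ZMod N) then 1 else 0) with hF
  set G : ℕ → ℝ := fun a => (if Lf P N D Lk Bd A a then 1 else 0) with hG
  have hF0 : ∀ a, 0 ≤ F a := fun a => by simp only [hF]; split_ifs <;> norm_num
  have hG0 : ∀ a, 0 ≤ G a := fun a => by simp only [hG]; split_ifs <;> norm_num
  have hA0 : ∀ x : ZMod N, (0 : ℝ) ≤ if x ∈ A then 1 else 0 := fun x => by split_ifs <;> norm_num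
  -- the decomposition
  have h1 : ∑ a ∈ AG P N D, pht D.BX a *
      (if DA χ a ∧ ((a : ℕ) : ZMod N) ∉ ZX P N D χ then 1 else 0) ≤
      ∑ a ∈ AD P D χ, pht D.BX a * F a + ∑ a ∈ AD P D χ, pht D.BX a * G a +
      ∑ a ∈ AG P N D, pht D.BX a * (if ((a : ℕ) : ZMod N) ∈ A then 1 else 0) := by
    have h2 : ∑ a ∈ AD P D χ, pht D.BX a * F a + ∑ a ∈ AD P D χ, pht D.BX a * G a =
        ∑ a ∈ AD P D χ, pht D.BX a * (F a + G a) := by
      rw [← sum_add_distrib]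
      exact sum_congr rfl fun a _ => by ring
    have h3 : ∑ a ∈ (AG P N D).filter (fun a => DA χ a), pht D.BX a * (F a + G a) ≤
        ∑ a ∈ AD P D χ, pht D.BX a * (F a + G a) := by
      refine sum_le_sum_of_subset_of_nonneg (fun a ha => ?_) fun a _ _ =>
        mul_nonneg (hnn a) (add_nonneg (hF0 a) (hG0 a))
      obtain ⟨h4, h5⟩ := mem_filter.1 ha
      unfold AG at h4
      obtain ⟨h6, h7, -⟩ := mem_filter.1 h4
      unfold AD
      exact mem_filter.2 ⟨h6, h7, h5⟩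
    rw [h2]
    refine le_trans ?_ (add_le_add_left h3 _)
    rw [sum_filter, ← sum_add_distrib]
    refine sum_le_sum fun a ha => ?_
    unfold AG at ha
    obtain ⟨-, h7, -⟩ := mem_filter.1 ha
    by_cases hc : DA χ a ∧ ((a : ℕ) : ZMod N) ∉ ZX P N D χ
    · rw [if_pos hc, if_pos hc.1, mul_one]
      have h8 : 1 ≤ F a + G a + (if ((a : ℕ) : ZMod N) ∈ A then 1 else 0) := by
        by_cases hA : ((a : ℕ) : ZMod N) ∈ A
        · rw [if_pos hA]
          linarith [hF0 a, hG0 a]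
        · rw [if_neg hA]
          by_cases hT : Typ P N D Lk Bd 1 ((a : ℕ) : ZMod N)
          · have h9 : G a = 1 := if_pos (Tha_case E h7.1 hc.1 hc.2 hT hA)
            linarith [hF0 a]
          · have h9 : F a = 1 := if_pos hT
            linarith [hG0 a]
      nlinarith [hnn a]
    · rw [if_neg hc, mul_zero]
      refine add_nonneg ?_ (mul_nonneg (hnn a) (hA0 _))
      split_ifs
      · exact mul_nonneg (hnn a) (add_nonneg (hF0 a) (hG0 a))
      · exact le_refl 0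
  have h2 := bads E hW (l := 1) (Or.inl rfl)
  have h3 := lamf E hW
  have h4 := sum_ag hP E.hyp.nx E.hyp.ok (fun x : ZMod N => if x ∈ A then (1 : ℝ) else 0) hA0
  have h5 := acz hP E
  have h6 := lbm hP E
  have hKK := hK E.hyp.nx
  have hJ : (0 : ℝ) < JJ N := by
    have := jj_one E.hyp.nx
    exact_mod_cast this
  have hM := mr_pos_X E.hyp.nx E.hyp.ok
  have h7 : ∑ x : ZMod N, (if x ∈ A then (1 : ℝ) else 0) = A.card := by
    rw [sum_ite_mem, univ_inter, sum_const, nsmul_eq_mul, mul_one]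
  rw [h7] at h4
  set K := Real.log N with hKdef
  set M : ℝ := D.J1 * rho D.BX with hMdef
  set Z : ℝ := ((ZX P N D χ).card : ℝ) with hZdef
  have hZ0 : 0 ≤ Z := Nat.cast_nonneg _
  have hK0 : (0 : ℝ) < K := by linarith
  have h8 : sgm P χ * N ≤ K ^ 20 * Z := by
    rw [div_le_iff₀ (by positivity)] at h6
    linarith
  have h9 : 2 * K ^ 20 / JJ N * M * sgm P χ * N ≤ 2 * K ^ 40 / JJ N * M * Z := by
    calc 2 * K ^ 20 / JJ N * M * sgm P χ * N = 2 * K ^ 20 / JJ N * M * (sgm P χ * N) := by ring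
      _ ≤ 2 * K ^ 20 / JJ N * M * (K ^ 20 * Z) := mul_le_mul_of_nonneg_left h8 (by positivity)
      _ = _ := by ring
  have h10 : 3 * M * A.card ≤ 3 / JJ N * M * Z := by
    calc 3 * M * A.card ≤ 3 * M * (1 / JJ N * Z) := mul_le_mul_of_nonneg_left h5 (by positivity)
      _ = _ := by ring
  have h11 : 4 * K ^ 40 + 3 ≤ K ^ 45 := by
    have e1 : (1 : ℝ) ≤ K ^ 40 := one_le_pow₀ (by linarith)
    have e2 : (7 : ℝ) ≤ K ^ 5 := by
      calc (7 : ℝ) ≤ K := by linarith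
        _ = K ^ 1 := (pow_one K).symm
        _ ≤ K ^ 5 := pow_le_pow_right₀ (by linarith) (by norm_num)
    calc 4 * K ^ 40 + 3 ≤ 7 * K ^ 40 := by linarith
      _ ≤ K ^ 5 * K ^ 40 := mul_le_mul_of_nonneg_right e2 (by positivity)
      _ = K ^ 45 := by ring
  have h12 : (4 * K ^ 40 + 3) * (1 / JJ N * M * Z) ≤ K ^ 45 * (1 / JJ N * M * Z) :=
    mul_le_mul_of_nonneg_right h11 (by positivity)
  have h13 : 2 * K ^ 40 / JJ N * M * Z + 2 * K ^ 40 / JJ N * M * Z + 3 / JJ N * M * Z =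
      (4 * K ^ 40 + 3) * (1 / JJ N * M * Z) := by ring
  have h14 : K ^ 45 / JJ N * M * Z = K ^ 45 * (1 / JJ N * M * Z) := by ring
  rw [h14]
  linarith

end Pool.Agent.Lib.T3F
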