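import Pool.Agent.Lib.MP_7b7e48_nt.T3F.Def
import Pool.Agent.Lib.MP_7b7e48_nt.T3F.Invz
import Pool.Agent.Lib.MP_7b7e48_nt.TCF.Usl0

/-!
# Module Thb (90 minutes): numbers of classes of `ZX` with `lam = χ`

`K = log N`, `M = J1 rho_X`, `M' = J0 rho_Y`, `σ = sgm`, `Z = ZX`. For a unit `x` let `V x = ∑_j [lam X_j ≠ FF x] ph X_j`. PROOF. `sum_split`: the sum is over `x ∈ Z` with `GD x` and `j` with `Rgh1 X_j`, `¬ DA X_j`; `lam X_j = χ x = - FF x ≠ FF x`, so the sum is `≤ ∑_{x ∈ Z, GD} V x`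
(`pht = ph`). Classes with `¬ Typ 1 x` or `x ∈ A`: `V x ≤ PT x ≤ 3 M`: together `≤ 3 M (K ^ 43 / JJ + 1 / JJ) |Z|` (`zbad`, `acz`). The other classes: `H x = V x` if `GD x`, `Typ 1 x`, `x ∉ A`, and `0` otherwise;
`∑_{x ∈ Z} H x ≤ (2 K ^ 2 / M) ∑_{a ∈ AD} pht a H a` (`zsum`). For `a` with `pht a > M / JJ`: `H a ≤ 3 M`, by `sprs_pht`, `big1`, `big2` these `a` contribute `≤ 6 K ^ 2 * 2 K ^ 10 JJ σ N ≤ (1 / JJ) M σ N * K ^ 13` (`M ≥ JJ ^ 3`). For `a` with `pht a ≤ M / JJ`: by `maj4` and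
`Typ.y1`, `uu_le` (`l = 1`, `b = a`): `H a ≤ (5 / 4) UU 1 a / PY a ≤ (5 / 4) (UUr 1 a / PY a + ph a) ≤ (5 / 4) (K ^ 2 / M' * UUr 1 a + M / JJ)`. By `sprs_pht`, `uu1`, `uu2`: `∑_{AD} pht a UUr 1 a ≤ 2 K ^ 20 / JJ * M' M ^ 2 σ N`, and `tot1`, `tot2`: `∑_{AD} pht a ≤ 2 K ^ 5 M σ N`.
Total `≤ K ^ 30 / JJ * M σ N`; finally `σ N ≤ K ^ 20 |Z|` (`lbm`).
-/

set_option autoImplicit false

open Finset

namespace Pool.Agent.Lib.T3F

open Pool.Agent.Lib.TCF

open Pool.Agent.Lib.RG hiding RR sig Good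
open Pool.Agent.Lib.RH
open Pool.Agent.Lib.MP_45349e_nt.LS (lam)

variable {P : Prm} {N : ℕ} [NeZero N] {D : Dat} {Lk : ℕ → ℕ → ℕ → ℕ → Prop} {Bd : ℕ → ℕ → Prop}
  {A : Finset (ZMod N)} {χ : DirichletCharacter ℂ N}

omit [NeZero N] in
/-- the final comparison -/
private theorem Thb_num {K J M M' σ n z : ℝ} (hK : (10 : ℝ) ^ 9 ≤ K) (hJ : 1 ≤ J) (hM : J ^ 3 ≤ M)
    (hM' : 0 < M') (hs0 : 0 ≤ σ * n) (hz : σ * n ≤ K ^ 20 * z) (hz0 : 0 ≤ z) :
    3 * M * (K ^ 43 / J * z) + 3 * M * (1 / J * z) + (2 * K ^ 2 / M *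
      (3 * M * (K ^ 6 * J * σ * n + K ^ 10 * J * σ * n) + 4 / 3 * (K ^ 2 / M' *
        (K ^ 20 / J * M' * M ^ 2 * σ * n + K ^ 20 / J * M' * M ^ 2 * σ * n) +
        M / J * (M * σ * n + K ^ 5 * M * σ * n))) +
      4 / 3 * (K ^ 2 / M') * (σ * n * (M * M') / J ^ 2)) ≤ K ^ 55 / J * M * z := by
  have hK1 : (1 : ℝ) ≤ K := le_trans (by norm_num) hK
  have hK100 : (100 : ℝ) ≤ K := le_trans (by norm_num) hK
  have hJ0 : 0 < J := by linarith
  have hM0 : 0 < M := lt_of_lt_of_le (by positivity) hM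
  obtain ⟨t, ht⟩ : ∃ t : ℝ, t = M / J := ⟨_, rfl⟩
  have ht0 : 0 < t := by
    rw [ht]
    positivity
  have hJt : J ≤ t := by
    rw [ht, le_div_iff₀ hJ0]
    calc J * J = J ^ 2 := by ring
      _ ≤ J ^ 3 := pow_le_pow_right₀ hJ (by norm_num)
      _ ≤ M := hM
  obtain ⟨s, hs⟩ : ∃ s : ℝ, s = σ * n := ⟨_, rfl⟩
  rw [← hs] at hs0 hz
  have e1 : 3 * M * (K ^ 43 / J * z) + 3 * M * (1 / J * z) = (3 * K ^ 43 + 3) * (t * z) := by
    rw [ht]
    field_simp
  have e2 : 2 * K ^ 2 / M *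
      (3 * M * (K ^ 6 * J * σ * n + K ^ 10 * J * σ * n) + 4 / 3 * (K ^ 2 / M' *
        (K ^ 20 / J * M' * M ^ 2 * σ * n + K ^ 20 / J * M' * M ^ 2 * σ * n) +
        M / J * (M * σ * n + K ^ 5 * M * σ * n))) =
      6 * (K ^ 8 + K ^ 12) * (J * s) + (16 / 3 * K ^ 24 + 8 / 3 * (K ^ 2 + K ^ 7)) * (t * s) := by
    rw [ht, hs]
    field_simp
    ring
  have e4 : 4 / 3 * (K ^ 2 / M') * (σ * n * (M * M') / J ^ 2) ≤ 4 / 3 * K ^ 2 * (t * s) := by
    have h1 : 4 / 3 * (K ^ 2 / M') * (σ * n * (M * M') / J ^ 2) = 4 / 3 * K ^ 2 * (t * s) * (1 / J) := by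
      rw [ht, hs]
      field_simp
    rw [h1]
    refine mul_le_of_le_one_right (by positivity) ?_
    rw [div_le_one hJ0]
    exact hJ
  have e3 : K ^ 55 / J * M * z = K ^ 55 * (t * z) := by
    rw [ht]
    field_simp
  rw [e1, e2, e3]
  have h1 : 6 * (K ^ 8 + K ^ 12) * (J * s) ≤ 6 * (K ^ 8 + K ^ 12) * (t * s) :=
    mul_le_mul_of_nonneg_left (mul_le_mul_of_nonneg_right hJt hs0) (by positivity)
  have hts : t * s ≤ K ^ 20 * (t * z) := by
    calc t * s ≤ t * (K ^ 20 * z) := mul_le_mul_of_nonneg_left hz ht0.le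
      _ = K ^ 20 * (t * z) := by ring
  have p8 : K ^ 8 ≤ K ^ 24 := pow_le_pow_right₀ hK1 (by norm_num)
  have p12 : K ^ 12 ≤ K ^ 24 := pow_le_pow_right₀ hK1 (by norm_num)
  have p2 : K ^ 2 ≤ K ^ 24 := pow_le_pow_right₀ hK1 (by norm_num)
  have p7 : K ^ 7 ≤ K ^ 24 := pow_le_pow_right₀ hK1 (by norm_num)
  have p24 : 0 < K ^ 24 := by positivity
  have h2 : 6 * (K ^ 8 + K ^ 12) + (16 / 3 * K ^ 24 + 8 / 3 * (K ^ 2 + K ^ 7)) + 4 / 3 * K ^ 2 ≤ K ^ 25 := by
    have h3 : K ^ 25 = K * K ^ 24 := by ring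
    rw [h3]
    nlinarith
  have h4 : 6 * (K ^ 8 + K ^ 12) * (J * s) + (16 / 3 * K ^ 24 + 8 / 3 * (K ^ 2 + K ^ 7)) * (t * s) +
      4 / 3 * (K ^ 2 / M') * (σ * n * (M * M') / J ^ 2) ≤ K ^ 45 * (t * z) := by
    calc 6 * (K ^ 8 + K ^ 12) * (J * s) + (16 / 3 * K ^ 24 + 8 / 3 * (K ^ 2 + K ^ 7)) * (t * s) +
          4 / 3 * (K ^ 2 / M') * (σ * n * (M * M') / J ^ 2) ≤
          (6 * (K ^ 8 + K ^ 12) + (16 / 3 * K ^ 24 + 8 / 3 * (K ^ 2 + K ^ 7)) + 4 / 3 * K ^ 2) * (t * s) := by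
          linarith
      _ ≤ K ^ 25 * (t * s) := mul_le_mul_of_nonneg_right h2 (by positivity)
      _ ≤ K ^ 25 * (K ^ 20 * (t * z)) := mul_le_mul_of_nonneg_left hts (by positivity)
      _ = K ^ 45 * (t * z) := by ring
  have q43 : K ^ 43 ≤ K ^ 54 := pow_le_pow_right₀ hK1 (by norm_num)
  have q45 : K ^ 45 ≤ K ^ 54 := pow_le_pow_right₀ hK1 (by norm_num)
  have q1 : 1 ≤ K ^ 54 := one_le_pow₀ hK1
  have h5 : 3 * K ^ 43 + 3 + K ^ 45 ≤ K ^ 55 := by
    have h6 : K ^ 55 = K * K ^ 54 := by ring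
    rw [h6]
    nlinarith
  have htz : 0 ≤ t * z := by positivity
  calc (3 * K ^ 43 + 3) * (t * z) + (6 * (K ^ 8 + K ^ 12) * (J * s) +
        (16 / 3 * K ^ 24 + 8 / 3 * (K ^ 2 + K ^ 7)) * (t * s) +
        4 / 3 * (K ^ 2 / M') * (σ * n * (M * M') / J ^ 2)) ≤
        (3 * K ^ 43 + 3 + K ^ 45) * (t * z) := by linarith
    _ ≤ K ^ 55 * (t * z) := mul_le_mul_of_nonneg_right h5 htz

open Classical in
/-- reduction to the classes of `ZX` -/
private theorem Thb_one (E : EnvX3 P N D Lk Bd A χ) (V : ZMod N → ℝ)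
    (hV : ∀ x, V x = ∑ j ∈ Ico D.J2 D.J1,
      (if lam (x.val + j * N) ≠ FF P N D x then ph P N D.BX (x.val + j * N) else 0)) :
    ∑ a ∈ AG P N D, pht D.BX a * (if ¬ DA χ a ∧ ((a : ℕ) : ZMod N) ∈ ZX P N D χ then 1 else 0) ≤
      ∑ x ∈ ZX P N D χ, (if GD N D x then V x else 0) := by
  obtain ⟨W, hW⟩ : ∃ W : ℕ → ℝ, ∀ a, W a = if Rgh1 P N a ∧ GD N D ((a : ℕ) : ZMod N) ∧
    ¬ DA χ a ∧ ((a : ℕ) : ZMod N) ∈ ZX P N D χ then pht D.BX a else 0 :=
    ⟨fun a => _, fun a => rfl⟩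
  have h1 : ∑ a ∈ AG P N D,
      pht D.BX a * (if ¬ DA χ a ∧ ((a : ℕ) : ZMod N) ∈ ZX P N D χ then 1 else 0) =
      ∑ a ∈ (Ioc (D.J2 * N) (D.J1 * N)).filter (fun a => a.Coprime N), W a := by
    unfold AG
    rw [sum_filter, sum_filter]
    refine sum_congr rfl fun a _ => ?_
    rw [hW]
    by_cases h : Rgh1 P N a ∧ GD N D ((a : ℕ) : ZMod N)
    · rw [if_pos h, if_pos h.1.1]
      by_cases h' : ¬ DA χ a ∧ ((a : ℕ) : ZMod N) ∈ ZX P N D χ
      · rw [if_pos h', if_pos ⟨h.1, h.2, h'⟩, mul_one]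
      · rw [if_neg h', if_neg fun h2 => h' h2.2.2, mul_zero]
    · rw [if_neg h]
      by_cases hc : a.Coprime N
      · rw [if_pos hc, if_neg fun h2 => h ⟨h2.1, h2.2.1⟩]
      · rw [if_neg hc]
  have hV0 : ∀ x, 0 ≤ V x := by
    intro x
    rw [hV]
    refine sum_nonneg fun j _ => ?_
    split_ifs
    · exact ph_nonneg _ _ _ _
    · exact le_rfl
  rw [h1, sum_split E.hyp.nx W]
  have h2 : ∀ x ∈ (Finset.univ.filter fun x : ZMod N => IsUnit x),
      ∑ j ∈ Ico D.J2 D.J1, W (x.val + j * N) ≤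
        if x ∈ ZX P N D χ then (if GD N D x then V x else 0) else 0 := by
    intro x hx
    have hu : IsUnit x := (mem_filter.1 hx).2
    have hcl : ∀ j : ℕ, ((x.val + j * N : ℕ) : ZMod N) = x := by
      intro j
      push_cast
      rw [ZMod.natCast_zmod_val, ZMod.natCast_self, mul_zero, add_zero]
    by_cases hz : x ∈ ZX P N D χ
    · rw [if_pos hz]
      by_cases hg : GD N D x
      · rw [if_pos hg, hV]
        refine sum_le_sum fun j _ => ?_
        rw [hW, hcl j]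
        by_cases h3 : Rgh1 P N (x.val + j * N) ∧ GD N D x ∧ ¬ DA χ (x.val + j * N) ∧
          x ∈ ZX P N D χ
        · rw [if_pos h3]
          have h4 : (lam (x.val + j * N) : ℂ) = χ x := by
            have h5 := h3.2.2.1
            unfold DA at h5
            rw [hcl j] at h5
            exact not_not.1 h5
          have h6 : (FF P N D x : ℂ) = -χ x := by
            unfold ZX at hz
            exact (mem_filter.1 hz).2.2.2
          have h7 : lam (x.val + j * N) ≠ FF P N D x := by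
            intro h8
            rw [h8, h6] at h4
            have h9 : χ x = 0 := by linear_combination (-1 / 2 : ℂ) * h4
            rw [h9, neg_zero] at h6
            have h10 : FF P N D x = 0 := by exact_mod_cast h6
            rcases ff_pm (P := P) (D := D) hu with h11 | h11
            · rw [h11] at h10
              norm_num at h10
            · rw [h11] at h10
              norm_num at h10
          rw [if_pos h7]
          unfold ph
          rw [if_pos (show (x.val + j * N).Coprime N ∧ Rough (MM P N) (x.val + j * N) from h3.1)]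
        · rw [if_neg h3]
          split_ifs
          · exact ph_nonneg _ _ _ _
          · exact le_rfl
      · rw [if_neg hg]
        refine le_of_eq (sum_eq_zero fun j _ => ?_)
        rw [hW, hcl j, if_neg fun h3 => hg h3.2.1]
    · rw [if_neg hz]
      refine le_of_eq (sum_eq_zero fun j _ => ?_)
      rw [hW, hcl j, if_neg fun h3 => hz h3.2.2.2]
  have h0 : ∀ x, (0 : ℝ) ≤ if x ∈ ZX P N D χ then (if GD N D x then V x else 0) else 0 := by
    intro x
    split_ifs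
    · exact hV0 x
    · exact le_rfl
    · exact le_rfl
  refine (sum_le_sum h2).trans ?_
  refine (sum_le_sum_of_subset_of_nonneg (filter_subset _ _) fun x _ _ => h0 x).trans ?_
  rw [← sum_filter]
  refine le_of_eq (sum_congr ?_ fun _ _ => rfl)
  ext x
  rw [mem_filter]
  exact ⟨fun h => h.2, fun h => ⟨mem_univ _, h⟩⟩

open Classical in
theorem thb (hP : P.Ok) (E : EnvX3 P N D Lk Bd A χ) (hW : WT P N) :
    ∑ a ∈ AG P N D, pht D.BX a * (if ¬ DA χ a ∧ ((a : ℕ) : ZMod N) ∈ ZX P N D χ then 1 else 0) ≤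
      (Real.log N) ^ 55 / JJ N * (D.J1 * rho D.BX) * (ZX P N D χ).card := by
  have hn := E.hyp.nx
  have hD := E.hyp.ok
  obtain ⟨V, hV⟩ : ∃ V : ZMod N → ℝ, ∀ x, V x = ∑ j ∈ Ico D.J2 D.J1,
      (if lam (x.val + j * N) ≠ FF P N D x then ph P N D.BX (x.val + j * N) else 0) :=
    ⟨fun x => _, fun x => rfl⟩
  obtain ⟨K, hKd⟩ : ∃ K : ℝ, K = Real.log N := ⟨_, rfl⟩
  obtain ⟨M, hMd⟩ : ∃ M : ℝ, M = D.J1 * rho D.BX := ⟨_, rfl⟩
  obtain ⟨M', hM'd⟩ : ∃ M' : ℝ, M' = D.J0 * rho D.BY := ⟨_, rfl⟩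
  obtain ⟨J, hJd⟩ : ∃ J : ℝ, J = (JJ N : ℝ) := ⟨_, rfl⟩
  have hK9 : (10 : ℝ) ^ 9 ≤ K := by
    rw [hKd]
    exact hK hn
  have hK0 : 0 < K := lt_of_lt_of_le (by norm_num) hK9
  have hJ1 : 1 ≤ J := by
    rw [hJd]
    exact_mod_cast jj_one hn
  have hJ0 : 0 < J := by linarith
  have hM3 : J ^ 3 ≤ M := by
    rw [hJd, hMd]
    exact hD.jx
  have hM0 : 0 < M := by
    rw [hMd]
    exact mr_pos_X hn hD
  have hM'0 : 0 < M' := by
    rw [hM'd]
    exact mr_pos_Y hn hD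
  have hV0 : ∀ x, 0 ≤ V x := by
    intro x
    rw [hV]
    refine sum_nonneg fun j _ => ?_
    split_ifs
    · exact ph_nonneg _ _ _ _
    · exact le_rfl
  have hVG : ∀ x, GD N D x → V x ≤ 3 * M := by
    intro x hx
    have h1 : V x ≤ PX P N D x := by
      rw [hV]
      unfold PX
      refine sum_le_sum fun j _ => ?_
      split_ifs
      · exact le_rfl
      · exact ph_nonneg _ _ _ _
    have h2 : PT N D x ≤ 3 * M := by
      rw [hMd]
      exact hx
    exact h1.trans ((px_le_pt x).trans h2)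
  have hMul : Mul P N 1 := Or.inl rfl
  -- the functions on the classes
  obtain ⟨R, hR⟩ : ∃ R : ZMod N → ℝ, ∀ x, R x = 4 / 3 * (K ^ 2 / M') * AP P N D Lk Bd 1 x :=
    ⟨fun x => _, fun x => rfl⟩
  have hR0 : ∀ x, 0 ≤ R x := by
    intro x
    rw [hR]
    exact mul_nonneg (by positivity) (ap_nonneg 1 x)
  obtain ⟨H, hH⟩ : ∃ H : ZMod N → ℝ, ∀ x, H x =
    if GD N D x ∧ Typ P N D Lk Bd 1 x ∧ x ∉ A ∧ IsUnit x then max (V x - R x) 0 else 0 :=
    ⟨fun x => _, fun x => rfl⟩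
  have hH0 : ∀ x, 0 ≤ H x := by
    intro x
    rw [hH]
    split_ifs
    · exact le_max_right _ _
    · exact le_rfl
  have hRs : ∑ x ∈ ZX P N D χ, R x ≤ 4 / 3 * (K ^ 2 / M') * (sgm P χ * N * (M * M') / J ^ 2) := by
    have h1 : ∑ x ∈ ZX P N D χ, R x = 4 / 3 * (K ^ 2 / M') * ∑ x ∈ ZX P N D χ, AP P N D Lk Bd 1 x := by
      rw [mul_sum]
      exact sum_congr rfl fun x _ => hR x
    rw [h1]
    refine mul_le_mul_of_nonneg_left ?_ (by positivity)
    have h2 := E.ap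
    rw [← hMd, ← hM'd, ← hJd] at h2
    refine le_trans ?_ h2
    rw [← sum_filter]
    refine sum_le_sum_of_subset_of_nonneg ?_ (fun x _ _ => ap_nonneg 1 x)
    intro x hx
    rw [mem_filter]
    unfold ZX at hx
    exact ⟨mem_univ _, (mem_filter.1 hx).2.1⟩
  have hsplit : ∑ x ∈ ZX P N D χ, (if GD N D x then V x else 0) ≤
      3 * M * (((ZX P N D χ).filter fun x => ¬ Typ P N D Lk Bd 1 x).card : ℝ) +
      3 * M * (A.card : ℝ) + (∑ x ∈ ZX P N D χ, H x + ∑ x ∈ ZX P N D χ, R x) := by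
    have h1 : (((ZX P N D χ).filter fun x => ¬ Typ P N D Lk Bd 1 x).card : ℝ) =
        ∑ x ∈ ZX P N D χ, (if ¬ Typ P N D Lk Bd 1 x then (1 : ℝ) else 0) := by
      rw [← sum_filter, sum_const, nsmul_eq_mul, mul_one]
    have h2 : ∑ x ∈ ZX P N D χ, (if x ∈ A then (1 : ℝ) else 0) ≤ (A.card : ℝ) := by
      rw [← sum_filter, sum_const, nsmul_eq_mul, mul_one]
      have h3 : ((ZX P N D χ).filter fun x => x ∈ A).card ≤ A.card :=
        card_le_card fun x hx => (mem_filter.1 hx).2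
      exact_mod_cast h3
    have h4 : ∑ x ∈ ZX P N D χ, (if GD N D x then V x else 0) ≤
        ∑ x ∈ ZX P N D χ, (3 * M * (if ¬ Typ P N D Lk Bd 1 x then (1 : ℝ) else 0) +
          3 * M * (if x ∈ A then (1 : ℝ) else 0) + (H x + R x)) := by
      refine sum_le_sum fun x hx => ?_
      have hu : IsUnit x := by
        unfold ZX at hx
        exact (mem_filter.1 hx).2.1
      have h5 := hH0 x
      have h5' := hR0 x
      have h6 : (0 : ℝ) ≤ 3 * M * (if ¬ Typ P N D Lk Bd 1 x then (1 : ℝ) else 0) := by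
        refine mul_nonneg (by linarith) ?_
        by_cases h : ¬ Typ P N D Lk Bd 1 x
        · rw [if_pos h]
          exact zero_le_one
        · rw [if_neg h]
      have h7 : (0 : ℝ) ≤ 3 * M * (if x ∈ A then (1 : ℝ) else 0) := by
        refine mul_nonneg (by linarith) ?_
        by_cases h : x ∈ A
        · rw [if_pos h]
          exact zero_le_one
        · rw [if_neg h]
      by_cases hg : GD N D x
      · rw [if_pos hg]
        by_cases ht : Typ P N D Lk Bd 1 x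
        · by_cases ha : x ∈ A
          · rw [if_pos ha] at h7 ⊢
            have h8 := hVG x hg
            linarith
          · have h8 : V x - R x ≤ H x := by
              rw [hH, if_pos ⟨hg, ht, ha, hu⟩]
              exact le_max_left _ _
            linarith
        · have h8 : (if ¬ Typ P N D Lk Bd 1 x then (1 : ℝ) else 0) = 1 := if_pos ht
          rw [h8]
          have h9 := hVG x hg
          linarith
      · rw [if_neg hg]
        linarith
    refine h4.trans ?_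
    rw [sum_add_distrib, sum_add_distrib, ← mul_sum, ← mul_sum, ← h1, sum_add_distrib]
    have h5 := mul_le_mul_of_nonneg_left h2 (show 0 ≤ 3 * M by linarith)
    linarith
  -- the typical classes
  have hkey : ∀ a : ℕ, H ((a : ℕ) : ZMod N) ≤ 3 * M * (if M / J < pht D.BX a then 1 else 0) +
      4 / 3 * (K ^ 2 / M' * UUr P N D Lk Bd 1 a + M / J * 1) := by
    intro a
    obtain ⟨x, hx⟩ : ∃ x : ZMod N, x = ((a : ℕ) : ZMod N) := ⟨_, rfl⟩
    rw [← hx]
    have hU0 : 0 ≤ UUr P N D Lk Bd 1 a := uur_nonneg 1 a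
    have hr0 : 0 ≤ 4 / 3 * (K ^ 2 / M' * UUr P N D Lk Bd 1 a + M / J * 1) := by positivity
    by_cases hc : GD N D x ∧ Typ P N D Lk Bd 1 x ∧ x ∉ A ∧ IsUnit x
    · rw [hH, if_pos hc]
      obtain ⟨hg, ht, ha, hu⟩ := hc
      by_cases hb : M / J < pht D.BX a
      · rw [if_pos hb]
        have h1 := hVG x hg
        have h1' := hR0 x
        refine max_le ?_ ?_
        · linarith
        · linarith
      · rw [if_neg hb]
        push Not at hb
        have h1 := maj4 E.hyp hu ha ht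
        rw [← hV x] at h1
        have h2 := uu_le (P := P) (Lk := Lk) (Bd := Bd) hD 1 a
        rw [← hx, one_mul] at h2
        have h3 : 0 < PY P N D x := (typ_pos E.hyp ht).2.1
        have h4 : M' / K ^ 2 ≤ PY P N D x := by
          rw [hM'd, hKd]
          exact ht.y1
        have h5 : ph P N D.BX a ≤ M / J := (ph_le_pht P N D.BX a).trans hb
        have h6 : 1 ≤ PY P N D x * (K ^ 2 / M') := by
          calc (1 : ℝ) = M' / K ^ 2 * (K ^ 2 / M') := by
                field_simp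
            _ ≤ PY P N D x * (K ^ 2 / M') := mul_le_mul_of_nonneg_right h4 (by positivity)
        have h7 : UUr P N D Lk Bd 1 a ≤ PY P N D x * (K ^ 2 / M') * UUr P N D Lk Bd 1 a :=
          le_mul_of_one_le_left hU0 h6
        have h8 : ph P N D.BX a * PY P N D x ≤ M / J * PY P N D x :=
          mul_le_mul_of_nonneg_right h5 h3.le
        have h12 : AP P N D Lk Bd 1 x ≤ PY P N D x * (K ^ 2 / M') * AP P N D Lk Bd 1 x :=
          le_mul_of_one_le_left (ap_nonneg 1 x) h6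
        have h9 : PY P N D x * (V x - R x) ≤
            PY P N D x * (4 / 3 * (K ^ 2 / M' * UUr P N D Lk Bd 1 a + M / J * 1)) := by
          have h13 : PY P N D x * (V x - R x) = PY P N D x * V x -
              4 / 3 * (PY P N D x * (K ^ 2 / M') * AP P N D Lk Bd 1 x) := by
            rw [hR]
            ring
          rw [h13]
          have h10 : PY P N D x * (4 / 3 * (K ^ 2 / M' * UUr P N D Lk Bd 1 a + M / J * 1)) =
              4 / 3 * (PY P N D x * (K ^ 2 / M') * UUr P N D Lk Bd 1 a + M / J * PY P N D x) := by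
            ring
          rw [h10]
          linarith
        have h11 := le_of_mul_le_mul_left h9 h3
        refine max_le ?_ ?_
        · linarith
        · linarith
    · rw [hH, if_neg hc]
      have h1 : (0 : ℝ) ≤ 3 * M * (if M / J < pht D.BX a then 1 else 0) := by
        refine mul_nonneg (by linarith) ?_
        split_ifs
        · exact zero_le_one
        · exact le_rfl
      linarith
  have hAD : ∑ a ∈ AD P D χ, pht D.BX a * H ((a : ℕ) : ZMod N) ≤
      3 * M * ∑ a ∈ AD P D χ, pht D.BX a * (if M / J < pht D.BX a then 1 else 0) +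
      4 / 3 * (K ^ 2 / M' * ∑ a ∈ AD P D χ, pht D.BX a * UUr P N D Lk Bd 1 a +
        M / J * ∑ a ∈ AD P D χ, pht D.BX a * 1) := by
    rw [mul_sum, mul_sum, mul_sum, ← sum_add_distrib, mul_sum, ← sum_add_distrib]
    refine sum_le_sum fun a _ => ?_
    refine (mul_le_mul_of_nonneg_left (hkey a) (pht_nonneg _ _)).trans (le_of_eq ?_)
    ring
  have hb := sprs_pht E (fun a => if M / J < pht D.BX a then 1 else 0) (fun a => by
    show (0 : ℝ) ≤ if M / J < pht D.BX a then 1 else 0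
    split_ifs
    · exact zero_le_one
    · exact le_rfl)
  have hu := sprs_pht E (fun a => UUr P N D Lk Bd 1 a) (fun a => uur_nonneg 1 a)
  have ho := sprs_pht E (fun _ => 1) (fun _ => zero_le_one)
  have hb1 := big1 E
  have hb2 := big2 E hW
  have hu1 := uu1 E
  have hu2 := uu2 E
  have ho1 := tot1 E
  have ho2 := tot2 E hW
  have hzs := zsum E H hH0
  have hzb := zbad hP E hW hMul
  have hac := acz hP E
  have hlb := lbm hP E
  have hone := Thb_one E V hV
  rw [← hMd, ← hJd] at hb1 hb2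
  rw [← hMd, ← hM'd, ← hJd] at hu1 hu2
  rw [← hMd] at ho1 ho2 hzs
  rw [← hJd] at hzb hac
  rw [← hKd] at hb1 hb2 hu1 hu2 ho2 hzs hzb hlb
  have hs0 : 0 ≤ sgm P χ * N := mul_nonneg (sgm_pos E).le (Nat.cast_nonneg _)
  have hz : sgm P χ * N ≤ K ^ 20 * (ZX P N D χ).card := by
    rw [div_le_iff₀ (by positivity)] at hlb
    linarith
  have hnum := Thb_num (M' := M') hK9 hJ1 hM3 hM'0 hs0 hz (Nat.cast_nonneg _)
  rw [← hMd, ← hJd, ← hKd]
  refine hone.trans (hsplit.trans (le_trans ?_ hnum))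
  refine add_le_add (add_le_add (mul_le_mul_of_nonneg_left hzb (by linarith))
    (mul_le_mul_of_nonneg_left hac (by linarith))) ?_
  refine add_le_add ?_ hRs
  refine hzs.trans (mul_le_mul_of_nonneg_left ?_ (by positivity))
  refine hAD.trans ?_
  refine add_le_add (mul_le_mul_of_nonneg_left ?_ (by linarith))
    (mul_le_mul_of_nonneg_left (add_le_add (mul_le_mul_of_nonneg_left ?_ (by positivity))
      (mul_le_mul_of_nonneg_left ?_ (by positivity))) (by norm_num))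
  · exact hb.trans (add_le_add hb1 hb2)
  · exact hu.trans (add_le_add hu1 hu2)
  · exact ho.trans (add_le_add ho1 ho2)

end Pool.Agent.Lib.T3F
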