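import Pool.Agent.Lib.MP_7b7e48_nt.T3F.Def
import Pool.Agent.Lib.MP_7b7e48_nt.T3F.Thn
import Pool.Agent.Lib.MP_7b7e48_nt.RG.FIN

/-!
# Module Finz (60 minutes): contradiction

Template: `RG/FIN.lean`. `K = log N`, `Z = ZX`, `h = 1_Z`, `S = ∑ h ^ 2 = |Z| > 0` (`lbm`, `sgm_pos`). `MassX` (`EnvX.mass`) with `θ = 1`, `ε = K ^ 60 / JJ`, `uslx_z`, `blq` (`K ^ 60 ε ≤ 1`): `χ0` with `φ ∑_{χ' ≠ χ0} |bch h χ'| ^ 2 ≤ K ^ 50 ε |Z| ≤ |Z| / 2`, and every `χ'` with
`Blk P N 9 1 χ'` equals `χ0`; the principal character satisfies `Blk P N 9 1 1` (it is `1` on the blocks: primes not dividing `N`), so `χ0 = 1`. By Parseval (`chParsF`) `φ |bch h 1| ^ 2 ≥ |Z| / 2`, and `bch h 1 = |Z| / φ` (elements of `Z` are units), so `|Z| ≥ φ / 2 ≥ N / (2 K)` (`Num.ph`). But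
`|Z| ≤ #{units, FF ≠ χ} ≤ K ^ 102 N / JJ` (`EnvX.agree`; `FF x = - χ x ≠ χ x`). Contradiction (`JJ ≥ K ^ 1000`).
-/

set_option autoImplicit false

open Finset

namespace Pool.Agent.Lib.T3F

open Pool.Agent.Lib.TCF

open Pool.Agent.Lib.RG hiding RR sig Good
open Pool.Agent.Lib.RH
open Pool.Agent.Lib.MP_45349e_nt.LS (lam)

variable {P : Prm} {N : ℕ} [NeZero N] {D : Dat} {Lk : ℕ → ℕ → ℕ → ℕ → Prop} {Bd : ℕ → ℕ → Prop}
  {A : Finset (ZMod N)} {χ : DirichletCharacter ℂ N}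

private theorem finz_sq (N : ℕ) [NeZero N] (Z : Finset (ZMod N)) [DecidablePred (· ∈ Z)] :
    ∑ x : ZMod N, (if x ∈ Z then (1 : ℝ) else 0) ^ 2 = Z.card := by
  have h1 : ∀ x : ZMod N, (if x ∈ Z then (1 : ℝ) else 0) ^ 2 = if x ∈ Z then (1 : ℝ) else 0 := by
    intro x
    split_ifs
    · norm_num
    · norm_num
  rw [Finset.sum_congr rfl fun x _ => h1 x, ← Finset.sum_filter, Finset.sum_const, nsmul_eq_mul, mul_one]
  congr 2
  ext x
  rw [Finset.mem_filter]
  exact ⟨fun hx => hx.2, fun hx => ⟨Finset.mem_univ _, hx⟩⟩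

private theorem finz_alg {a : ℝ} (ha : 0 < a) (b : ℝ) : a * (a⁻¹ * b) ^ 2 = b ^ 2 / a := by
  field_simp

theorem finz (hP : P.Ok) (E : EnvX3 P N D Lk Bd A χ) (hW : WT P N) : False := by
  classical
  have hn := E.hyp.nx.num
  have hK9 : (10 : ℝ) ^ 9 ≤ Real.log N := hn.K
  have hK2 : (2 : ℝ) ≤ Real.log N := le_trans (by norm_num) hK9
  have hK8 : (8 : ℝ) ≤ Real.log N := le_trans (by norm_num) hK9
  have hK1 : (1 : ℝ) ≤ Real.log N := by linarith
  have hK0 : 0 < Real.log N := by linarith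
  have hN0 : (0 : ℝ) < N := by
    have := N_pos hn
    have h2 : (2 : ℝ) ≤ N := by exact_mod_cast this
    linarith
  have hJ : ∀ m : ℕ, m ≤ 1000 → (Real.log N) ^ m ≤ JJ N := fun m hm =>
    (pow_le_pow_right₀ hK1 hm).trans hn.J1
  have hJ0 : (0 : ℝ) < JJ N := lt_of_lt_of_le (pow_pos hK0 _) (hJ 1 (by norm_num))
  have hσ := sgm_pos E
  have hZ := lbm hP E
  have hZ0 : (0 : ℝ) < (ZX P N D χ).card := lt_of_lt_of_le (by positivity) hZ
  -- membership facts
  have hZu : ∀ x ∈ ZX P N D χ, IsUnit x ∧ (FF P N D x : ℂ) = -χ x := by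
    intro x hx
    unfold ZX at hx
    rw [Finset.mem_filter] at hx
    exact ⟨hx.2.1, hx.2.2.2⟩
  have hε0 : 0 ≤ (Real.log N) ^ 60 / JJ N := by positivity
  have hsum := finz_sq N (ZX P N D χ)
  have hus := uslx_z hP E hW
  have hmass := E.mass 1 ((Real.log N) ^ 60 / JJ N) (fun x => if x ∈ ZX P N D χ then (1 : ℝ) else 0)
    (fun n => if DA χ n then (1 : ℝ) else 0) (LX χ) (by norm_num) hε0 (by
      rw [← mul_div_assoc, div_le_one hJ0, ← pow_add]
      exact hJ _ (by norm_num)) (by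
      rw [hsum]
      exact hZ0) (by
      intro i hi
      exact blq E hi) hus
  obtain ⟨χ0, hmain, -, huniq⟩ := hmass
  -- the principal character
  have h1blk : Blk P N 9 1 (1 : DirichletCharacter ℂ N) := by
    intro i _
    have hz : ∀ l ∈ block N (2 ^ i), ‖(1 : DirichletCharacter ℂ N) (l : ZMod N) - ((1 : ℝ) : ℂ)‖ ^ 2 = 0 := by
      intro l hl
      have hl3 := mem_block.1 hl
      have hu : IsUnit (l : ZMod N) :=
        unit_of_coprime ((Nat.Prime.coprime_iff_not_dvd hl3.2.2.1).2 hl3.2.2.2)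
      rw [MulChar.one_apply hu]
      simp
    rw [Finset.sum_congr rfl hz, Finset.sum_const_zero]
    positivity
  have hχ0 : (1 : DirichletCharacter ℂ N) = χ0 := huniq 1 h1blk
  subst hχ0
  rw [hsum] at hmain
  have hphi : (0 : ℝ) < (N.totient : ℝ) := phi_pos
  -- Parseval
  have hpars := chParsF (fun x : ZMod N => (((if x ∈ ZX P N D χ then (1 : ℝ) else 0) : ℝ) : ℂ)) (by
    intro x hx
    show (((if x ∈ ZX P N D χ then (1 : ℝ) else 0) : ℝ) : ℂ) = 0
    rw [if_neg (fun hx' => hx (hZu x hx').1)]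
    simp)
  have hpars2 : ((ZX P N D χ).card : ℝ) = (N.totient : ℝ) * ∑ χ' : DirichletCharacter ℂ N,
      ‖bch (fun x : ZMod N => (((if x ∈ ZX P N D χ then (1 : ℝ) else 0) : ℝ) : ℂ)) χ'‖ ^ 2 := by
    rw [← hpars, ← hsum]
    refine Finset.sum_congr rfl fun x _ => ?_
    rw [Complex.norm_real, Real.norm_eq_abs, sq_abs]
  rw [← Finset.add_sum_erase Finset.univ _ (Finset.mem_univ (1 : DirichletCharacter ℂ N)), mul_add] at hpars2
  -- the coefficient of the principal character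
  have hb1 : bch (fun x : ZMod N => (((if x ∈ ZX P N D χ then (1 : ℝ) else 0) : ℝ) : ℂ))
      (1 : DirichletCharacter ℂ N) = (((N.totient : ℝ)⁻¹ * (ZX P N D χ).card : ℝ) : ℂ) := by
    unfold bch
    have e1 : ∀ y : ZMod N, (((if y ∈ ZX P N D χ then (1 : ℝ) else 0) : ℝ) : ℂ) *
        (starRingEnd ℂ) ((1 : DirichletCharacter ℂ N) y) =
        (((if y ∈ ZX P N D χ then (1 : ℝ) else 0) ^ 2 : ℝ) : ℂ) := by
      intro y
      by_cases hy : y ∈ ZX P N D χ
      · rw [if_pos hy, MulChar.one_apply (hZu y hy).1]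
        simp
      · rw [if_neg hy]
        simp
    rw [Finset.sum_congr rfl fun y _ => e1 y, ← Complex.ofReal_sum, hsum]
    push_cast
    rfl
  rw [hb1, Complex.norm_real, Real.norm_eq_abs, sq_abs] at hpars2
  -- lower bound for `|Z|`
  have hC : (Real.log N) ^ 50 * ((Real.log N) ^ 60 / JJ N * ((ZX P N D χ).card : ℝ)) ≤
      ((ZX P N D χ).card : ℝ) / 2 := by
    have h1 : (Real.log N) ^ 50 * ((Real.log N) ^ 60 / JJ N) ≤ 1 / 2 := by
      rw [← mul_div_assoc, div_le_div_iff₀ hJ0 (by norm_num), ← pow_add, one_mul]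
      calc (Real.log N) ^ (50 + 60) * 2 ≤ (Real.log N) ^ (50 + 60) * Real.log N :=
            mul_le_mul_of_nonneg_left hK2 (by positivity)
        _ = (Real.log N) ^ 111 := by ring
        _ ≤ JJ N := hJ _ (by norm_num)
    calc (Real.log N) ^ 50 * ((Real.log N) ^ 60 / JJ N * ((ZX P N D χ).card : ℝ)) =
          ((Real.log N) ^ 50 * ((Real.log N) ^ 60 / JJ N)) * ((ZX P N D χ).card : ℝ) := by ring
      _ ≤ 1 / 2 * ((ZX P N D χ).card : ℝ) := mul_le_mul_of_nonneg_right h1 hZ0.le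
      _ = ((ZX P N D χ).card : ℝ) / 2 := by ring
  have hlow : (N.totient : ℝ) ≤ 2 * (ZX P N D χ).card := by
    have h1 : ((ZX P N D χ).card : ℝ) / 2 ≤
        (N.totient : ℝ) * ((N.totient : ℝ)⁻¹ * (ZX P N D χ).card) ^ 2 := by linarith
    have h2 : (N.totient : ℝ) * ((N.totient : ℝ)⁻¹ * (ZX P N D χ).card) ^ 2 =
        (ZX P N D χ).card ^ 2 / (N.totient : ℝ) := finz_alg hphi _
    rw [h2, div_le_div_iff₀ (by norm_num) hphi] at h1
    have h3 : ((ZX P N D χ).card : ℝ) * N.totient ≤ (ZX P N D χ).card * (2 * (ZX P N D χ).card) := by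
      calc ((ZX P N D χ).card : ℝ) * N.totient ≤ (ZX P N D χ).card ^ 2 * 2 := h1
        _ = _ := by ring
    exact le_of_mul_le_mul_left h3 hZ0
  -- upper bound for `|Z|`
  have hup : ((ZX P N D χ).card : ℝ) ≤ (Real.log N) ^ 102 * N / JJ N := by
    refine le_trans ?_ E.agree
    have : (ZX P N D χ).card ≤ ((Finset.univ : Finset (ZMod N)).filter fun x => IsUnit x ∧
        (FF P N D x : ℂ) ≠ χ x).card := by
      apply Finset.card_le_card
      intro x hx
      obtain ⟨hu, hv⟩ := hZu x hx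
      rw [Finset.mem_filter]
      refine ⟨Finset.mem_univ _, hu, ?_⟩
      rw [hv]
      intro h
      have h1 : χ x ≠ 0 := by
        obtain ⟨u, rfl⟩ := hu
        intro h0
        have h2 : χ (u : ZMod N) * χ ((u⁻¹ : (ZMod N)ˣ) : ZMod N) = 1 := by
          rw [← map_mul, Units.mul_inv, map_one]
        rw [h0, zero_mul] at h2
        exact zero_ne_one h2
      apply h1
      have h2 : (2 : ℂ) * χ x = 0 := by linear_combination -h
      rcases mul_eq_zero.1 h2 with h3 | h3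
      · norm_num at h3
      · exact h3
    exact_mod_cast this
  -- contradiction
  have hph := hn.ph
  have h1 : (N : ℝ) ≤ Real.log N * (2 * ((Real.log N) ^ 102 * N / JJ N)) :=
    hph.trans (mul_le_mul_of_nonneg_left (hlow.trans (by linarith)) hK0.le)
  have h2 : Real.log N * (2 * ((Real.log N) ^ 102 * N / JJ N)) = (N : ℝ) * (2 * (Real.log N) ^ 103 / JJ N) := by
    ring
  have h3 : 2 * (Real.log N) ^ 103 / JJ N < 1 := by
    rw [div_lt_one hJ0]
    calc 2 * (Real.log N) ^ 103 < Real.log N * (Real.log N) ^ 103 := by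
          apply mul_lt_mul_of_pos_right _ (by positivity)
          linarith
      _ = (Real.log N) ^ 104 := by ring
      _ ≤ JJ N := hJ _ (by norm_num)
  rw [h2] at h1
  have h4 : (N : ℝ) * (2 * (Real.log N) ^ 103 / JJ N) < N * 1 := mul_lt_mul_of_pos_left h3 hN0
  linarith

end Pool.Agent.Lib.T3F
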