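import Pool.Agent.Lib.MP_7b7e48_nt.T3F.Env
import Pool.Agent.Lib.MP_7b7e48_nt.T3F.Finz
import Pool.Agent.Lib.MP_7b7e48_nt.TCF.Sgl
import Pool.Agent.Lib.MP_7b7e48_nt.TCF.Numx
import Pool.Agent.Lib.MP_7b7e48_nt.TCF.Massx

/-!
# The frame theorem of TC3
-/

set_option autoImplicit false

open Finset

namespace Pool.Agent.Lib.T3F

open Pool.Agent.Lib.TCF
open Pool.Agent.Lib.RG hiding RR sig Good
open Pool.Agent.Lib.RH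
open Pool.Agent.Lib.MP_45349e_nt.LS (lam)

/-- the frame of TC3: the counting lemmas `Cnt` (for all data), the bound `BsIn` for the bad pairs and the input on the signs `Ap3` are
contradictory -/
theorem frame3 : ∃ κ0 : ℝ, 0 < κ0 ∧ κ0 ≤ 1 / 1000 ∧ ∀ κ : ℝ, 0 < κ → κ ≤ κ0 → ∃ c0 : ℝ, 0 < c0 ∧
    ∃ A0 : ℕ, ∀ P : Prm, P.Ok → P.kap = κ → P.c ≤ c0 → A0 ≤ P.C1 →
    ∃ N0 : ℕ, ∀ (N : ℕ) [NeZero N], N0 ≤ N → (∀ D' : Dat, D'.Ok P N → Cnt P N D') →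
    ∀ D : Dat, Base3 P N D → ∀ Bd : ℕ → ℕ → Prop, BsIn P N D Bd → Ap3 P N D Bd → False := by
  obtain ⟨κ0, hκ0, hκ1, hM⟩ := massx
  refine ⟨κ0, hκ0, hκ1, fun κ hκ hκm => ?_⟩
  obtain ⟨c0, hc0, A0, hM2⟩ := hM κ hκ hκm
  refine ⟨c0, hc0, A0, fun P hP hk hc hA => ?_⟩
  obtain ⟨N1, hM3⟩ := hM2 P hP hk hc hA
  obtain ⟨N2, hN2⟩ := numx P hP
  obtain ⟨N3, hN3⟩ := sgl P hP 1 one_pos
  obtain ⟨N5, hN5⟩ := wt_tot P hP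
  refine ⟨N1 + N2 + N3 + N5, ?_⟩
  intro N _ hN hC D hb Bd hB ha
  have hn := hN2 N (by omega)
  obtain ⟨D', A, χ, E⟩ := env_exists3 hP hn hb hC (fun D' hD' => hM3 N (by omega) hn D' hD' (hC D' hD'))
    (fun χ h1 h2 => (hN3 N (by omega) χ h1 h2).1) hB ha
  exact finz hP E (hN5 N (by omega))

end Pool.Agent.Lib.T3F
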