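import Pool.Agent.Lib.MP_7b7e48_nt.T3F.Maj

/-!
# The exceptional classes, short and long data

`apx3`: from the bound for the sum of `AP L 1` over all classes (`L`: long data) we get the set `A` of the exceptional classes for the short data `sh L`.
-/

set_option autoImplicit false

open Finset

namespace Pool.Agent.Lib.T3F

open Pool.Agent.Lib.TCF
open Pool.Agent.Lib.RG hiding RR sig Good
open Pool.Agent.Lib.RH
open Pool.Agent.Lib.MP_45349e_nt.LS (lam)

variable {P : Prm} {N : ℕ} [NeZero N] {D : Dat} {Bd : ℕ → ℕ → Prop}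

omit [NeZero N] in
theorem sh_le : (sh P N D).J1 ≤ D.J1 := Nat.div_le_self _ _

omit [NeZero N] in
theorem sh_mul : 4 * MM P N ^ 2 * (sh P N D).J1 ≤ D.J1 := Nat.mul_div_le _ _

omit [NeZero N] in
theorem sh_ge (h : 4 * MM P N ^ 2 ≤ D.J1) : (D.J1 : ℝ) ≤ 8 * (MM P N : ℝ) ^ 2 * ((sh P N D).J1 : ℝ) := by
  have h0 : 0 < 4 * MM P N ^ 2 := by
    have := mm_one P N
    positivity
  have h1 : D.J1 / (4 * MM P N ^ 2) = (sh P N D).J1 := rfl
  have h2 := Nat.div_add_mod D.J1 (4 * MM P N ^ 2)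
  have h3 := Nat.mod_lt D.J1 h0
  have h4 : 1 ≤ D.J1 / (4 * MM P N ^ 2) := (Nat.one_le_div_iff h0).mpr h
  rw [h1] at h2 h4
  have h5 : 4 * MM P N ^ 2 * 1 ≤ 4 * MM P N ^ 2 * (sh P N D).J1 := Nat.mul_le_mul_left _ h4
  have h6 : D.J1 ≤ 8 * MM P N ^ 2 * (sh P N D).J1 := by
    have h7 : 8 * MM P N ^ 2 * (sh P N D).J1 = 4 * MM P N ^ 2 * (sh P N D).J1 + 4 * MM P N ^ 2 * (sh P N D).J1 := by ring
    omega
  exact_mod_cast h6

private theorem apx3_cast (x : ZMod N) (j : ℕ) : ((x.val + j * N : ℕ) : ZMod N) = x := by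
  push_cast
  rw [ZMod.natCast_self, mul_zero, add_zero, ZMod.natCast_val, ZMod.cast_id', id]

theorem apx3_tup {n : ℕ} (B B' : Fin n → Finset ℕ) (h : ∀ c, B' c ⊆ B c) : TUP B' ⊆ TUP B := by
  unfold TUP
  refine Finset.image_subset_image ?_
  exact Fintype.piFinset_subset _ _ h

omit [NeZero N] in
theorem ap_sh (x : ZMod N) : AP P N (sh P N D) LT Bd 1 x ≤ AP P N D LT Bd 1 x := by
  classical
  unfold AP
  refine sum_le_sum_of_subset_of_nonneg ?_ fun j _ _ => ?_
  · exact Ico_subset_Ico_right sh_le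
  · split_ifs
    · exact sum_nonneg fun t _ => sum_nonneg fun i _ => aft_nonneg _ _ _ _ _ _ _ _ _
    · exact le_rfl

theorem aq_sh {l : ℕ} (hl : l ∈ PZ N (MM P N)) (x : ZMod N) :
    AQ P N (sh P N D) LT Bd l x ≤ AP P N D LT Bd 1 ((l : ZMod N) * x) := by
  classical
  have hl4 := mem_PZ.mp hl
  have hlp : 0 < l := hl4.2.2.1.pos
  have hN : 0 < N := Nat.pos_of_ne_zero (NeZero.ne N)
  set y : ZMod N := (l : ZMod N) * x with hy
  -- the index
  have hkey : ∀ j : ℕ, y.val + (l * (x.val + j * N) / N) * N = l * (x.val + j * N) := by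
    intro j
    have h1 : (l * (x.val + j * N)) % N = y.val := by
      have h2 : ((l * (x.val + j * N) : ℕ) : ZMod N) = y := by
        rw [Nat.cast_mul, apx3_cast x j, hy]
      rw [← h2, ZMod.val_natCast]
    have h3 := Nat.mod_add_div (l * (x.val + j * N)) N
    rw [h1] at h3
    rw [mul_comm _ N]
    exact h3
  have hone : ((1 : ℕ) : ZMod N) * y = y := by rw [Nat.cast_one, one_mul]
  have hap : AP P N D LT Bd 1 y = ∑ j ∈ Ico D.J2 D.J1, if Rgh1 P N (y.val + j * N) then
    ∑ t ∈ (TUP D.BX).filter (fun t => t ∣ y.val + j * N), ∑ i ∈ range D.J0,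
      AFt P N D LT Bd 1 (y.val + j * N) t (y.val + i * N) else 0 := by
    unfold AP
    rw [hone]
  rw [hap]
  set G : ℕ → ℝ := fun j => if Rgh1 P N (y.val + j * N) then
    ∑ t ∈ (TUP D.BX).filter (fun t => t ∣ y.val + j * N), ∑ i ∈ range D.J0,
      AFt P N D LT Bd 1 (y.val + j * N) t (y.val + i * N) else 0 with hG
  have hG0 : ∀ j, 0 ≤ G j := by
    intro j
    rw [hG]
    dsimp only
    split_ifs
    · exact sum_nonneg fun t _ => sum_nonneg fun i _ => aft_nonneg _ _ _ _ _ _ _ _ _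
    · exact le_rfl
  have hinj : Set.InjOn (fun j => l * (x.val + j * N) / N) (Ico (sh P N D).J2 (sh P N D).J1 : Finset ℕ) := by
    intro j _ j' _ hjj
    dsimp only at hjj
    have h1 := hkey j
    have h2 := hkey j'
    rw [hjj] at h1
    have h3 : l * (x.val + j * N) = l * (x.val + j' * N) := h1.symm.trans h2
    have h4 := Nat.eq_of_mul_eq_mul_left hlp h3
    have h5 : j * N = j' * N := by omega
    exact Nat.eq_of_mul_eq_mul_right hN h5
  have hsub : (Ico (sh P N D).J2 (sh P N D).J1).image (fun j => l * (x.val + j * N) / N) ⊆ Ico D.J2 D.J1 := by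
    intro k hk
    rw [mem_image] at hk
    obtain ⟨j, hj, rfl⟩ := hk
    rw [mem_Ico] at hj ⊢
    have h2 : D.J2 ≤ j := hj.1
    have h3 : j < (sh P N D).J1 := hj.2
    have hx := ZMod.val_lt x
    constructor
    · rw [Nat.le_div_iff_mul_le hN]
      have h4 : D.J2 * N ≤ j * N := Nat.mul_le_mul_right _ h2
      have h5 : 1 * (x.val + j * N) ≤ l * (x.val + j * N) := Nat.mul_le_mul_right _ hlp
      omega
    · rw [Nat.div_lt_iff_lt_mul hN]
      have h4 : x.val + j * N < (j + 1) * N := by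
        have : (j + 1) * N = j * N + N := by ring
        omega
      have h5 : (j + 1) * N ≤ (sh P N D).J1 * N := Nat.mul_le_mul_right _ (by omega)
      have h6 : l * (x.val + j * N) < l * ((sh P N D).J1 * N) := Nat.mul_lt_mul_of_pos_left (by omega) hlp
      have h7 : l * ((sh P N D).J1 * N) ≤ (4 * MM P N ^ 2) * ((sh P N D).J1 * N) := Nat.mul_le_mul_right _ hl4.2.1
      have h8 : (4 * MM P N ^ 2) * ((sh P N D).J1 * N) = (4 * MM P N ^ 2 * (sh P N D).J1) * N := by ring
      have h9 : (4 * MM P N ^ 2 * (sh P N D).J1) * N ≤ D.J1 * N := Nat.mul_le_mul_right _ sh_mul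
      omega
  have hmain : AQ P N (sh P N D) LT Bd l x ≤ ∑ j ∈ Ico (sh P N D).J2 (sh P N D).J1, G (l * (x.val + j * N) / N) := by
    unfold AQ
    refine sum_le_sum fun j _ => ?_
    by_cases hR : Rgh1 P N (x.val + j * N)
    · have hR' : Rgh1 P N (y.val + (l * (x.val + j * N) / N) * N) := by
        rw [hkey j]
        refine ⟨?_, ?_⟩
        · refine Nat.Coprime.mul_left ?_ hR.1
          exact (Nat.Prime.coprime_iff_not_dvd hl4.2.2.1).mpr hl4.2.2.2
        · intro p hp hpd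
          rcases (Nat.Prime.dvd_mul hp).mp hpd with h | h
          · have h1 : p = l := (Nat.prime_dvd_prime_iff_eq hp hl4.2.2.1).mp h
            rw [h1]
            exact hl4.1
          · exact hR.2 p hp h
      have hGe : G (l * (x.val + j * N) / N) = ∑ t ∈ (TUP D.BX).filter (fun t => t ∣ l * (x.val + j * N)),
          ∑ i ∈ range D.J0, AFt P N D LT Bd 1 (l * (x.val + j * N)) t (y.val + i * N) := by
        rw [hG]
        dsimp only
        rw [if_pos hR', hkey j]
      rw [if_pos hR, hGe]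
      refine sum_le_sum_of_subset_of_nonneg ?_ fun t _ _ => sum_nonneg fun i _ => aft_nonneg _ _ _ _ _ _ _ _ _
      intro t ht
      rw [mem_filter] at ht ⊢
      exact ⟨ht.1, ht.2.mul_left l⟩
    · rw [if_neg hR]
      exact hG0 _
  refine hmain.trans ?_
  rw [← sum_image (f := G) hinj]
  exact sum_le_sum_of_subset_of_nonneg hsub fun j _ _ => hG0 j

omit [NeZero N] in
theorem ap_mono_X (D' : Dat) (h0 : D'.J0 = D.J0) (h1 : D'.J1 = D.J1) (h2 : D'.J2 = D.J2)
    (hX : TUP D'.BX ⊆ TUP D.BX) (hY : TUP D'.BY ⊆ TUP D.BY) (l : ℕ) (x : ZMod N) :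
    AP P N D' LT Bd l x ≤ AP P N D LT Bd l x := by
  classical
  have hA : ∀ X t Y, AFt P N D' LT Bd l X t Y ≤ AFt P N D LT Bd l X t Y := by
    intro X t Y
    unfold AFt
    split_ifs
    · rw [Nat.cast_le]
      exact card_le_card (filter_subset_filter _ hY)
    · exact le_rfl
  unfold AP
  rw [h0, h1, h2]
  refine sum_le_sum fun j _ => ?_
  by_cases hR : Rgh1 P N (((l : ZMod N) * x).val + j * N)
  · rw [if_pos hR, if_pos hR]
    refine le_trans (sum_le_sum_of_subset_of_nonneg (filter_subset_filter _ hX)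
      fun t _ _ => sum_nonneg fun i _ => aft_nonneg _ _ _ _ _ _ _ _ _) ?_
    exact sum_le_sum fun t _ => sum_le_sum fun i _ => hA _ _ _
  · rw [if_neg hR, if_neg hR]

omit [NeZero N] in
theorem ap_delX (Q : Finset ℕ) (l : ℕ) (x : ZMod N) :
    AP P N (D.delX Q) LT Bd l x ≤ AP P N D LT Bd l x :=
  ap_mono_X (D := D) (D.delX Q) rfl rfl rfl
    (apx3_tup D.BX (fun c => D.BX c \ Q) fun _ => sdiff_subset) (Subset.refl (TUP D.BY)) l x

omit [NeZero N] in
theorem ap_del (Q : Finset ℕ) (l : ℕ) (x : ZMod N) :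
    AP P N (D.del Q) LT Bd l x ≤ AP P N D LT Bd l x :=
  ap_mono_X (D := D) (D.del Q) rfl rfl rfl
    (apx3_tup D.BX (fun c => D.BX c \ Q) fun _ => sdiff_subset)
    (apx3_tup D.BY (fun c => D.BY c \ Q) fun _ => sdiff_subset) l x

omit [NeZero N] in
private theorem apx3_K (hn : NumX P N) : (32 : ℝ) ≤ JJ N := by
  have h1 := hK hn
  have h2 := jj_K hn
  have h4 : (32 : ℝ) ≤ Real.log N := by
    have h5 : (10 : ℝ) ^ 9 ≤ Real.log N := hn.num.K
    linarith [show (32 : ℝ) ≤ 10 ^ 9 by norm_num]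
  have h3 : Real.log N ≤ (Real.log N) ^ 1000 := by
    refine le_self_pow₀ (by linarith) (by norm_num)
  linarith

open Classical in
theorem apx3 (hn : NumX P N) (hD : (sh P N D).Ok P N) (h4 : 4 * MM P N ^ 2 ≤ D.J1)
    (s : ℝ) (hs : 0 ≤ s)
    (h : ∑ x : ZMod N, (if IsUnit x then AP P N D LT Bd 1 x else 0) ≤
      4 * (s * (N * ((D.J1 * rho D.BX) * (D.J0 * rho D.BY)) / ((JJ N : ℝ) ^ 4 * (MM P N : ℝ) ^ 4)))) :
    ∃ A : Finset (ZMod N), (A.card : ℝ) ≤ s * N / (JJ N : ℝ) ^ 2 ∧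
      (∀ l : ℕ, l = 1 → ∀ x : ZMod N, IsUnit x → x ∉ A →
        AP P N (sh P N D) LT Bd l x ≤ ((sh P N D).J1 * rho (sh P N D).BX) *
          ((sh P N D).J0 * rho (sh P N D).BY) / JJ N) ∧
      (∀ l ∈ PZ N (MM P N), ∀ x : ZMod N, IsUnit x → (l : ZMod N) * x ∉ A →
        AQ P N (sh P N D) LT Bd l x ≤ ((sh P N D).J1 * rho (sh P N D).BX) *
          ((sh P N D).J0 * rho (sh P N D).BY) / JJ N) ∧
      ∑ x : ZMod N, (if IsUnit x then AP P N (sh P N D) LT Bd 1 x else 0) ≤
        s * N * (((sh P N D).J1 * rho (sh P N D).BX) * ((sh P N D).J0 * rho (sh P N D).BY)) /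
          (JJ N : ℝ) ^ 2 := by
  classical
  have hM := mr_pos_X hn hD
  have hM' := mr_pos_Y hn hD
  have hge := sh_ge (P := P) (N := N) (D := D) h4
  have hrX : 0 ≤ rho D.BX := by
    unfold rho
    exact prod_nonneg fun c _ => sum_nonneg fun p _ => by positivity
  have e1 : (sh P N D).BX = D.BX := rfl
  have e2 : (sh P N D).BY = D.BY := rfl
  have e3 : (sh P N D).J0 = D.J0 := rfl
  rw [e1] at hM
  rw [e2, e3] at hM'
  have hML : D.J1 * rho D.BX ≤ 8 * (MM P N : ℝ) ^ 2 * ((sh P N D).J1 * rho D.BX) := by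
    calc D.J1 * rho D.BX ≤ (8 * (MM P N : ℝ) ^ 2 * ((sh P N D).J1 : ℝ)) * rho D.BX := mul_le_mul_of_nonneg_right hge hrX
      _ = _ := by ring
  have e1' : rho (sh P N D).BX = rho D.BX := rfl
  have e2' : rho (sh P N D).BY = rho D.BY := rfl
  rw [e1', e2', e3]
  set M : ℝ := (sh P N D).J1 * rho D.BX with hMd
  set ML : ℝ := D.J1 * rho D.BX with hMLd
  set M' : ℝ := D.J0 * rho D.BY with hMd'
  have hJ := apx3_K hn
  set J : ℝ := (JJ N : ℝ) with hJd
  have hm1 : (1 : ℝ) ≤ (MM P N : ℝ) := by exact_mod_cast mm_one P N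
  set m : ℝ := (MM P N : ℝ) with hmd
  have hN : (0 : ℝ) < N := by
    have := N_two hn
    exact_mod_cast (show 0 < N by omega)
  have hJ0 : 0 < J := by linarith
  have hm0 : 0 < m := by linarith
  have hMM : 0 < M * M' := mul_pos hM hM'
  -- the bound in terms of the short data
  have hb : ∑ x : ZMod N, (if IsUnit x then AP P N D LT Bd 1 x else 0) ≤ 32 * (s * N) * (M * M') / (J ^ 4 * m ^ 2) := by
    refine h.trans ?_
    have h1 : N * (ML * M') ≤ N * ((8 * m ^ 2 * M) * M') :=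
      mul_le_mul_of_nonneg_left (mul_le_mul_of_nonneg_right hML hM'.le) hN.le
    have h2 : 4 * (s * (N * (ML * M') / (J ^ 4 * m ^ 4))) = (4 * s / (J ^ 4 * m ^ 4)) * (N * (ML * M')) := by ring
    have h3 : 32 * (s * N) * (M * M') / (J ^ 4 * m ^ 2) = (4 * s / (J ^ 4 * m ^ 4)) * (N * ((8 * m ^ 2 * M) * M')) := by
      field_simp
      ring
    rw [h2, h3]
    exact mul_le_mul_of_nonneg_left h1 (by positivity)
  refine ⟨univ.filter fun x => IsUnit x ∧ M * M' / J < AP P N D LT Bd 1 x, ?_, ?_, ?_, ?_⟩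
  · set A := univ.filter fun x : ZMod N => IsUnit x ∧ M * M' / J < AP P N D LT Bd 1 x with hA
    have h1 : (A.card : ℝ) * (M * M' / J) ≤ ∑ x : ZMod N, (if IsUnit x then AP P N D LT Bd 1 x else 0) := by
      calc (A.card : ℝ) * (M * M' / J) = ∑ _x ∈ A, M * M' / J := by rw [sum_const, nsmul_eq_mul]
        _ ≤ ∑ x ∈ A, (if IsUnit x then AP P N D LT Bd 1 x else 0) := by
            refine sum_le_sum fun x hx => ?_
            rw [hA, mem_filter] at hx
            rw [if_pos hx.2.1]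
            exact hx.2.2.le
        _ ≤ ∑ x : ZMod N, (if IsUnit x then AP P N D LT Bd 1 x else 0) := by
            refine sum_le_sum_of_subset_of_nonneg (subset_univ _) fun x _ _ => ?_
            split_ifs
            · exact ap_nonneg 1 x
            · exact le_rfl
    have h3 := h1.trans hb
    have h4' : (A.card : ℝ) ≤ 32 * (s * N) / (J ^ 3 * m ^ 2) := by
      rw [le_div_iff₀ (by positivity)]
      have h5 : 32 * (s * N) * (M * M') / (J ^ 4 * m ^ 2) = 32 * (s * N) * (M * M' / J) / (J ^ 3 * m ^ 2) := by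
        field_simp
      rw [h5, le_div_iff₀ (by positivity)] at h3
      have h6 : 0 < M * M' / J := by positivity
      refine le_of_mul_le_mul_right ?_ h6
      linarith
    refine h4'.trans ?_
    rw [div_le_div_iff₀ (by positivity) (by positivity)]
    have h5 : 0 ≤ s * N := by positivity
    have h6 : 1 ≤ m ^ 2 := one_le_pow₀ hm1
    have h7 : 32 * J ^ 2 ≤ J ^ 3 * m ^ 2 := by
      have h8 : J ^ 3 * 1 ≤ J ^ 3 * m ^ 2 := mul_le_mul_of_nonneg_left h6 (by positivity)
      have h9 : J ^ 3 = J * J ^ 2 := by ring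
      have h10 : 32 * J ^ 2 ≤ J * J ^ 2 := mul_le_mul_of_nonneg_right hJ (by positivity)
      linarith
    have h11 := mul_le_mul_of_nonneg_left h7 h5
    linarith
  · intro l hl x hx hxA
    subst hl
    refine (ap_sh x).trans ?_
    by_contra hcon
    rw [not_le] at hcon
    refine hxA ?_
    rw [mem_filter]
    exact ⟨mem_univ _, hx, hcon⟩
  · intro l hl x hx hxA
    refine (aq_sh hl x).trans ?_
    by_contra hcon
    rw [not_le] at hcon
    refine hxA ?_
    rw [mem_filter]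
    refine ⟨mem_univ _, ?_, hcon⟩
    refine IsUnit.mul ?_ hx
    have hl4 := mem_PZ.mp hl
    rw [ZMod.isUnit_iff_coprime]
    exact (Nat.Prime.coprime_iff_not_dvd hl4.2.2.1).mpr hl4.2.2.2
  · refine le_trans (sum_le_sum fun x _ => ?_) (hb.trans ?_)
    · split_ifs
      · exact ap_sh x
      · exact le_rfl
    · have h1 : s * N * (M * M') / J ^ 2 = s * N * (M * M') * (1 / J ^ 2) := by ring
      have h2 : 32 * (s * N) * (M * M') / (J ^ 4 * m ^ 2) = s * N * (M * M') * (32 / (J ^ 4 * m ^ 2)) := by ring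
      rw [h1, h2]
      refine mul_le_mul_of_nonneg_left ?_ (by positivity)
      rw [div_le_div_iff₀ (by positivity) (by positivity)]
      have h6 : 1 ≤ m ^ 2 := one_le_pow₀ hm1
      have h8 : J ^ 4 * 1 ≤ J ^ 4 * m ^ 2 := mul_le_mul_of_nonneg_left h6 (by positivity)
      have h9 : J ^ 4 = J ^ 2 * J ^ 2 := by ring
      have h10 : 32 * J ^ 2 ≤ J ^ 2 * J ^ 2 := by
        refine mul_le_mul_of_nonneg_right ?_ (by positivity)
        nlinarith
      linarith

end Pool.Agent.Lib.T3F
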