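import Pool.Agent.Lib.MP_7b7e48_nt.T3F.Def
import Pool.Agent.Lib.MP_7b7e48_nt.T3F.Cls

/-!
# Module Nx (45 minutes): `lam = FF` on the `X`-numbers of good classes

PROOF. `K = log N`, `M = J1 rho_X`, `M' = J0 rho_Y`. Classes with `GD`, and not `Typ 1` or in `A`: the inner sum is `≤ PX x ≤ PT x ≤ 3 M`; by `cls` (`l = 1`) and `Hyp.ac` together
`≤ 3 M (K ^ 12 N / JJ + N / JJ ^ 2)`. Classes `x ∉ A` with `Typ 1 x`: by `maj4` the inner sum is `≤ (5 / 4) UU 1 x / PY x ≤ (5 / 4) K ^ 2 / M' * UU 1 x` (`Typ.y1`); by `clsu` together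
`≤ (5 / 4) K ^ 2 * 8 / JJ * M * N`. Sum `≤ K ^ 14 M N / JJ`.
-/

set_option autoImplicit false

open Finset

namespace Pool.Agent.Lib.T3F

open Pool.Agent.Lib.TCF

open Pool.Agent.Lib.RG hiding RR sig Good
open Pool.Agent.Lib.RH
open Pool.Agent.Lib.MP_45349e_nt.LS (lam)

variable {P : Prm} {N : ℕ} [NeZero N] {D : Dat} {Lk : ℕ → ℕ → ℕ → ℕ → Prop} {Bd : ℕ → ℕ → Prop}
  {A : Finset (ZMod N)}

open Classical in
theorem nx (hh : Hyp3 P N D Lk Bd A) :
    ∑ x ∈ (Finset.univ.filter fun x : ZMod N => IsUnit x ∧ GD N D x), ∑ j ∈ Ico D.J2 D.J1,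
      (if lam (x.val + j * N) ≠ FF P N D x then ph P N D.BX (x.val + j * N) else 0) ≤
      (Real.log N) ^ 14 * (D.J1 * rho D.BX) * N / JJ N := by
  classical
  have hn := hh.nx
  have hK9 : (10 : ℝ) ^ 9 ≤ Real.log N := hK hn
  have hM : 0 < D.J1 * rho D.BX := mr_pos_X hn hh.ok
  have hM' : 0 < D.J0 * rho D.BY := mr_pos_Y hn hh.ok
  have hJ : (1 : ℝ) ≤ JJ N := by exact_mod_cast jj_one hn
  have hN0 : (0 : ℝ) ≤ N := Nat.cast_nonneg _
  set K := Real.log N with hKdef
  set M := (D.J1 : ℝ) * rho D.BX with hMdef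
  set M' := (D.J0 : ℝ) * rho D.BY with hMdef'
  have hK0 : 0 < K := lt_of_lt_of_le (by norm_num) hK9
  have hJ0 : (0 : ℝ) < JJ N := lt_of_lt_of_le one_pos hJ
  have key : ∀ x ∈ (Finset.univ.filter fun x : ZMod N => IsUnit x ∧ GD N D x),
      ∑ j ∈ Ico D.J2 D.J1,
        (if lam (x.val + j * N) ≠ FF P N D x then ph P N D.BX (x.val + j * N) else 0) ≤
      (if ¬ Typ P N D Lk Bd 1 x then 3 * M else 0) + (if x ∈ A then 3 * M else 0) +
        4 / 3 * (K ^ 2 / M') * (UU P N D Lk Bd 1 x + AP P N D Lk Bd 1 x) := by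
    intro x hx
    obtain ⟨-, hu, hg⟩ := mem_filter.mp hx
    have h1 : ∑ j ∈ Ico D.J2 D.J1,
        (if lam (x.val + j * N) ≠ FF P N D x then ph P N D.BX (x.val + j * N) else 0) ≤
        PX P N D x := by
      unfold PX
      refine sum_le_sum fun j _ => ?_
      split_ifs
      · exact le_rfl
      · exact ph_nonneg _ _ _ _
    have h2 : PX P N D x ≤ 3 * M := (px_le_pt x).trans hg
    have h3 : 0 ≤ 4 / 3 * (K ^ 2 / M') * (UU P N D Lk Bd 1 x + AP P N D Lk Bd 1 x) :=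
      mul_nonneg (by positivity) (add_nonneg (uu_nonneg 1 x) (ap_nonneg 1 x))
    have h4 : (0 : ℝ) ≤ if x ∈ A then 3 * M else 0 := by
      split_ifs <;> positivity
    by_cases hT : Typ P N D Lk Bd 1 x
    · by_cases hA : x ∈ A
      · rw [if_neg (not_not.mpr hT), if_pos hA]
        linarith
      · rw [if_neg (not_not.mpr hT), if_neg hA, zero_add, zero_add]
        have h5 := maj4 hh hu hA hT
        have h6 := hT.y1
        rw [← hKdef, ← hMdef'] at h6
        have h7 : 0 < PY P N D x := lt_of_lt_of_le (by positivity) h6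
        set g := ∑ j ∈ Ico D.J2 D.J1,
          (if lam (x.val + j * N) ≠ FF P N D x then ph P N D.BX (x.val + j * N) else 0) with hgd
        have h8 : 0 ≤ g := by
          refine sum_nonneg fun j _ => ?_
          split_ifs
          · exact ph_nonneg _ _ _ _
          · exact le_rfl
        have h9 : 3 / 4 * (M' / K ^ 2) * g ≤ UU P N D Lk Bd 1 x + AP P N D Lk Bd 1 x := by
          refine le_trans ?_ h5
          exact mul_le_mul_of_nonneg_right (by linarith) h8
        calc g = 4 / 3 * (K ^ 2 / M') * (3 / 4 * (M' / K ^ 2) * g) := by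
              field_simp
          _ ≤ 4 / 3 * (K ^ 2 / M') * (UU P N D Lk Bd 1 x + AP P N D Lk Bd 1 x) :=
              mul_le_mul_of_nonneg_left h9 (by positivity)
    · rw [if_pos hT]
      linarith
  refine (sum_le_sum key).trans ?_
  rw [sum_add_distrib, sum_add_distrib, ← mul_sum]
  have s1 : ∑ x ∈ (Finset.univ.filter fun x : ZMod N => IsUnit x ∧ GD N D x),
      (if ¬ Typ P N D Lk Bd 1 x then 3 * M else 0) ≤ K ^ 12 * N / JJ N * (3 * M) := by
    rw [← sum_filter, sum_const, nsmul_eq_mul]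
    refine mul_le_mul_of_nonneg_right ?_ (by positivity)
    refine le_trans ?_ (cls hh (Or.inl rfl))
    have h1 : ((Finset.univ.filter fun x : ZMod N => IsUnit x ∧ GD N D x).filter
        fun x => ¬ Typ P N D Lk Bd 1 x) ⊆
        (Finset.univ : Finset (ZMod N)).filter fun x => IsUnit x ∧ ¬ Typ P N D Lk Bd 1 x := by
      intro x hx
      rw [mem_filter, mem_filter] at hx
      rw [mem_filter]
      exact ⟨mem_univ _, hx.1.2.1, hx.2⟩
    exact_mod_cast card_le_card h1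
  have s2 : ∑ x ∈ (Finset.univ.filter fun x : ZMod N => IsUnit x ∧ GD N D x),
      (if x ∈ A then 3 * M else 0) ≤ N / (JJ N : ℝ) ^ 2 * (3 * M) := by
    rw [← sum_filter, sum_const, nsmul_eq_mul]
    refine mul_le_mul_of_nonneg_right ?_ (by positivity)
    refine le_trans ?_ hh.ac
    have h1 : ((Finset.univ.filter fun x : ZMod N => IsUnit x ∧ GD N D x).filter
        fun x => x ∈ A) ⊆ A := by
      intro x hx
      exact (mem_filter.mp hx).2
    exact_mod_cast card_le_card h1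
  have s3 : ∑ x ∈ (Finset.univ.filter fun x : ZMod N => IsUnit x ∧ GD N D x),
      (UU P N D Lk Bd 1 x + AP P N D Lk Bd 1 x) ≤ 9 / JJ N * M * M' * N := by
    rw [sum_add_distrib]
    have a1 : ∑ x ∈ (Finset.univ.filter fun x : ZMod N => IsUnit x ∧ GD N D x),
        UU P N D Lk Bd 1 x ≤ 8 / JJ N * M * M' * N := by
      refine le_trans ?_ (clsu hh (Or.inl rfl))
      refine sum_le_sum_of_subset_of_nonneg ?_ (fun x _ _ => uu_nonneg 1 x)
      intro x hx
      rw [mem_filter] at hx ⊢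
      exact ⟨mem_univ _, hx.2.1⟩
    have a2 : ∑ x ∈ (Finset.univ.filter fun x : ZMod N => IsUnit x ∧ GD N D x),
        AP P N D Lk Bd 1 x ≤ N * (M * M') / (JJ N : ℝ) ^ 2 := by
      refine le_trans ?_ hh.ap
      rw [← sum_filter]
      refine sum_le_sum_of_subset_of_nonneg ?_ (fun x _ _ => ap_nonneg 1 x)
      intro x hx
      rw [mem_filter] at hx ⊢
      exact ⟨mem_univ _, hx.2.1⟩
    have a3 : N * (M * M') / (JJ N : ℝ) ^ 2 ≤ 1 / JJ N * M * M' * N := by
      have h1 : N * (M * M') / (JJ N : ℝ) ^ 2 = (1 / JJ N * M * M' * N) * (1 / JJ N) := by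
        field_simp
      rw [h1]
      refine mul_le_of_le_one_right (by positivity) ?_
      rw [div_le_one hJ0]
      exact hJ
    have a4 : 9 / JJ N * M * M' * N = 8 / JJ N * M * M' * N + 1 / JJ N * M * M' * N := by ring
    rw [a4]
    linarith
  have s4 : 4 / 3 * (K ^ 2 / M') * (9 / JJ N * M * M' * N) = 12 * K ^ 2 * (M * N / JJ N) := by
    field_simp
    ring
  have s5 : 4 / 3 * (K ^ 2 / M') * ∑ x ∈ (Finset.univ.filter fun x : ZMod N => IsUnit x ∧ GD N D x),
      (UU P N D Lk Bd 1 x + AP P N D Lk Bd 1 x) ≤ 12 * K ^ 2 * (M * N / JJ N) := by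
    rw [← s4]
    exact mul_le_mul_of_nonneg_left s3 (by positivity)
  have s6 : N / (JJ N : ℝ) ^ 2 * (3 * M) ≤ 3 * (M * N / JJ N) := by
    have h1 : (N : ℝ) / (JJ N : ℝ) ^ 2 * (3 * M) = 3 * (M * N / JJ N) * (1 / JJ N) := by
      field_simp
    rw [h1]
    refine mul_le_of_le_one_right (by positivity) ?_
    rw [div_le_one hJ0]
    exact hJ
  have s7 : K ^ 12 * N / JJ N * (3 * M) = 3 * K ^ 12 * (M * N / JJ N) := by
    field_simp
  have hQ : 0 ≤ M * N / JJ N := by positivity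
  have h12 : (1 : ℝ) ≤ K ^ 12 := one_le_pow₀ (by linarith [show (1 : ℝ) ≤ 10 ^ 9 by norm_num])
  have h2 : K ^ 2 ≤ K ^ 12 := pow_le_pow_right₀ (by linarith [show (1 : ℝ) ≤ 10 ^ 9 by norm_num]) (by norm_num)
  have h14 : 18 * K ^ 12 ≤ K ^ 14 := by
    have h1 : (18 : ℝ) ≤ K ^ 2 := by nlinarith [hK9]
    calc 18 * K ^ 12 ≤ K ^ 2 * K ^ 12 := mul_le_mul_of_nonneg_right h1 (by positivity)
      _ = K ^ 14 := by ring
  have hfin : (3 * K ^ 12 + 3 + 12 * K ^ 2) * (M * N / JJ N) ≤ K ^ 14 * (M * N / JJ N) :=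
    mul_le_mul_of_nonneg_right (by linarith) hQ
  have hgoal : K ^ 14 * M * N / JJ N = K ^ 14 * (M * N / JJ N) := by ring
  rw [hgoal]
  rw [s7] at s1
  linarith

end Pool.Agent.Lib.T3F
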