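import Pool.Agent.Lib.MP_7b7e48_nt.T3F.Def
import Pool.Agent.Lib.MP_7b7e48_nt.T3F.Nx
import Pool.Agent.Lib.MP_7b7e48_nt.RG.TRI

/-!
# Module Betax (90 minutes): `β = 1`

`K = log N`, `J = JJ N`, `M = J1 rho_X`. PROOF. For `m ∈ TUP BX` and `t ∈ T3 P χ y_m`, `y_m = J1 N / m`, put `a = m t < J1 N`. `y_m ≤ N` because `m > y0 ≥ 2 J1` (`tup_facts`, `y0_J1`), `y_m ≥ J1 N / m - 1 ≥ N ^ (kap / 2)`, so by `tri`:
`|T3 P χ y_m| ≥ y_m / K ^ 5 ≥ J1 N / (2 m K ^ 5)`; the pairs `(m, t)` are `≥ M N / (2 K ^ 5)` in number (`tup_sum`). `a` is coprime to `N`, rough (`m` rough `> y0`, `t` rough `> zz`), and `lam a = χ a`: `lam` and `χ` are both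
completely multiplicative and `- 1` at the primes of `t` and of `m` (`fx`; `m` is squarefree with primes in the `BX c`: `lam m = (-1) ^ n = χ m` for `m = ∏ m_c`).
Pairs with `a ≤ J2 N`: at most `∑_m J2 N / m = J2 N rho ≤ M N / J`. Pairs with `¬ GD a`: by `Cnt.c3` (`q = 1`, `t = m`, interval `Ioc 0 y_m`) at most `∑_m (1 / J) (y_m + N ^ (1 - kap / 8) / m) ≤ 2 M N / J`.
So at least `M N / (3 K ^ 5)` pairs have `GD a`, `J2 N < a`. Every such `a` occurs for at most `#{m ∈ TUP : m ∣ a} = ph a` pairs: `∑_{a GD, lam a = χ a} ph a ≥ M N / (3 K ^ 5)`. By `nx` (`sum_split`)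
`∑_{a GD, lam a ≠ FF a} ph a ≤ K ^ 14 M N / J`, and `∑_{a GD, FF a ≠ β χ a} ph a ≤ ∑_{x : FF x ≠ β χ x, GD} PT x ≤ 3 M K ^ 101 N / J`. So there is an `a` with `χ a = lam a = FF a = β χ a`: `β = 1`.
-/

set_option autoImplicit false

open Finset

namespace Pool.Agent.Lib.T3F

open Pool.Agent.Lib.TCF

open Pool.Agent.Lib.RG hiding RR sig Good
open Pool.Agent.Lib.RH
open Pool.Agent.Lib.MP_45349e_nt.LS (lam)

variable {P : Prm} {N : ℕ} [NeZero N] {D : Dat} {Lk : ℕ → ℕ → ℕ → ℕ → Prop} {Bd : ℕ → ℕ → Prop}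
  {A : Finset (ZMod N)}

private theorem betax_ndvd {χ : DirichletCharacter ℂ N} {l : ℕ} (hl : l.Prime)
    (h : χ (l : ZMod N) = -1) : ¬ l ∣ N := by
  intro hd
  have h1 : ¬ IsUnit (l : ZMod N) := by
    rw [ZMod.isUnit_iff_coprime]
    exact fun hc => (Nat.Prime.coprime_iff_not_dvd hl).mp hc hd
  rw [MulChar.map_nonunit χ h1] at h
  norm_num at h

private theorem betax_one (χ : DirichletCharacter ℂ N) : ¬ DA χ 1 := by
  unfold DA
  rw [Pool.Agent.Lib.MP_45349e_nt.LS.lam_one, Nat.cast_one, map_one]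
  norm_num

private theorem betax_T3 (hn : NumX P N) {χ : DirichletCharacter ℂ N} {t y : ℕ}
    (h : t ∈ T3 P χ y) : 0 < t ∧ t < y ∧ t.Coprime N ∧ Rough (MM P N) t ∧ ¬ DA χ t := by
  classical
  unfold T3 at h
  rw [mem_filter, mem_range] at h
  obtain ⟨hlt, l1, l2, l3, ⟨p1, z1, c1⟩, ⟨p2, z2, c2⟩, ⟨p3, z3, c3⟩, rfl⟩ := h
  have hz := MM_lt_zz hn.num
  refine ⟨Nat.mul_pos (Nat.mul_pos p1.pos p2.pos) p3.pos, hlt, ?_, ?_, ?_⟩
  · exact Nat.Coprime.mul_left (Nat.Coprime.mul_left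
      ((Nat.Prime.coprime_iff_not_dvd p1).2 (betax_ndvd p1 c1))
      ((Nat.Prime.coprime_iff_not_dvd p2).2 (betax_ndvd p2 c2)))
      ((Nat.Prime.coprime_iff_not_dvd p3).2 (betax_ndvd p3 c3))
  · exact rough_mul (rough_mul (rough_prime p1 (hz.trans z1)) (rough_prime p2 (hz.trans z2)))
      (rough_prime p3 (hz.trans z3))
  · have e : l1 * l2 * l3 = l1 * (l2 * (l3 * 1)) := by ring
    rw [e, DA_mul p1 c1 (Nat.mul_pos p2.pos (Nat.mul_pos p3.pos one_pos)),
      DA_mul p2 c2 (Nat.mul_pos p3.pos one_pos), DA_mul p3 c3 one_pos]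
    exact betax_one χ

private theorem betax_tup (hD : D.Ok P N) {χ : DirichletCharacter ℂ N}
    (fx : ∀ c, ∀ p ∈ D.BX c, χ (p : ZMod N) = -1) {m : ℕ} (hm : m ∈ TUP D.BX) {t : ℕ}
    (ht : 0 < t) : DA χ (m * t) ↔ DA χ t := by
  classical
  unfold TUP at hm
  obtain ⟨f, hf, rfl⟩ := mem_image.1 hm
  have hf' := Fintype.mem_piFinset.1 hf
  have key : ∀ s : Finset (Fin D.nX), 0 < (∏ c ∈ s, f c) * t ∧
      (DA χ ((∏ c ∈ s, f c) * t) ↔ DA χ t) := by
    intro s
    induction s using Finset.induction_on with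
    | empty => simp [ht]
    | insert a s ha ih =>
      rw [prod_insert ha, mul_assoc]
      have hp := (hD.fx.pr a (f a) (hf' a)).1
      exact ⟨Nat.mul_pos hp.pos ih.1, (DA_mul hp (fx a (f a) (hf' a)) ih.1).trans ih.2⟩
  exact (key univ).2

/-- the numerical contradiction -/
private theorem betax_num (hn : NumX P N) {X : ℝ} (hX : 0 < X)
    (h : X / (2 * (Real.log N) ^ 5) ≤ X / JJ N + 2 / JJ N * X +
      ((Real.log N) ^ 14 * X / JJ N + 3 * (Real.log N) ^ 101 * X / JJ N)) : False := by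
  have hK9 : (10 : ℝ) ^ 9 ≤ Real.log N := hn.num.K
  set K := Real.log N with hK
  have hK0 : 0 < K := lt_of_lt_of_le (by norm_num) hK9
  have hK1 : 1 ≤ K := le_trans (by norm_num) hK9
  have hJ : K ^ 1000 ≤ (JJ N : ℝ) := hn.num.J1
  have hJ0 : (0 : ℝ) < JJ N := lt_of_lt_of_le (by positivity) hJ
  have h1 : X / JJ N + 2 / JJ N * X + (K ^ 14 * X / JJ N + 3 * K ^ 101 * X / JJ N) =
      (3 + K ^ 14 + 3 * K ^ 101) * X / JJ N := by ring
  rw [h1, div_le_div_iff₀ (by positivity) hJ0] at h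
  have h2 : (JJ N : ℝ) ≤ (3 + K ^ 14 + 3 * K ^ 101) * (2 * K ^ 5) := by
    have h3 : X * JJ N ≤ X * ((3 + K ^ 14 + 3 * K ^ 101) * (2 * K ^ 5)) := by linarith
    exact le_of_mul_le_mul_left h3 hX
  have e1 : K ^ 14 ≤ K ^ 101 := pow_le_pow_right₀ hK1 (by norm_num)
  have e2 : 1 ≤ K ^ 101 := one_le_pow₀ hK1
  have e3 : (3 + K ^ 14 + 3 * K ^ 101) * (2 * K ^ 5) ≤ 14 * K ^ 106 := by
    calc (3 + K ^ 14 + 3 * K ^ 101) * (2 * K ^ 5) ≤ (7 * K ^ 101) * (2 * K ^ 5) := by
          apply mul_le_mul_of_nonneg_right _ (by positivity)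
          linarith
      _ = 14 * K ^ 106 := by ring
  have e4 : 14 * K ^ 106 < K ^ 107 := by
    rw [pow_succ K 106, mul_comm]
    apply mul_lt_mul_of_pos_left _ (by positivity)
    exact lt_of_lt_of_le (by norm_num) hK9
  have e5 : K ^ 107 ≤ K ^ 1000 := pow_le_pow_right₀ hK1 (by norm_num)
  linarith

open Classical in
/-- the pairs are bounded by the weights -/
private theorem betax_pairs (hh : Hyp3 P N D Lk Bd A) (χ : DirichletCharacter ℂ N)
    (fx : ∀ c, ∀ p ∈ D.BX c, χ (p : ZMod N) = -1) :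
    ∑ m ∈ TUP D.BX, (((T3 P χ (D.J1 * N / m)).filter fun t => D.J2 * N < m * t ∧
      GD N D ((m * t : ℕ) : ZMod N)).card : ℝ) ≤
    ∑ a ∈ (Ioc (D.J2 * N) (D.J1 * N)).filter (fun a => a.Coprime N),
      (if GD N D ((a : ℕ) : ZMod N) ∧ ¬ DA χ a then ph P N D.BX a else 0) := by
  have h1 : ∀ m ∈ TUP D.BX, (((T3 P χ (D.J1 * N / m)).filter fun t => D.J2 * N < m * t ∧
      GD N D ((m * t : ℕ) : ZMod N)).card : ℝ) ≤
      ∑ a ∈ (Ioc (D.J2 * N) (D.J1 * N)).filter (fun a => a.Coprime N),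
        if m ∣ a ∧ (GD N D ((a : ℕ) : ZMod N) ∧ ¬ DA χ a) ∧ Rgh1 P N a then (1 : ℝ) else 0 := by
    intro m hm
    obtain ⟨m1, m2, -, m4, m5, -, -⟩ := tup_facts hh.ok.fx hm
    rw [← sum_filter, sum_const, nsmul_eq_mul, mul_one]
    have h2 : ((T3 P χ (D.J1 * N / m)).filter fun t => D.J2 * N < m * t ∧
      GD N D ((m * t : ℕ) : ZMod N)).card ≤
      (((Ioc (D.J2 * N) (D.J1 * N)).filter (fun a => a.Coprime N)).filter
        (fun a => m ∣ a ∧ (GD N D ((a : ℕ) : ZMod N) ∧ ¬ DA χ a) ∧ Rgh1 P N a)).card := by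
      apply card_le_card_of_injOn (fun t => m * t)
      · intro t ht
        rw [mem_coe, mem_filter] at ht
        obtain ⟨ht1, ht2, ht3⟩ := ht
        obtain ⟨t1, t2, t3, t4, t5⟩ := betax_T3 hh.nx ht1
        have hcop : (m * t).Coprime N := Nat.Coprime.mul_left m4 t3
        refine mem_coe.2 (mem_filter.2 ⟨mem_filter.2 ⟨mem_Ioc.2 ⟨ht2, ?_⟩, hcop⟩,
          Dvd.intro t rfl, ⟨ht3, ?_⟩, hcop, ?_⟩)
        · calc m * t ≤ m * (D.J1 * N / m) := Nat.mul_le_mul_left _ t2.le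
            _ ≤ D.J1 * N := Nat.mul_div_le _ _
        · rw [betax_tup hh.ok fx hm t1]
          exact t5
        · refine rough_mul (rough_mono ?_ m5) t4
          have h3 := y0_MM hh.nx hh.ok
          have h4 := mm_one P N
          have h5 : MM P N ≤ MM P N ^ 4 := Nat.le_self_pow (by norm_num) _
          omega
      · intro t _ t' _ h3
        exact Nat.eq_of_mul_eq_mul_left (by omega) h3
    exact_mod_cast h2
  refine (sum_le_sum h1).trans (le_of_eq ?_)
  rw [sum_comm]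
  refine sum_congr rfl fun a _ => ?_
  by_cases hg : (GD N D ((a : ℕ) : ZMod N) ∧ ¬ DA χ a)
  · rw [if_pos hg]
    by_cases hr : Rgh1 P N a
    · rw [ph_eq hh.ok.fx hr, ← sum_filter, sum_const, nsmul_eq_mul, mul_one]
      congr 2
      ext m
      simp only [mem_filter]
      tauto
    · rw [ph_zero hr]
      refine sum_eq_zero fun m _ => ?_
      rw [if_neg]
      tauto
  · rw [if_neg hg]
    refine sum_eq_zero fun m _ => ?_
    rw [if_neg]
    tauto

open Classical in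
/-- the weights are small if the sign is wrong -/
private theorem betax_upper (hh : Hyp3 P N D Lk Bd A) (χ : DirichletCharacter ℂ N)
    (h : (((Finset.univ : Finset (ZMod N)).filter fun x => IsUnit x ∧
      (FF P N D x : ℂ) ≠ (-1 : ℝ) * χ x).card : ℝ) ≤ (Real.log N) ^ 101 * N / JJ N) :
    ∑ a ∈ (Ioc (D.J2 * N) (D.J1 * N)).filter (fun a => a.Coprime N),
      (if GD N D ((a : ℕ) : ZMod N) ∧ ¬ DA χ a then ph P N D.BX a else 0) ≤
      (Real.log N) ^ 14 * (D.J1 * rho D.BX * N) / JJ N +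
        3 * (Real.log N) ^ 101 * (D.J1 * rho D.BX * N) / JJ N := by
  rw [sum_split hh.nx (fun a => if GD N D ((a : ℕ) : ZMod N) ∧ ¬ DA χ a then ph P N D.BX a else 0)]
  have hcast : ∀ (x : ZMod N) (j : ℕ), ((x.val + j * N : ℕ) : ZMod N) = x := by
    intro x j
    push_cast
    rw [ZMod.natCast_self, mul_zero, add_zero, ZMod.natCast_val, ZMod.cast_id', id]
  have hM := mr_pos_X hh.nx hh.ok
  have hx : ∀ x ∈ (Finset.univ.filter fun x : ZMod N => IsUnit x),
      ∑ j ∈ Ico D.J2 D.J1, (if GD N D ((x.val + j * N : ℕ) : ZMod N) ∧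
        ¬ DA χ (x.val + j * N) then ph P N D.BX (x.val + j * N) else 0) ≤
      (if GD N D x then ∑ j ∈ Ico D.J2 D.J1,
        (if lam (x.val + j * N) ≠ FF P N D x then ph P N D.BX (x.val + j * N) else 0) else 0) +
      (if (FF P N D x : ℂ) ≠ (-1 : ℝ) * χ x then 3 * (D.J1 * rho D.BX) else 0) := by
    intro x hx
    have hu : IsUnit x := (mem_filter.1 hx).2
    simp only [hcast]
    by_cases hG : GD N D x
    · rw [if_pos hG]
      by_cases hF : (FF P N D x : ℂ) ≠ (-1 : ℝ) * χ x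
      · rw [if_pos hF]
        have h1 : ∑ j ∈ Ico D.J2 D.J1, (if GD N D x ∧
            ¬ DA χ (x.val + j * N) then ph P N D.BX (x.val + j * N) else 0) ≤ PX P N D x := by
          unfold PX
          refine sum_le_sum fun j _ => ?_
          split_ifs
          · exact le_rfl
          · exact ph_nonneg _ _ _ _
        have h2 : PX P N D x ≤ 3 * (D.J1 * rho D.BX) := (px_le_pt x).trans hG
        have h3 : 0 ≤ ∑ j ∈ Ico D.J2 D.J1,
            (if lam (x.val + j * N) ≠ FF P N D x then ph P N D.BX (x.val + j * N) else 0) := by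
          refine sum_nonneg fun j _ => ?_
          split_ifs
          · exact ph_nonneg _ _ _ _
          · exact le_rfl
        linarith
      · rw [if_neg hF, add_zero]
        rw [not_not] at hF
        refine sum_le_sum fun j _ => ?_
        by_cases hc : GD N D x ∧ ¬ DA χ (x.val + j * N)
        · rw [if_pos hc, if_pos]
          intro h4
          have h5 := hc.2
          unfold DA at h5
          rw [not_not, hcast, h4, hF] at h5
          have h6 : χ x = 0 := by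
            have h7 : (2 : ℂ) * χ x = 0 := by
              push_cast at h5
              linear_combination -h5
            rcases mul_eq_zero.1 h7 with h8 | h8
            · norm_num at h8
            · exact h8
          exact (IsUnit.map χ hu).ne_zero h6
        · rw [if_neg hc]
          split_ifs
          · exact ph_nonneg _ _ _ _
          · exact le_rfl
    · rw [if_neg hG, zero_add]
      have h1 : ∑ j ∈ Ico D.J2 D.J1, (if GD N D x ∧
          ¬ DA χ (x.val + j * N) then ph P N D.BX (x.val + j * N) else 0) = 0 :=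
        sum_eq_zero fun j _ => if_neg fun h2 => hG h2.1
      rw [h1]
      split_ifs
      · positivity
      · exact le_rfl
  refine (sum_le_sum hx).trans ?_
  rw [sum_add_distrib]
  refine add_le_add ?_ ?_
  · rw [← sum_filter, filter_filter]
    refine (nx hh).trans (le_of_eq ?_)
    ring
  · rw [← sum_filter, filter_filter, sum_const, nsmul_eq_mul]
    refine (mul_le_mul_of_nonneg_right h (by positivity)).trans (le_of_eq ?_)
    ring

open Classical in
/-- many pairs -/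
private theorem betax_lower (hh : Hyp3 P N D Lk Bd A) (χ : DirichletCharacter ℂ N)
    (hsq : χ ^ 2 = 1) (hb : Blk P N 12 (-1) χ) :
    (D.J1 * rho D.BX * N) / (2 * (Real.log N) ^ 5) ≤ (D.J1 * rho D.BX * N) / JJ N +
      2 / JJ N * (D.J1 * rho D.BX * N) +
      ∑ m ∈ TUP D.BX, (((T3 P χ (D.J1 * N / m)).filter fun t => D.J2 * N < m * t ∧
        GD N D ((m * t : ℕ) : ZMod N)).card : ℝ) := by
  have hK9 := hK hh.nx
  have hKp : 0 < Real.log N := lt_of_lt_of_le (by norm_num) hK9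
  have hN2 := N_two hh.nx
  have hN1 : (1 : ℝ) ≤ N := by exact_mod_cast (by omega : 1 ≤ N)
  have hNp : (0 : ℝ) < N := by linarith
  have hk0 := hh.hP.kap0
  have hk1 := hh.hP.kap1
  have hJ1 : 1 ≤ JJ N := jj_one hh.nx
  have hJp : (0 : ℝ) < JJ N := by exact_mod_cast hJ1
  have hJbig : (2 : ℝ) ≤ JJ N := by
    refine le_trans ?_ hh.nx.num.J1
    calc (2 : ℝ) ≤ Real.log N := le_trans (by norm_num) hK9
      _ ≤ (Real.log N) ^ 1000 := le_self_pow₀ (le_trans (by norm_num) hK9) (by norm_num)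
  have hJbig' : 2 ≤ JJ N := by exact_mod_cast hJbig
  have hj21 := hh.ok.j21
  have hj2 := j2_pos hh.nx hh.ok
  have hD1 : 2 ≤ D.J1 := by
    calc 2 ≤ JJ N := hJbig'
      _ ≤ JJ N * D.J2 := Nat.le_mul_of_pos_right _ hj2
      _ ≤ D.J1 := hj21
  have hD1r : (2 : ℝ) ≤ D.J1 := by exact_mod_cast hD1
  have key : ∀ m ∈ TUP D.BX, (D.J1 * N / (2 * (Real.log N) ^ 5)) * (1 / (m : ℝ)) ≤
      (D.J2 * N) * (1 / (m : ℝ)) + (2 / JJ N * (D.J1 * N)) * (1 / (m : ℝ)) +
      (((T3 P χ (D.J1 * N / m)).filter fun t => D.J2 * N < m * t ∧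
        GD N D ((m * t : ℕ) : ZMod N)).card : ℝ) := by
    intro m hm
    obtain ⟨m1, m2, -, m4, m5, -, m7⟩ := tup_facts hh.ok.fx hm
    have hm0 : (0 : ℝ) < m := by exact_mod_cast (by omega : 0 < m)
    set y := D.J1 * N / m with hy
    have hmy : m * y ≤ D.J1 * N := Nat.mul_div_le _ _
    have hyu : (y : ℝ) ≤ D.J1 * N * (1 / (m : ℝ)) := by
      rw [mul_one_div, le_div_iff₀ hm0]
      exact_mod_cast (by rw [mul_comm]; exact hmy : y * m ≤ D.J1 * N)
    have hmN : (m : ℝ) ≤ N := by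
      refine m7.trans ?_
      calc (N : ℝ) ^ (P.kap / 100) ≤ (N : ℝ) ^ (1 : ℝ) :=
            Real.rpow_le_rpow_of_exponent_le hN1 (by linarith)
        _ = N := Real.rpow_one _
    have hyl : D.J1 * N / (2 * (m : ℝ)) ≤ y := by
      have h1 : D.J1 * N < m * (y + 1) := by
        rw [hy]
        exact Nat.lt_mul_div_succ _ (by omega)
      have h2 : (D.J1 * N : ℝ) < m * (y + 1) := by exact_mod_cast h1
      have h3 : 2 * (m : ℝ) ≤ D.J1 * N := by
        calc 2 * (m : ℝ) ≤ 2 * N := by linarith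
          _ ≤ D.J1 * N := mul_le_mul_of_nonneg_right hD1r hNp.le
      rw [div_le_iff₀ (by positivity)]
      nlinarith
    have hyN : y ≤ N := by
      rw [hy]
      apply Nat.div_le_of_le_mul
      apply Nat.mul_le_mul_right
      have := y0_J1 hh.nx hh.ok
      omega
    have hyk : (N : ℝ) ^ (P.kap / 2) ≤ y := by
      refine le_trans ?_ hyl
      rw [le_div_iff₀ (by positivity)]
      calc (N : ℝ) ^ (P.kap / 2) * (2 * m) ≤ (N : ℝ) ^ (P.kap / 2) * (2 * (N : ℝ) ^ (P.kap / 100)) := by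
            gcongr
        _ = 2 * (N : ℝ) ^ (P.kap / 2 + P.kap / 100) := by
            rw [Real.rpow_add hNp]; ring
        _ ≤ 2 * (N : ℝ) ^ (1 : ℝ) := by
            apply mul_le_mul_of_nonneg_left _ (by norm_num)
            exact Real.rpow_le_rpow_of_exponent_le hN1 (by linarith)
        _ = 2 * N := by rw [Real.rpow_one]
        _ ≤ D.J1 * N := mul_le_mul_of_nonneg_right hD1r hNp.le
    have htri := tri P hh.hP N hh.nx.num χ hsq hb y hyk hyN
    -- the three parts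
    set T := T3 P χ y with hT
    have hsub : T ⊆ (T.filter fun t => m * t ≤ D.J2 * N) ∪
        ((T.filter fun t => ¬ GD N D ((m * t : ℕ) : ZMod N)) ∪
          (T.filter fun t => D.J2 * N < m * t ∧ GD N D ((m * t : ℕ) : ZMod N))) := by
      intro t ht
      simp only [mem_union, mem_filter]
      by_cases h1 : m * t ≤ D.J2 * N
      · exact Or.inl ⟨ht, h1⟩
      · by_cases h2 : GD N D ((m * t : ℕ) : ZMod N)
        · exact Or.inr (Or.inr ⟨ht, by omega, h2⟩)
        · exact Or.inr (Or.inl ⟨ht, h2⟩)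
    have hc := (card_le_card hsub).trans ((card_union_le _ _).trans
      (Nat.add_le_add_left (card_union_le _ _) _))
    have hc' : (T.card : ℝ) ≤ ((T.filter fun t => m * t ≤ D.J2 * N).card : ℝ) +
        (((T.filter fun t => ¬ GD N D ((m * t : ℕ) : ZMod N)).card : ℝ) +
          ((T.filter fun t => D.J2 * N < m * t ∧ GD N D ((m * t : ℕ) : ZMod N)).card : ℝ)) := by
      exact_mod_cast hc
    have hc1 : ((T.filter fun t => m * t ≤ D.J2 * N).card : ℝ) ≤ D.J2 * N * (1 / (m : ℝ)) := by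
      have h1 : (T.filter fun t => m * t ≤ D.J2 * N) ⊆ Ioc 0 (D.J2 * N / m) := by
        intro t ht
        rw [mem_filter] at ht
        obtain ⟨t1, -⟩ := betax_T3 hh.nx ht.1
        rw [mem_Ioc]
        refine ⟨t1, (Nat.le_div_iff_mul_le (by omega)).2 ?_⟩
        rw [mul_comm]
        exact ht.2
      have h2 := card_le_card h1
      rw [Nat.card_Ioc, Nat.sub_zero] at h2
      calc ((T.filter fun t => m * t ≤ D.J2 * N).card : ℝ) ≤ ((D.J2 * N / m : ℕ) : ℝ) := by
            exact_mod_cast h2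
        _ ≤ ((D.J2 * N : ℕ) : ℝ) / m := Nat.cast_div_le
        _ = D.J2 * N * (1 / (m : ℝ)) := by push_cast; ring
    have hc2 : ((T.filter fun t => ¬ GD N D ((m * t : ℕ) : ZMod N)).card : ℝ) ≤
        2 / JJ N * (D.J1 * N) * (1 / (m : ℝ)) := by
      have h1 := hh.cnt.c3 1 m (Or.inl rfl) (Nat.coprime_one_left N) (Or.inr hm) (by
        rw [one_mul]
        exact m7.trans (Real.rpow_le_rpow_of_exponent_le hN1 (by linarith))) 0 y (Nat.zero_le _)
        (by rw [one_mul]; exact hmy)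
      have h2 : (T.filter fun t => ¬ GD N D ((m * t : ℕ) : ZMod N)) ⊆
          (Ioc 0 y).filter fun n => n.Coprime N ∧ ¬ GD N D ((1 * m * n : ℕ) : ZMod N) := by
        intro t ht
        rw [mem_filter] at ht
        obtain ⟨t1, t2, t3, -, -⟩ := betax_T3 hh.nx ht.1
        rw [mem_filter, mem_Ioc, one_mul]
        exact ⟨⟨t1, t2.le⟩, t3, ht.2⟩
      have h3 : ((T.filter fun t => ¬ GD N D ((m * t : ℕ) : ZMod N)).card : ℝ) ≤
          (((Ioc 0 y).filter fun n => n.Coprime N ∧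
            ¬ GD N D ((1 * m * n : ℕ) : ZMod N)).card : ℝ) := by
        exact_mod_cast card_le_card h2
      refine h3.trans (h1.trans ?_)
      unfold len
      rw [one_mul, Nat.cast_zero, sub_zero]
      have h4 : (N : ℝ) ^ (1 - P.kap / 8) / (m : ℝ) ≤ D.J1 * N * (1 / (m : ℝ)) := by
        rw [mul_one_div]
        apply div_le_div_of_nonneg_right _ hm0.le
        calc (N : ℝ) ^ (1 - P.kap / 8) ≤ (N : ℝ) ^ (1 : ℝ) :=
              Real.rpow_le_rpow_of_exponent_le hN1 (by linarith)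
          _ = N := Real.rpow_one _
          _ ≤ D.J1 * N := le_mul_of_one_le_left hNp.le (by linarith)
      calc 1 / (JJ N : ℝ) * (y + (N : ℝ) ^ (1 - P.kap / 8) / m) ≤
            1 / (JJ N : ℝ) * (D.J1 * N * (1 / (m : ℝ)) + D.J1 * N * (1 / (m : ℝ))) := by
            apply mul_le_mul_of_nonneg_left _ (by positivity)
            linarith
        _ = 2 / JJ N * (D.J1 * N) * (1 / (m : ℝ)) := by ring
    have hlow : (D.J1 * N / (2 * (Real.log N) ^ 5)) * (1 / (m : ℝ)) ≤ T.card := by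
      refine le_trans ?_ htri
      rw [le_div_iff₀ (by positivity)]
      refine le_trans (le_of_eq ?_) hyl
      field_simp
    linarith
  have hsum := sum_le_sum key
  rw [← mul_sum, sum_add_distrib, sum_add_distrib, ← mul_sum, ← mul_sum,
    tup_sum hh.ok.fx] at hsum
  have hρ : 0 ≤ rho D.BX := (rho_pos hh.ok.fx hKp).le
  have h5 : (D.J2 * N : ℝ) * rho D.BX ≤ D.J1 * rho D.BX * N / JJ N := by
    rw [le_div_iff₀ hJp]
    have h6 : (JJ N * D.J2 : ℝ) ≤ D.J1 := by exact_mod_cast hj21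
    have h7 : (0 : ℝ) ≤ N * rho D.BX := by positivity
    nlinarith [mul_le_mul_of_nonneg_right h6 h7]
  have h8 : (D.J1 * rho D.BX * N) / (2 * (Real.log N) ^ 5) =
      D.J1 * N / (2 * (Real.log N) ^ 5) * rho D.BX := by ring
  have h9 : 2 / JJ N * (D.J1 * N) * rho D.BX = 2 / JJ N * (D.J1 * rho D.BX * N) := by ring
  rw [h8]
  rw [h9] at hsum
  linarith

open Classical in
theorem betax (hh : Hyp3 P N D Lk Bd A) (χ : DirichletCharacter ℂ N) (hsq : χ ^ 2 = 1)
    (hb : Blk P N 12 (-1) χ) (fx : ∀ c, ∀ p ∈ D.BX c, χ (p : ZMod N) = -1)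
    (β : ℝ) (hβ : β = 1 ∨ β = -1)
    (h : (((Finset.univ : Finset (ZMod N)).filter fun x => IsUnit x ∧
      (FF P N D x : ℂ) ≠ β * χ x).card : ℝ) ≤ (Real.log N) ^ 101 * N / JJ N) : β = 1 := by
  rcases hβ with hβ | hβ
  · exact hβ
  exfalso
  subst hβ
  have hN2 := N_two hh.nx
  have hNp : (0 : ℝ) < N := by exact_mod_cast (by omega : 0 < N)
  have hM := mr_pos_X hh.nx hh.ok
  have h1 := betax_lower hh χ hsq hb
  have h2 := betax_pairs hh χ fx
  have h3 := betax_upper hh χ h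
  refine betax_num hh.nx (X := D.J1 * rho D.BX * N) (by positivity) (h1.trans ?_)
  exact add_le_add le_rfl (h2.trans h3)

end Pool.Agent.Lib.T3F
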