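import Pool.Agent.Lib.MP_7b7e48_nt.T3F.Def
import Pool.Agent.Lib.MP_7b7e48_nt.T3F.Cls
import Pool.Agent.Lib.MP_7b7e48_nt.RG.CHR2

/-!
# Module Chx (45 minutes): values of the character at the small primes

Template: `RG/CHR2.lean` (copy its private lemmas). PROOF. The number of units is `φ(N) ≥ N / K`; `FF (l x) ≠ - FF x` for `≤ K ^ 13 N / J` units (`inv1x`), `FF ≠ β χ` at `x` or at
`l x` for `≤ 2 K ^ 100 N / J` units, `J ≥ K ^ 1000`: so there is a unit `x` with `β χ (l x) = - β χ x`, i.e. `χ l = - 1`. `PZ` is not empty (`Num.bl`, `block N M ⊆ PZ N M`), so `χ ≠ 1`.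
-/

set_option autoImplicit false

open Finset

namespace Pool.Agent.Lib.T3F

open Pool.Agent.Lib.TCF

open Pool.Agent.Lib.RG hiding RR sig Good
open Pool.Agent.Lib.RH
open Pool.Agent.Lib.MP_45349e_nt.LS (lam)

variable {P : Prm} {N : ℕ} [NeZero N] {D : Dat} {Lk : ℕ → ℕ → ℕ → ℕ → Prop} {Bd : ℕ → ℕ → Prop}
  {A : Finset (ZMod N)}

private lemma Chx_tot (N : ℕ) [NeZero N] [DecidablePred fun x : ZMod N => IsUnit x] :
    N.totient ≤ ((Finset.univ : Finset (ZMod N)).filter fun x => IsUnit x).card := by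
  rw [← ZMod.card_units_eq_totient N, ← Finset.card_univ]
  refine Finset.card_le_card_of_injOn (fun u : (ZMod N)ˣ => (u : ZMod N)) ?_ ?_
  · intro u _
    simp only [Finset.coe_filter, Finset.mem_univ, true_and, Set.mem_setOf_eq]
    exact u.isUnit
  · intro a _ b _ hab
    exact Units.ext hab

private lemma Chx_num {P : Prm} {N : ℕ} [NeZero N] (hn : Num P N) {a1 a2 a3 : ℕ}
    (h1 : (a1 : ℝ) ≤ (Real.log N) ^ 100 * N / JJ N) (h2 : (a2 : ℝ) ≤ (Real.log N) ^ 100 * N / JJ N)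
    (h3 : (a3 : ℝ) ≤ (Real.log N) ^ 13 * N / JJ N) : a1 + a2 + a3 < N.totient := by
  have hK := hn.K
  have hJ := hn.J1
  have hph := hn.ph
  have hN : (0 : ℝ) < N := by exact_mod_cast (NeZero.pos N)
  generalize hKd : Real.log (N : ℝ) = K at *
  have hK1 : (1 : ℝ) ≤ K := by linarith
  have hK0 : (0 : ℝ) < K := by linarith
  have hJ0 : (0 : ℝ) < JJ N := lt_of_lt_of_le (by positivity) hJ
  have e1 : K ^ 13 ≤ K ^ 100 := pow_le_pow_right₀ hK1 (by norm_num)
  have e2 : K ^ 102 ≤ K ^ 1000 := pow_le_pow_right₀ hK1 (by norm_num)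
  have e3 : K ^ 13 * N / JJ N ≤ K ^ 100 * N / JJ N := by gcongr
  have e4 : (12 * K ^ 100) * N / JJ N * K < N := by
    rw [div_mul_eq_mul_div, div_lt_iff₀ hJ0]
    have e5 : 12 * K ^ 101 < K ^ 102 := by
      have : K ^ 102 = K ^ 101 * K := by ring
      rw [this]
      have h6 : (0 : ℝ) < K ^ 101 := by positivity
      nlinarith
    have e6 : 12 * K ^ 101 < JJ N := by linarith
    have e7 : 12 * K ^ 100 * (N : ℝ) * K = (N : ℝ) * (12 * K ^ 101) := by
      rw [show K ^ 101 = K ^ 100 * K from pow_succ K 100]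
      ring
    rw [e7]
    exact mul_lt_mul_of_pos_left e6 hN
  have e7 : ((a1 + a2 + a3 : ℕ) : ℝ) ≤ (12 * K ^ 100) * N / JJ N := by
    push_cast
    have e8 : (12 * K ^ 100) * N / JJ N = 12 * (K ^ 100 * N / JJ N) := by ring
    have e9 : 0 ≤ K ^ 100 * N / JJ N := by positivity
    rw [e8]
    linarith
  have e8 : ((a1 + a2 + a3 : ℕ) : ℝ) * K < N.totient * K := by
    calc ((a1 + a2 + a3 : ℕ) : ℝ) * K ≤ (12 * K ^ 100) * N / JJ N * K :=
          mul_le_mul_of_nonneg_right e7 hK0.le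
      _ < N := e4
      _ ≤ K * N.totient := hph
      _ = N.totient * K := mul_comm _ _
  have e9 := lt_of_mul_lt_mul_right e8 hK0.le
  exact_mod_cast e9

open Classical in
private lemma Chx_core (hn : Num P N) (χ : DirichletCharacter ℂ N) (β : ℝ)
    (h : (((Finset.univ : Finset (ZMod N)).filter fun x => IsUnit x ∧
      (FF P N D x : ℂ) ≠ β * χ x).card : ℝ) ≤ (Real.log N) ^ 100 * N / JJ N) (u : ZMod N) (hu : IsUnit u)
    (h3 : (((Finset.univ : Finset (ZMod N)).filter fun x => IsUnit x ∧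
      FF P N D (u * x) ≠ - FF P N D x).card : ℝ) ≤ (Real.log N) ^ 13 * N / JJ N) : χ u = -1 := by
  obtain ⟨A1, hA1⟩ : ∃ A, ((Finset.univ : Finset (ZMod N)).filter
    fun x => IsUnit x ∧ (FF P N D x : ℂ) ≠ β * χ x) = A := ⟨_, rfl⟩
  obtain ⟨A3, hA3⟩ : ∃ A, ((Finset.univ : Finset (ZMod N)).filter
    fun x => IsUnit x ∧ FF P N D (u * x) ≠ - FF P N D x) = A := ⟨_, rfl⟩
  obtain ⟨A2, hA2⟩ : ∃ A, ((Finset.univ : Finset (ZMod N)).filter
    fun x => IsUnit x ∧ (FF P N D (u * x) : ℂ) ≠ β * χ (u * x)) = A := ⟨_, rfl⟩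
  rw [hA1] at h
  rw [hA3] at h3
  have h2 : A2.card ≤ A1.card := by
    rw [← hA1, ← hA2]
    refine Finset.card_le_card_of_injOn (fun x => u * x) ?_ ?_
    · intro x hx
      simp only [Finset.coe_filter, Finset.mem_univ, true_and, Set.mem_setOf_eq] at hx ⊢
      exact ⟨hu.mul hx.1, hx.2⟩
    · intro a _ b _ hab
      exact hu.mul_left_cancel hab
  have hlt : (A1 ∪ A2 ∪ A3).card < ((Finset.univ : Finset (ZMod N)).filter fun x => IsUnit x).card := by
    have e1 : (A1 ∪ A2 ∪ A3).card ≤ A1.card + A2.card + A3.card :=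
      (Finset.card_union_le _ _).trans (Nat.add_le_add_right (Finset.card_union_le _ _) _)
    have e2 := Chx_tot N
    have e3 : A1.card + A2.card + A3.card < N.totient :=
      Chx_num hn h (le_trans (by exact_mod_cast h2) h) h3
    omega
  obtain ⟨x, hx, hx'⟩ := Finset.exists_mem_notMem_of_card_lt_card hlt
  rw [Finset.mem_filter] at hx
  have hxu : IsUnit x := hx.2
  rw [Finset.mem_union, Finset.mem_union, not_or, not_or, ← hA1, ← hA2, ← hA3] at hx'
  obtain ⟨⟨k1, k2⟩, k3⟩ := hx'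
  have m1 : (FF P N D x : ℂ) = β * χ x := by
    by_contra hc
    exact k1 (Finset.mem_filter.2 ⟨Finset.mem_univ _, hxu, hc⟩)
  have m2 : (FF P N D (u * x) : ℂ) = β * χ (u * x) := by
    by_contra hc
    exact k2 (Finset.mem_filter.2 ⟨Finset.mem_univ _, hxu, hc⟩)
  have m3 : FF P N D (u * x) = - FF P N D x := by
    by_contra hc
    exact k3 (Finset.mem_filter.2 ⟨Finset.mem_univ _, hxu, hc⟩)
  have hfx : (FF P N D x : ℂ) ≠ 0 := by
    rcases ff_pm (P := P) (D := D) hxu with e | e <;> rw [e] <;> norm_num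
  rw [m3, map_mul] at m2
  push_cast at m2
  have m4 : (-1 : ℂ) * (FF P N D x : ℂ) = χ u * (FF P N D x : ℂ) := by
    rw [neg_one_mul, m2, m1]
    ring
  exact (mul_right_cancel₀ hfx m4).symm

open Classical in
theorem chx (hh : Hyp3 P N D Lk Bd A) (χ : DirichletCharacter ℂ N) (β : ℝ) (hβ : β = 1 ∨ β = -1)
    (h : (((Finset.univ : Finset (ZMod N)).filter fun x => IsUnit x ∧
      (FF P N D x : ℂ) ≠ β * χ x).card : ℝ) ≤ (Real.log N) ^ 100 * N / JJ N) :
    χ ≠ 1 ∧ ∀ l ∈ PZ N (MM P N), χ (l : ZMod N) = -1 := by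
  have hn := hh.nx.num
  have hl : ∀ l ∈ PZ N (MM P N), χ (l : ZMod N) = -1 := by
    intro l hl
    have hl' := mem_PZ.1 hl
    have hu : IsUnit (l : ZMod N) :=
      unit_of_coprime ((Nat.Prime.coprime_iff_not_dvd hl'.2.2.1).2 hl'.2.2.2)
    exact Chx_core hn χ β h (l : ZMod N) hu (inv1x hh hl)
  refine ⟨?_, hl⟩
  rintro rfl
  have hK := hn.K
  have hK1 : (1 : ℝ) ≤ Real.log N := by linarith
  have hMK : (Real.log N) ^ 3 ≤ MM P N :=
    le_trans (pow_le_pow_right₀ hK1 (by have := hh.hP.C1; omega)) hn.M1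
  have hMN : MM P N ≤ N := by
    have h1 := MM_lt_zz hn
    have h2 : zz P N ≤ N := by
      have h3 := hn.z1
      have h4 : (N : ℝ) ^ P.c ≤ (N : ℝ) ^ (1 : ℝ) := by
        apply Real.rpow_le_rpow_of_exponent_le
        · have h5 : 1 ≤ N := le_trans (by norm_num) (N_pos hn)
          exact_mod_cast h5
        · have := hh.hP.c1
          have := hh.hP.kap1
          linarith
      rw [Real.rpow_one] at h4
      exact_mod_cast h3.trans h4
    omega
  have hb := hn.bl (MM P N) hMK hMN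
  have hM0 : (0 : ℝ) < MM P N := lt_of_lt_of_le (by positivity) hMK
  have hbpos : 0 < (block N (MM P N)).card := by
    have : (0 : ℝ) < (block N (MM P N)).card := lt_of_lt_of_le (by positivity) hb
    exact_mod_cast this
  obtain ⟨l, hlb⟩ := Finset.card_pos.1 hbpos
  have hlb' := mem_block.1 hlb
  have hlP : l ∈ PZ N (MM P N) := by
    rw [mem_PZ]
    refine ⟨hlb'.1, hlb'.2.1.trans ?_, hlb'.2.2.1, hlb'.2.2.2⟩
    have : 1 ≤ MM P N := by exact_mod_cast hM0
    nlinarith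
  have hu : IsUnit (l : ZMod N) :=
    unit_of_coprime ((Nat.Prime.coprime_iff_not_dvd hlb'.2.2.1).2 hlb'.2.2.2)
  have e1 := hl l hlP
  rw [MulChar.one_apply hu] at e1
  norm_num at e1

end Pool.Agent.Lib.T3F
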