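import Pool.Agent.Lib.MP_7b7e48_nt.T3F.Def
import Pool.Agent.Lib.MP_7b7e48_nt.T3F.Cls

/-!
# Module Fq (45 minutes): the sign function does not change if structure primes of the `X`-family are removed

PROOF. Let `D' = D.delX Q`. `PY` is the same for `D` and `D'` (`rfl` up to unfolding: only `BY`, `J0` occur). For a unit `x ∉ A` with `Typ 1` for `D` and for `D'` (all but `2 K ^ 12 N / JJ + |A|` units, `cls` for both):
by `typ_y` the `Y`-weight with `lam = FF D x` and the one with `lam = FF D' x` are both `≥ (17 / 20) PY x`, `PY x > 0` (`typ_pos`). If `FF D x ≠ FF D' x` these are disjoint sets of `Y`: `(34 / 20) PY ≤ PY`, a contradiction.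
-/

set_option autoImplicit false

open Finset

namespace Pool.Agent.Lib.T3F

open Pool.Agent.Lib.TCF

open Pool.Agent.Lib.RG hiding RR sig Good
open Pool.Agent.Lib.RH
open Pool.Agent.Lib.MP_45349e_nt.LS (lam)

variable {P : Prm} {N : ℕ} [NeZero N] {D : Dat} {Lk : ℕ → ℕ → ℕ → ℕ → Prop} {Bd : ℕ → ℕ → Prop}
  {A : Finset (ZMod N)}

open Classical in
theorem fq {A' : Finset (ZMod N)} (Q : Finset ℕ) (hh : Hyp3 P N D Lk Bd A)
    (hh' : Hyp3 P N (D.delX Q) Lk Bd A') :
    (((Finset.univ : Finset (ZMod N)).filter fun x => IsUnit x ∧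
      FF P N D x ≠ FF P N (D.delX Q) x).card : ℝ) ≤ (Real.log N) ^ 13 * N / JJ N := by
  have hph : ∀ a : ℕ, 0 ≤ ph P N D.BY a := by
    intro a
    unfold ph
    split_ifs
    · unfold pht
      exact Finset.prod_nonneg fun c _ => Nat.cast_nonneg _
    · exact le_rfl
  -- the sign does not change
  have key : ∀ x : ZMod N, IsUnit x → x ∉ A → x ∉ A' → Typ P N D Lk Bd 1 x →
      Typ P N (D.delX Q) Lk Bd 1 x → FF P N D x = FF P N (D.delX Q) x := by
    intro x hx hA hA' h1 h2
    by_contra hne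
    have h3 := typ_y hh hx hA h1
    have h4 := typ_y hh' hx hA' h2
    obtain ⟨-, hp, -⟩ := typ_pos hh h1
    have e1 : PY P N (D.delX Q) x = PY P N D x := rfl
    have e2 : ∑ i ∈ range (D.delX Q).J0, (if lam (x.val + i * N) = FF P N (D.delX Q) x then
        ph P N (D.delX Q).BY (x.val + i * N) else 0) =
        ∑ i ∈ range D.J0, (if lam (x.val + i * N) = FF P N (D.delX Q) x then
        ph P N D.BY (x.val + i * N) else 0) := rfl
    rw [e1, e2] at h4
    have h5 : ∑ i ∈ range D.J0, (if lam (x.val + i * N) = FF P N D x then ph P N D.BY (x.val + i * N) else 0) +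
        ∑ i ∈ range D.J0, (if lam (x.val + i * N) = FF P N (D.delX Q) x then ph P N D.BY (x.val + i * N) else 0) ≤
        PY P N D x := by
      unfold PY
      rw [← Finset.sum_add_distrib]
      refine Finset.sum_le_sum fun i _ => ?_
      have h6 := hph (x.val + i * N)
      by_cases h7 : lam (x.val + i * N) = FF P N D x
      · rw [if_pos h7, if_neg (fun h8 => hne (h7.symm.trans h8)), add_zero]
      · rw [if_neg h7, zero_add]
        split_ifs
        · exact le_rfl
        · exact h6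
    linarith
  obtain ⟨U, hU⟩ : ∃ U : Finset (ZMod N), U = (Finset.univ : Finset (ZMod N)).filter fun x => IsUnit x ∧
      ¬ Typ P N D Lk Bd 1 x := ⟨_, rfl⟩
  obtain ⟨U', hU'⟩ : ∃ U' : Finset (ZMod N), U' = (Finset.univ : Finset (ZMod N)).filter fun x => IsUnit x ∧
      ¬ Typ P N (D.delX Q) Lk Bd 1 x := ⟨_, rfl⟩
  have hc1 : (U.card : ℝ) ≤ (Real.log N) ^ 12 * N / JJ N := by
    rw [hU]
    exact cls hh (Or.inl rfl)
  have hc2 : (U'.card : ℝ) ≤ (Real.log N) ^ 12 * N / JJ N := by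
    rw [hU']
    exact cls hh' (Or.inl rfl)
  have hsub : (Finset.univ : Finset (ZMod N)).filter (fun x => IsUnit x ∧
      FF P N D x ≠ FF P N (D.delX Q) x) ⊆ (U ∪ U') ∪ (A ∪ A') := by
    intro x hx
    obtain ⟨-, hu, hne⟩ := Finset.mem_filter.1 hx
    rw [Finset.mem_union, Finset.mem_union, Finset.mem_union, hU, hU', Finset.mem_filter,
      Finset.mem_filter]
    by_contra hcon
    simp only [not_or, not_and, Finset.mem_univ, true_and, not_not] at hcon
    exact hne (key x hu hcon.2.1 hcon.2.2 (hcon.1.1 hu) (hcon.1.2 hu))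
  have hcard : (((Finset.univ : Finset (ZMod N)).filter fun x => IsUnit x ∧
      FF P N D x ≠ FF P N (D.delX Q) x).card : ℝ) ≤ U.card + U'.card + (A.card + A'.card) := by
    have h1 := (Finset.card_le_card hsub).trans ((Finset.card_union_le _ _).trans
      (Nat.add_le_add (Finset.card_union_le _ _) (Finset.card_union_le _ _)))
    exact_mod_cast h1
  have hac := hh.ac
  have hac' := hh'.ac
  have hK9 := hK hh.nx
  have hj1 : (1 : ℝ) ≤ JJ N := by exact_mod_cast jj_one hh.nx
  obtain ⟨K, hKd⟩ : ∃ K : ℝ, K = Real.log N := ⟨_, rfl⟩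
  obtain ⟨j, hjd⟩ : ∃ j : ℝ, j = (JJ N : ℝ) := ⟨_, rfl⟩
  obtain ⟨n, hnd⟩ : ∃ n : ℝ, n = (N : ℝ) := ⟨_, rfl⟩
  have hn0 : 0 ≤ n := by rw [hnd]; exact Nat.cast_nonneg _
  rw [← hKd, ← hjd, ← hnd] at hc1 hc2
  rw [← hjd, ← hnd] at hac hac'
  rw [← hKd] at hK9
  rw [← hjd] at hj1
  rw [← hKd, ← hjd, ← hnd]
  have hj0 : 0 < j := by linarith
  have h1 : n / j ^ 2 ≤ n / j := by
    apply div_le_div_of_nonneg_left hn0 hj0
    calc j = j * 1 := (mul_one j).symm
      _ ≤ j * j := mul_le_mul_of_nonneg_left hj1 hj0.le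
      _ = j ^ 2 := (sq j).symm
  have hK12 : 1 ≤ K ^ 12 := one_le_pow₀ (by linarith)
  have hnj : 0 ≤ n / j := div_nonneg hn0 hj0.le
  have h2 : (2 * K ^ 12 + 2) * (n / j) ≤ K ^ 13 * (n / j) := by
    refine mul_le_mul_of_nonneg_right ?_ hnj
    have h3 : K ^ 13 = K * K ^ 12 := by ring
    rw [h3]
    have h4 : 4 * K ^ 12 ≤ K * K ^ 12 := mul_le_mul_of_nonneg_right (by linarith) (by linarith)
    linarith
  have h5 : K ^ 12 * n / j = K ^ 12 * (n / j) := by ring
  have h6 : K ^ 13 * n / j = K ^ 13 * (n / j) := by ring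
  rw [h6]
  rw [h5] at hc1 hc2
  linarith


end Pool.Agent.Lib.T3F
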