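import Pool.Agent.Lib.MP_7b7e48_nt.T3F.Def
import Pool.Agent.Lib.MP_7b7e48_nt.T3F.Nx
import Pool.Agent.Lib.MP_7b7e48_nt.TCF.Usl0
import Pool.Agent.Lib.MP_7b7e48_nt.RG.UF

/-!
# Module Ufx (75 minutes): the sign function is concentrated on one character

Template: `RG/UF.lean` (copy its private lemmas `uf_sumsq`, `uf_abs`). `K = log N`, `J = JJ N`, `M = J1 rho_X`, `S = ∑ FF ^ 2 = φ(N) ≥ N / K`.
PROOF. `MassX` with `θ = -1`, `h = FF`, `ρ n = - lam n`, `L Y = block N Y`, `ε = K ^ 40 / J`.
`zero`: `ff_zero`. `big`: `Num.bl`. `inv`: by `inv1x` the square is `≤ 4` for at most `K ^ 13 N / J` units and `0` for the others (for a non unit both values are `0`): `4 K ^ 13 N / J ≤ ε S`.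
`one`: for `a = l (m n)` with `GG a` the term is `(FF a + lam (m n)) ^ 2 = (FF a - lam a) ^ 2 ≤ 4 [lam a ≠ FF a]` (`lam_mul_prime`; `a` is coprime to `N`, so its class is a
unit and `FF a = ± 1`); by `mulx_one` with `W a = 4 [lam a ≠ FF a]` the sum is `≤ 4 K ∑_a pht a W a` over the `a` in `(J2 N, J1 N]`, rough, coprime, `GD`; there `pht a = ph a`
and by `sum_split` (with the function `a ↦ [Rgh1 a ∧ GD a] pht a W a`; the class of `x.val + j N` is `x`) and `nx` this is `≤ 4 K * 4 K ^ 14 M N / J ≤ ε M S`. `two`: the same with `mulx_two`: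
`(FF a - θ ρ (m n)) = FF a - lam (m n)`, `a = l1 l2 (m n)`, `lam a = lam (m n)`.
The sum is `≤ (4 K) ^ 2 * 4 K ^ 14 M N / J`. Conclusion: `χ0` with `φ ∑ ≤ K ^ 50 ε φ ≤ K ^ 100 φ / J` and `∑_{block} |χ l + 1| ^ 2 ≤ 2 K ^ 30 ε |block| ≤ 2 ^ i / K ^ 12`.
-/

set_option autoImplicit false

open Finset

namespace Pool.Agent.Lib.T3F

open Pool.Agent.Lib.TCF

open Pool.Agent.Lib.RG hiding RR sig Good
open Pool.Agent.Lib.RH
open Pool.Agent.Lib.MP_45349e_nt.LS (lam)

variable {P : Prm} {N : ℕ} [NeZero N] {D : Dat} {Lk : ℕ → ℕ → ℕ → ℕ → Prop} {Bd : ℕ → ℕ → Prop}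
  {A : Finset (ZMod N)}

private theorem ufx_sumsq (f : ZMod N → ℝ)
    (f0 : ∀ x : ZMod N, ¬ IsUnit x → f x = 0) (f1 : ∀ x : ZMod N, IsUnit x → f x = 1 ∨ f x = -1) :
    ∑ x : ZMod N, f x ^ 2 = (N.totient : ℝ) := by
  classical
  have h0 := chOrth (1 : DirichletCharacter ℂ N) 1
  rw [if_pos rfl] at h0
  have h1 : ∀ x : ZMod N, ((f x ^ 2 : ℝ) : ℂ) =
      (1 : DirichletCharacter ℂ N) x * (starRingEnd ℂ) ((1 : DirichletCharacter ℂ N) x) := by
    intro x
    rw [← chNormsq]
    congr 1
    by_cases h : IsUnit x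
    · rw [chNorm _ h]
      rcases f1 x h with h2 | h2 <;> simp [h2]
    · rw [f0 x h, MulChar.map_nonunit _ h]; norm_num
  have h2 : ((∑ x : ZMod N, f x ^ 2 : ℝ) : ℂ) = ((N.totient : ℝ) : ℂ) := by
    rw [Complex.ofReal_sum, sum_congr rfl fun x _ => h1 x, h0]
    push_cast
    rfl
  exact_mod_cast h2

private theorem ufx_cast (x : ZMod N) (j : ℕ) : ((x.val + j * N : ℕ) : ZMod N) = x := by
  push_cast
  rw [ZMod.natCast_self, mul_zero, add_zero, ZMod.natCast_val, ZMod.cast_id', id]

open Classical in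
/-- the weight `4` at the numbers with the wrong sign -/
private noncomputable def ufxW (P : Prm) (N : ℕ) (D : Dat) (a : ℕ) : ℝ :=
  if lam a ≠ FF P N D ((a : ℕ) : ZMod N) then 4 else 0

private theorem ufxW_nonneg (P : Prm) (N : ℕ) (D : Dat) (a : ℕ) : 0 ≤ ufxW P N D a := by
  unfold ufxW
  split_ifs <;> norm_num

private theorem ufx_pt {a : ℕ} (ha : a.Coprime N) :
    (FF P N D ((a : ℕ) : ZMod N) - lam a) ^ 2 ≤ ufxW P N D a := by
  unfold ufxW
  split_ifs with h
  · rcases ff_pm (P := P) (D := D) (unit_of_cop ha) with h1 | h1 <;>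
      rcases lam_pm a with h2 | h2 <;> rw [h1, h2] <;> norm_num
  · push Not at h
    rw [h, sub_self]
    norm_num

open Classical in
private theorem ufx_ag (hh : Hyp3 P N D Lk Bd A) :
    ∑ a ∈ AG P N D, pht D.BX a * ufxW P N D a ≤
      4 * ((Real.log N) ^ 14 * (D.J1 * rho D.BX) * N / JJ N) := by
  have e0 : AG P N D = ((Ioc (D.J2 * N) (D.J1 * N)).filter (fun a => a.Coprime N)).filter
      (fun a => Rgh1 P N a ∧ GD N D ((a : ℕ) : ZMod N)) := by
    unfold AG
    rw [filter_filter]
    refine filter_congr fun a _ => ?_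
    constructor
    · intro h
      exact ⟨h.1.1, h⟩
    · intro h
      exact h.2
  rw [e0, sum_filter, sum_split hh.nx (D := D)]
  have e1 : (Finset.univ.filter fun x : ZMod N => IsUnit x ∧ GD N D x) =
      (Finset.univ.filter fun x : ZMod N => IsUnit x).filter fun x => GD N D x := by
    rw [filter_filter]
  have h0 := nx hh
  rw [e1, sum_filter] at h0
  refine le_trans ?_ (mul_le_mul_of_nonneg_left h0 (by norm_num : (0 : ℝ) ≤ 4))
  rw [mul_sum]
  refine sum_le_sum fun x _ => ?_
  by_cases hg : GD N D x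
  · rw [if_pos hg, mul_sum]
    refine sum_le_sum fun j _ => ?_
    by_cases hr : Rgh1 P N (x.val + j * N)
    · have hr' : (x.val + j * N).Coprime N ∧ Rough (MM P N) (x.val + j * N) := hr
      rw [if_pos ⟨hr, by rw [ufx_cast]; exact hg⟩]
      unfold ph ufxW
      rw [if_pos hr', ufx_cast]
      by_cases hl : lam (x.val + j * N) ≠ FF P N D x
      · rw [if_pos hl, if_pos hl]
        apply le_of_eq
        ring
      · rw [if_neg hl, if_neg hl]
        apply le_of_eq
        ring
    · rw [if_neg (fun h => hr h.1)]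
      refine mul_nonneg (by norm_num) ?_
      split_ifs
      · exact ph_nonneg _ _ _ _
      · exact le_rfl
  · rw [if_neg hg, mul_zero]
    apply le_of_eq
    refine sum_eq_zero fun j _ => ?_
    rw [if_neg]
    intro h
    apply hg
    have h2 := h.2
    rwa [ufx_cast] at h2

open Classical in
theorem ufx (hh : Hyp3 P N D Lk Bd A) (hM : MassX P N D) :
    ∃ χ : DirichletCharacter ℂ N, Blk P N 12 (-1) χ ∧
      (N.totient : ℝ) * ∑ χ' ∈ Finset.univ.erase χ, ‖bch (fun x => (FF P N D x : ℂ)) χ'‖ ^ 2 ≤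
        (Real.log N) ^ 100 * N.totient / JJ N := by
  have hn := hh.nx.num
  have hP := hh.hP
  set K := Real.log N with hK
  have hK9 := hn.K
  rw [← hK] at hK9
  have hKpos : 0 < K := by linarith
  have hK1 : 1 ≤ K := by linarith
  have hJ := hn.J1
  rw [← hK] at hJ
  have hJpos : (0 : ℝ) < JJ N := lt_of_lt_of_le (by positivity) hJ
  have hφ : (0 : ℝ) < (N.totient : ℝ) := phi_pos
  have hN2 := N_two hh.nx
  have hMM1 := mm_one P N
  have hMpos := mr_pos_X hh.nx hh.ok
  have hHH : HH N P.kap ≤ N := by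
    unfold HH
    have h2 : (N : ℝ) ^ (1 / 2 - 2 * P.kap) ≤ (N : ℝ) ^ (1 : ℝ) := by
      refine Real.rpow_le_rpow_of_exponent_le (by exact_mod_cast (by omega : 1 ≤ N)) ?_
      have := hP.kap0
      linarith
    rwa [Real.rpow_one] at h2
  set ε : ℝ := K ^ 40 / JJ N with hε
  have hε0 : 0 ≤ ε := by positivity
  have hsq := ufx_sumsq (FF P N D) (fun x hx => ff_zero hx) (fun x hx => ff_pm hx)
  have hph := hn.ph
  rw [← hK] at hph
  -- the main comparison
  have hkey : ∀ m : ℕ, m ≤ 38 → ∀ c : ℝ, 0 ≤ c → c ≤ K → ∀ X : ℝ, 0 ≤ X →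
      c * (K ^ m * X * N / JJ N) ≤ ε * X * ∑ x : ZMod N, FF P N D x ^ 2 := by
    intro m hm c hc0 hc X hX
    rw [hsq, hε]
    have e1 : c * (K ^ m * X * N / JJ N) = (c * K ^ m * N) * (X / JJ N) := by ring
    have e2 : K ^ 40 / JJ N * X * (N.totient : ℝ) = (K ^ 40 * N.totient) * (X / JJ N) := by ring
    rw [e1, e2]
    refine mul_le_mul_of_nonneg_right ?_ (by positivity)
    calc c * K ^ m * N ≤ K * K ^ 38 * (K * N.totient) := by
          gcongr
      _ = K ^ 40 * N.totient := by ring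
  have hag := ufx_ag hh
  rw [← hK] at hag
  have husl : USLX P N D ε (-1) (FF P N D) (fun n => -lam n) (fun Y => block N Y) := by
    refine ⟨fun x hx => ff_zero hx, fun Y => subset_refl _, ?_, ?_, ?_, ?_⟩
    · intro i hMi hi
      have h1 : 2 ^ i ≤ N := by
        have h1 : ((2 ^ i : ℕ) : ℝ) ≤ (N : ℝ) := by
          push_cast
          exact hi.trans hHH
        exact_mod_cast h1
      have h2 : K ^ 3 ≤ ((2 ^ i : ℕ) : ℝ) := by
        have h3 : K ^ 3 ≤ K ^ P.C1 := pow_le_pow_right₀ hK1 (by have := hP.C1; omega)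
        have h4 := hn.M1
        rw [← hK] at h4
        have h5 : (MM P N : ℝ) ≤ ((2 ^ i : ℕ) : ℝ) := by exact_mod_cast hMi
        linarith
      have h3 := hn.bl (2 ^ i) h2 h1
      rw [← hK] at h3
      refine le_trans ?_ h3
      push_cast
      have h4 : (0 : ℝ) < 2 ^ i := by positivity
      gcongr
      nlinarith
    · intro l hl
      have hlm := mem_PZ.mp hl
      have hlu : IsUnit (l : ZMod N) := (ZMod.isUnit_iff_coprime l N).mpr
        ((Nat.Prime.coprime_iff_not_dvd hlm.2.2.1).mpr hlm.2.2.2)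
      have h1 : ∀ x : ZMod N, (FF P N D ((l : ZMod N) * x) - -1 * FF P N D x) ^ 2 ≤
          if IsUnit x ∧ FF P N D ((l : ZMod N) * x) ≠ -FF P N D x then 4 else 0 := by
        intro x
        by_cases hx : IsUnit x
        · split_ifs with h2
          · rcases ff_pm (P := P) (D := D) (hlu.mul hx) with h3 | h3 <;>
              rcases ff_pm (P := P) (D := D) hx with h4 | h4 <;> rw [h3, h4] <;> norm_num
          · push Not at h2
            rw [h2 hx]
            apply le_of_eq
            ring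
        · have h2 : ¬ IsUnit ((l : ZMod N) * x) := by
            intro h3
            exact hx (isUnit_of_mul_isUnit_right h3)
          rw [ff_zero hx, ff_zero h2]
          split_ifs <;> norm_num
      refine (sum_le_sum fun x _ => h1 x).trans ?_
      rw [← Finset.sum_filter, Finset.sum_const, nsmul_eq_mul]
      have h2 := inv1x hh hl
      rw [← hK] at h2
      have h3 := hkey 13 (by norm_num) 4 (by norm_num) (by linarith) 1 (by norm_num)
      rw [mul_one, mul_one] at h3
      linarith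
    · intro i hMi hi
      have hMi' : MM P N ≤ 2 ^ i := by
        have : MM P N ≤ 2 * MM P N ^ 2 := by nlinarith
        omega
      have h1 : ∀ l ∈ block N (2 ^ i), ∀ m ∈ TUP D.BX,
          ∀ n ∈ RN N (zz P N) (D.J1 * N / (2 * 2 ^ i * m)),
          (if GG N D (l * (m * n)) then
            (FF P N D ((l * (m * n) : ℕ) : ZMod N) - -lam (m * n)) ^ 2 else 0) ≤
          (if GG N D (l * (m * n)) then ufxW P N D (l * (m * n)) else 0) := by
        intro l hl m hm n hn'
        split_ifs with hg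
        · have hlm := mem_block.mp hl
          obtain ⟨m1, -, -, m4, -⟩ := tup_facts hh.ok.fx hm
          unfold RN at hn'
          rw [mem_filter, mem_Icc] at hn'
          have hcop : (l * (m * n)).Coprime N :=
            Nat.Coprime.mul_left ((Nat.Prime.coprime_iff_not_dvd hlm.2.2.1).mpr hlm.2.2.2)
              (Nat.Coprime.mul_left m4 hn'.2.2)
          have hpos : 0 < m * n := Nat.mul_pos (by omega) (by omega)
          have h2 := ufx_pt (P := P) (D := D) hcop
          refine le_trans (le_of_eq ?_) h2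
          rw [lam_mul_prime hlm.2.2.1 hpos]
        · exact le_rfl
      refine (sum_le_sum fun l hl => sum_le_sum fun m hm => sum_le_sum fun n hn' =>
        h1 l hl m hm n hn').trans ?_
      refine (mulx_one hP hh.nx hh.ok hMi' (block N (2 ^ i)) (subset_refl _)
        (ufxW P N D) (ufxW_nonneg P N D)).trans ?_
      rw [← hK]
      have h3 := hkey 15 (by norm_num) 16 (by norm_num) (by linarith) (D.J1 * rho D.BX) hMpos.le
      refine le_trans ?_ h3
      calc 4 * K * ∑ a ∈ AG P N D, pht D.BX a * ufxW P N D a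
          ≤ 4 * K * (4 * (K ^ 14 * (D.J1 * rho D.BX) * N / JJ N)) := by gcongr
        _ = 16 * (K ^ 15 * (D.J1 * rho D.BX) * N / JJ N) := by ring
    · intro i hMi hi
      have h1 : ∀ l1 ∈ block N (MM P N), ∀ l2 ∈ block N (2 ^ i / (2 * MM P N)), ∀ m ∈ TUP D.BX,
          ∀ n ∈ RN N (zz P N) (D.J1 * N / (2 * 2 ^ i * m)),
          (if GG N D (l1 * l2 * (m * n)) then
            (FF P N D ((l1 * l2 * (m * n) : ℕ) : ZMod N) - -1 * -lam (m * n)) ^ 2 else 0) ≤
          (if GG N D (l1 * l2 * (m * n)) then ufxW P N D (l1 * l2 * (m * n)) else 0) := by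
        intro l1 hl1 l2 hl2 m hm n hn'
        split_ifs with hg
        · have hlm1 := mem_block.mp hl1
          have hlm2 := mem_block.mp hl2
          obtain ⟨m1, -, -, m4, -⟩ := tup_facts hh.ok.fx hm
          unfold RN at hn'
          rw [mem_filter, mem_Icc] at hn'
          have hcop : (l1 * l2 * (m * n)).Coprime N :=
            Nat.Coprime.mul_left (Nat.Coprime.mul_left
              ((Nat.Prime.coprime_iff_not_dvd hlm1.2.2.1).mpr hlm1.2.2.2)
              ((Nat.Prime.coprime_iff_not_dvd hlm2.2.2.1).mpr hlm2.2.2.2))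
              (Nat.Coprime.mul_left m4 hn'.2.2)
          have hpos : 0 < m * n := Nat.mul_pos (by omega) (by omega)
          have hpos2 : 0 < l2 * (m * n) := Nat.mul_pos hlm2.2.2.1.pos hpos
          have h2 := ufx_pt (P := P) (D := D) hcop
          refine le_trans (le_of_eq ?_) h2
          rw [mul_assoc l1 l2, lam_mul_prime hlm1.2.2.1 hpos2, lam_mul_prime hlm2.2.2.1 hpos]
          ring
        · exact le_rfl
      refine (sum_le_sum fun l1 hl1 => sum_le_sum fun l2 hl2 => sum_le_sum fun m hm =>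
        sum_le_sum fun n hn' => h1 l1 hl1 l2 hl2 m hm n hn').trans ?_
      refine (mulx_two hP hh.nx hh.ok hMi (block N (MM P N)) (block N (2 ^ i / (2 * MM P N)))
        (subset_refl _) (subset_refl _) (ufxW P N D) (ufxW_nonneg P N D)).trans ?_
      rw [← hK]
      have h3 := hkey 16 (by norm_num) 64 (by norm_num) (by linarith) (D.J1 * rho D.BX) hMpos.le
      refine le_trans ?_ h3
      calc (4 * K) ^ 2 * ∑ a ∈ AG P N D, pht D.BX a * ufxW P N D a
          ≤ (4 * K) ^ 2 * (4 * (K ^ 14 * (D.J1 * rho D.BX) * N / JJ N)) := by gcongr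
        _ = 64 * (K ^ 16 * (D.J1 * rho D.BX) * N / JJ N) := by ring
  have hbigJ : ∀ m : ℕ, m ≤ 900 → 2 * K ^ m ≤ JJ N := by
    intro m hm9
    refine le_trans ?_ hJ
    calc 2 * K ^ m ≤ K * K ^ m := by gcongr; linarith
      _ = K ^ (m + 1) := by ring
      _ ≤ K ^ 1000 := pow_le_pow_right₀ hK1 (by omega)
  obtain ⟨χ, h1, h2, -⟩ := hM (-1) ε (FF P N D) (fun n => -lam n) (fun Y => block N Y)
    (by norm_num) hε0
    (by
      rw [← hK, hε, ← mul_div_assoc, ← pow_add, div_le_one hJpos]
      have := hbigJ (60 + 40) (by norm_num)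
      have h3 : 0 < K ^ (60 + 40) := by positivity
      linarith)
    (by rw [hsq]; exact hφ)
    (by
      intro i _
      rw [sdiff_self]
      simp only [Finset.bot_eq_empty, card_empty, Nat.cast_zero]
      rw [← hK]
      positivity)
    husl
  refine ⟨χ, ?_, ?_⟩
  · intro i hi
    refine (h2 i hi).trans ?_
    rw [← hK]
    have h3 : ((block N (2 ^ i)).card : ℝ) ≤ 2 ^ i := by exact_mod_cast block_card_le N (2 ^ i)
    have h4 : 2 * K ^ 30 * ε ≤ 1 / K ^ 12 := by
      rw [le_div_iff₀ (by positivity), hε]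
      have h5 : 2 * K ^ 30 * (K ^ 40 / JJ N) * K ^ 12 = 2 * K ^ 82 / JJ N := by ring
      rw [h5, div_le_one hJpos]
      exact hbigJ 82 (by norm_num)
    calc 2 * K ^ 30 * ε * ((block N (2 ^ i)).card : ℝ) ≤ 1 / K ^ 12 * 2 ^ i := by gcongr
      _ = 2 ^ i / K ^ 12 := by ring
  · refine h1.trans ?_
    rw [← hK, hsq, hε]
    calc K ^ 50 * (K ^ 40 / JJ N * (N.totient : ℝ)) = K ^ 90 * N.totient / JJ N := by ring
      _ ≤ K ^ 100 * N.totient / JJ N := by
          gcongr
          norm_num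

end Pool.Agent.Lib.T3F
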