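import Pool.Agent.Lib.MP_7b7e48_nt.T3F.Sub
import Pool.Agent.Lib.MP_7b7e48_nt.T3F.Ufx
import Pool.Agent.Lib.MP_7b7e48_nt.T3F.Chx
import Pool.Agent.Lib.MP_7b7e48_nt.T3F.Fq
import Pool.Agent.Lib.MP_7b7e48_nt.T3F.Betax
import Pool.Agent.Lib.MP_7b7e48_nt.RG.CHR1

/-!
# The environment

`S = sh D`: `Hyp3` with the exceptional set of `D` (`apx3`), `ufx`, `chr1`, `chx` give the character. `Q = QS P χ`: `fq` for `S` and `sh (D.delX Q)`, the sign `FF` of `sh (D.delX Q)` is that of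
`sh (D.del Q)` (the `Y`-family does not occur). `Hyp3` for `sh (D.del Q)` with `A1 ∩ A2` (`a0`, `a1`), `betax`.
-/

set_option autoImplicit false

open Finset

namespace Pool.Agent.Lib.T3F

open Pool.Agent.Lib.TCF
open Pool.Agent.Lib.RG hiding RR sig Good
open Pool.Agent.Lib.RH
open Pool.Agent.Lib.MP_45349e_nt.LS (lam)

variable {P : Prm} {N : ℕ} [NeZero N] {D : Dat} {Bd : ℕ → ℕ → Prop}

theorem env_exists3 (hP : P.Ok) (hn : NumX P N) (hb : Base3 P N D)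
    (hC : ∀ D' : Dat, D'.Ok P N → Cnt P N D') (hM : ∀ D' : Dat, D'.Ok P N → MassX P N D')
    (hS : ∀ χ : DirichletCharacter ℂ N, χ ^ 2 = 1 → χ ≠ 1 →
      ∃ L : ℝ, LV N (fun n => (χ (n : ZMod N)).re) L ∧ (N : ℝ) ^ (-(1 / 200) : ℝ) ≤ L ∧
        L ≤ (Real.log N) ^ 3 * sgm P χ)
    (hB : BsIn P N D Bd) (ha : Ap3 P N D Bd) :
    ∃ (D' : Dat) (A : Finset (ZMod N)) (χ : DirichletCharacter ℂ N), EnvX3 P N D' LT Bd A χ := by
  classical
  have hm4 := base3_m4 hn hb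
  have hbD := hb.base
  have hbS := sh_base hn hb
  have hMX := mr_pos_X hn hbD.ok
  have hMY := mr_pos_Y hn hbD.ok
  have hUU0 : (0 : ℝ) ≤ N * ((D.J1 * rho D.BX) * (D.J0 * rho D.BY)) /
      ((JJ N : ℝ) ^ 4 * (MM P N : ℝ) ^ 4) := by positivity
  obtain ⟨A, hA1, hA2, hA2q, hA3⟩ := apx3 (P := P) (D := D) (Bd := Bd) hn hbS.ok hm4 1 zero_le_one
    (ha.a0.trans (by rw [one_mul]; linarith))
  rw [one_mul] at hA1 hA3
  have hh : Hyp3 P N (sh P N D) LT Bd A :=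
    hyp3_of hP hn hB D hbD.ok hbS.ok (hC _ hbD.ok) (hC _ hbS.ok) rfl rfl rfl rfl (Subset.refl _) (Subset.refl _)
      (by linarith [rho_nn D.BY]) A hA1 hA2 hA2q hA3
  obtain ⟨χ, hblk, hχ⟩ := ufx hh (hM _ hbS.ok)
  obtain ⟨hsq, β, hβ, hcard⟩ := chr1 P N hn.num (FF P N (sh P N D)) (fun x hx => ff_zero hx) (fun x hx => ff_pm hx) χ hχ
  obtain ⟨hne, hsmall⟩ := chx hh χ β hβ hcard
  have hstX := qs_fam hP hn hbD.ok.fx χ hblk
  have hstY := qs_fam hP hn hbD.ok.fy χ hblk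
  obtain ⟨hok1, hr1⟩ := delX_ok hn hbD (QS P χ) hstX
  obtain ⟨hok1S, -⟩ := delX_ok hn hbS (QS P χ) hstX
  obtain ⟨hok2, hr2X, hr2Y⟩ := del_ok hn hbD (QS P χ) hstX hstY
  obtain ⟨hok2S, -, -⟩ := del_ok hn hbS (QS P χ) hstX hstY
  have hσ : 0 ≤ sgm P χ := by
    unfold sgm
    exact sum_nonneg fun q _ => by positivity
  have hJm : (0 : ℝ) ≤ (JJ N : ℝ) ^ 4 * (MM P N : ℝ) ^ 4 := by positivity
  -- comparison of the densities
  have hleX : ∀ s : ℝ, 0 ≤ s → s * (N * ((D.J1 * rho D.BX) * (D.J0 * rho D.BY)) /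
      ((JJ N : ℝ) ^ 4 * (MM P N : ℝ) ^ 4)) ≤
      4 * (s * (N * (((D.delX (QS P χ)).J1 * rho (D.delX (QS P χ)).BX) *
        ((D.delX (QS P χ)).J0 * rho (D.delX (QS P χ)).BY)) /
      ((JJ N : ℝ) ^ 4 * (MM P N : ℝ) ^ 4))) := by
    intro s hs
    show s * (N * ((D.J1 * rho D.BX) * (D.J0 * rho D.BY)) /
      ((JJ N : ℝ) ^ 4 * (MM P N : ℝ) ^ 4)) ≤
      4 * (s * (N * ((D.J1 * rho (D.delX (QS P χ)).BX) * (D.J0 * rho D.BY)) /
      ((JJ N : ℝ) ^ 4 * (MM P N : ℝ) ^ 4)))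
    have hr0 := rho_nn (D.delX (QS P χ)).BX
    have h1 : (D.J1 : ℝ) * rho D.BX ≤ 4 * (D.J1 * rho (D.delX (QS P χ)).BX) := by
      have h3 := mul_le_mul_of_nonneg_left hr1 (Nat.cast_nonneg (α := ℝ) D.J1)
      have h4 : 0 ≤ (D.J1 : ℝ) * rho (D.delX (QS P χ)).BX := by positivity
      linarith
    have h2 : 4 * (s * (N * ((D.J1 * rho (D.delX (QS P χ)).BX) * (D.J0 * rho D.BY)) /
      ((JJ N : ℝ) ^ 4 * (MM P N : ℝ) ^ 4))) =
      s * (N * ((4 * (D.J1 * rho (D.delX (QS P χ)).BX)) * (D.J0 * rho D.BY)) /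
      ((JJ N : ℝ) ^ 4 * (MM P N : ℝ) ^ 4)) := by ring
    rw [h2]
    gcongr
  have hle : ∀ s : ℝ, 0 ≤ s → s * (N * ((D.J1 * rho D.BX) * (D.J0 * rho D.BY)) /
      ((JJ N : ℝ) ^ 4 * (MM P N : ℝ) ^ 4)) ≤
      4 * (s * (N * (((D.del (QS P χ)).J1 * rho (D.del (QS P χ)).BX) *
        ((D.del (QS P χ)).J0 * rho (D.del (QS P χ)).BY)) /
      ((JJ N : ℝ) ^ 4 * (MM P N : ℝ) ^ 4))) := by
    intro s hs
    show s * (N * ((D.J1 * rho D.BX) * (D.J0 * rho D.BY)) /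
      ((JJ N : ℝ) ^ 4 * (MM P N : ℝ) ^ 4)) ≤
      4 * (s * (N * ((D.J1 * rho (D.del (QS P χ)).BX) * (D.J0 * rho (D.del (QS P χ)).BY)) /
      ((JJ N : ℝ) ^ 4 * (MM P N : ℝ) ^ 4)))
    have h1 : (D.J1 : ℝ) * rho D.BX ≤ 2 * (D.J1 * rho (D.del (QS P χ)).BX) := by
      have := mul_le_mul_of_nonneg_left hr2X (Nat.cast_nonneg (α := ℝ) D.J1)
      linarith
    have h1' : (D.J0 : ℝ) * rho D.BY ≤ 2 * (D.J0 * rho (D.del (QS P χ)).BY) := by
      have := mul_le_mul_of_nonneg_left hr2Y (Nat.cast_nonneg (α := ℝ) D.J0)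
      linarith
    have h2 : 4 * (s * (N * ((D.J1 * rho (D.del (QS P χ)).BX) * (D.J0 * rho (D.del (QS P χ)).BY)) /
      ((JJ N : ℝ) ^ 4 * (MM P N : ℝ) ^ 4))) =
      s * (N * ((2 * (D.J1 * rho (D.del (QS P χ)).BX)) * (2 * (D.J0 * rho (D.del (QS P χ)).BY))) /
      ((JJ N : ℝ) ^ 4 * (MM P N : ℝ) ^ 4)) := by ring
    rw [h2]
    have hr0 := rho_nn (D.del (QS P χ)).BX
    gcongr
  have hdelX : ∑ x : ZMod N, (if IsUnit x then AP P N (D.delX (QS P χ)) LT Bd 1 x else 0) ≤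
      ∑ x : ZMod N, (if IsUnit x then AP P N D LT Bd 1 x else 0) := by
    refine sum_le_sum fun x _ => ?_
    split_ifs
    · exact ap_delX _ _ _
    · exact le_rfl
  have hdel : ∑ x : ZMod N, (if IsUnit x then AP P N (D.del (QS P χ)) LT Bd 1 x else 0) ≤
      ∑ x : ZMod N, (if IsUnit x then AP P N D LT Bd 1 x else 0) := by
    refine sum_le_sum fun x _ => ?_
    split_ifs
    · exact ap_del _ _ _
    · exact le_rfl
  -- the first comparison: only the first family is reduced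
  obtain ⟨A1, hB1, hB2, hB2q, hB3⟩ := apx3 (P := P) (D := D.delX (QS P χ)) (Bd := Bd) hn hok1S hm4 1 zero_le_one
    (hdelX.trans (ha.a0.trans (by
      have := hleX 1 zero_le_one
      rw [one_mul] at this
      exact this)))
  rw [one_mul] at hB1 hB3
  have hh1 : Hyp3 P N ((sh P N D).delX (QS P χ)) LT Bd A1 :=
    hyp3_of hP hn hB (D.delX (QS P χ)) hok1 hok1S (hC _ hok1) (hC _ hok1S) rfl rfl rfl rfl
      (apx3_tup D.BX (fun c => D.BX c \ QS P χ) fun _ => sdiff_subset) (Subset.refl _)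
      (by
        show rho D.BY ≤ 2 * rho D.BY
        linarith [rho_nn D.BY]) A1 hB1 hB2 hB2q hB3
  have hfq := fq (QS P χ) hh hh1
  -- both families
  obtain ⟨A2, hC1, hC2, hC2q, hC3⟩ := apx3 (P := P) (D := D.del (QS P χ)) (Bd := Bd) hn hok2S hm4 1 zero_le_one
    (hdel.trans (ha.a0.trans (by
      have := hle 1 zero_le_one
      rw [one_mul] at this
      exact this)))
  have hS1 := hS χ hsq hne
  obtain ⟨A3, hD1, hD2, hD2q, hD3⟩ := apx3 (P := P) (D := D.del (QS P χ)) (Bd := Bd) hn hok2S hm4 (sgm P χ) hσ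
    ((ha.a1 χ hsq hne hsmall hblk hS1).trans (hle _ hσ))
  rw [one_mul] at hC1 hC3
  have hh2 : Hyp3 P N (sh P N (D.del (QS P χ))) LT Bd (A2 ∩ A3) := by
    refine hyp3_of hP hn hB (D.del (QS P χ)) hok2 hok2S (hC _ hok2) (hC _ hok2S) rfl rfl rfl rfl
      (apx3_tup D.BX (fun c => D.BX c \ QS P χ) fun _ => sdiff_subset)
      (apx3_tup D.BY (fun c => D.BY c \ QS P χ) fun _ => sdiff_subset) hr2Y _ ?_ ?_ ?_ hC3
    · refine le_trans ?_ hC1
      exact_mod_cast card_le_card inter_subset_left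
    · intro l hl x hx hxA
      rw [mem_inter, not_and_or] at hxA
      rcases hxA with h1 | h1
      · exact hC2 l hl x hx h1
      · exact hD2 l hl x hx h1
    · intro l hl x hx hxA
      rw [mem_inter, not_and_or] at hxA
      rcases hxA with h1 | h1
      · exact hC2q l hl x hx h1
      · exact hD2q l hl x hx h1
  have hfx : ∀ c, ∀ p ∈ (sh P N (D.del (QS P χ))).BX c, χ (p : ZMod N) = -1 := fx_del hP hn hbD.ok χ hsq
  have hFF : ∀ x : ZMod N, FF P N (sh P N (D.del (QS P χ))) x = FF P N ((sh P N D).delX (QS P χ)) x := fun x => rfl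
  have hK9 : (10 : ℝ) ^ 9 ≤ Real.log N := hn.num.K
  set K : ℝ := Real.log N with hKdef
  have hK1 : 1 ≤ K := by linarith
  have hJ0 : (0 : ℝ) < JJ N := by
    have h1 := jj_one hn
    exact_mod_cast h1
  have hN0 : (0 : ℝ) ≤ (N : ℝ) := by positivity
  have hagree : (((Finset.univ : Finset (ZMod N)).filter fun x => IsUnit x ∧
      (FF P N (sh P N (D.del (QS P χ))) x : ℂ) ≠ β * χ x).card : ℝ) ≤ K ^ 101 * N / JJ N := by
    have hsub : ((Finset.univ : Finset (ZMod N)).filter fun x => IsUnit x ∧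
        (FF P N (sh P N (D.del (QS P χ))) x : ℂ) ≠ β * χ x) ⊆
        ((Finset.univ : Finset (ZMod N)).filter fun x => IsUnit x ∧ (FF P N (sh P N D) x : ℂ) ≠ β * χ x) ∪
        ((Finset.univ : Finset (ZMod N)).filter fun x => IsUnit x ∧
          FF P N (sh P N D) x ≠ FF P N ((sh P N D).delX (QS P χ)) x) := by
      intro x hx
      simp only [mem_union, mem_filter, mem_univ, true_and] at hx ⊢
      rw [hFF] at hx
      by_cases he : FF P N (sh P N D) x = FF P N ((sh P N D).delX (QS P χ)) x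
      · left
        rw [he]
        exact hx
      · right
        exact ⟨hx.1, he⟩
    have h1 : (((Finset.univ : Finset (ZMod N)).filter fun x => IsUnit x ∧
        (FF P N (sh P N (D.del (QS P χ))) x : ℂ) ≠ β * χ x).card : ℝ) ≤
        (((Finset.univ : Finset (ZMod N)).filter fun x => IsUnit x ∧ (FF P N (sh P N D) x : ℂ) ≠ β * χ x).card : ℝ) +
        (((Finset.univ : Finset (ZMod N)).filter fun x => IsUnit x ∧
          FF P N (sh P N D) x ≠ FF P N ((sh P N D).delX (QS P χ)) x).card : ℝ) := by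
      exact_mod_cast (Finset.card_le_card hsub).trans (Finset.card_union_le _ _)
    have hNJ : (0 : ℝ) ≤ N / JJ N := by positivity
    have h13 : K ^ 13 ≤ K ^ 100 := pow_le_pow_right₀ hK1 (by norm_num)
    have h100 : 0 ≤ K ^ 100 := by positivity
    have h2 : K ^ 100 + K ^ 13 ≤ K ^ 101 := by
      have : K ^ 101 = K * K ^ 100 := by ring
      rw [this]
      nlinarith
    calc _ ≤ K ^ 100 * N / JJ N + K ^ 13 * N / JJ N := h1.trans (add_le_add hcard hfq)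
      _ = (K ^ 100 + K ^ 13) * (N / JJ N) := by ring
      _ ≤ K ^ 101 * (N / JJ N) := mul_le_mul_of_nonneg_right h2 hNJ
      _ = K ^ 101 * N / JJ N := by ring
  have hβ1 : β = 1 := betax hh2 χ hsq hblk hfx β hβ hagree
  have hac : (((A2 ∩ A3).card : ℕ) : ℝ) ≤ sgm P χ * N / (JJ N : ℝ) ^ 2 := by
    refine le_trans ?_ hD1
    exact_mod_cast card_le_card inter_subset_right
  refine ⟨sh P N (D.del (QS P χ)), A2 ∩ A3, χ, ⟨hh2, hM _ hok2S, hsq, hne, hsmall, hblk, hfx, ?_, hS1, hac, hD3⟩⟩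
  have h1 : (((Finset.univ : Finset (ZMod N)).filter fun x => IsUnit x ∧
      (FF P N (sh P N (D.del (QS P χ))) x : ℂ) ≠ χ x).card : ℝ) ≤ K ^ 101 * N / JJ N := by
    rw [hβ1] at hagree
    simpa using hagree
  refine h1.trans ?_
  have h2 : K ^ 101 ≤ K ^ 102 := pow_le_pow_right₀ hK1 (by norm_num)
  gcongr

end Pool.Agent.Lib.T3F
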