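import Pool.Agent.Lib.MP_7b7e48_nt.T3F.Apx
import Pool.Agent.Lib.MP_7b7e48_nt.TCF.Qsm

/-!
# Short data, removal of primes from both families, the input for the short data
-/

set_option autoImplicit false

open Finset

namespace Pool.Agent.Lib.T3F

open Pool.Agent.Lib.TCF
open Pool.Agent.Lib.RG hiding RR sig Good
open Pool.Agent.Lib.RH
open Pool.Agent.Lib.MP_45349e_nt.LS (lam)

variable {P : Prm} {N : ℕ} [NeZero N] {D : Dat} {Bd : ℕ → ℕ → Prop}

theorem rho_nn {n : ℕ} (B : Fin n → Finset ℕ) : 0 ≤ rho B := by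
  unfold rho
  exact prod_nonneg fun c _ => sum_nonneg fun p _ => by positivity

omit [NeZero N] in
private theorem sub3_jj (hn : NumX P N) : (2 : ℝ) ≤ JJ N := by
  have h1 : (10 : ℝ) ^ 9 ≤ Real.log N := hn.num.K
  have h2 := hn.num.J1
  have h3 : Real.log N ≤ (Real.log N) ^ 1000 := le_self_pow₀ (by linarith) (by norm_num)
  linarith

omit [NeZero N] in
private theorem sub3_jx (hb : Base3 P N D) (hm4 : 4 * MM P N ^ 2 ≤ D.J1) :
    (JJ N : ℝ) ^ 4 ≤ (sh P N D).J1 * rho D.BX := by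
  have h1 := hb.sx
  have h2 := sh_ge (P := P) (N := N) (D := D) hm4
  have h3 := mul_le_mul_of_nonneg_right h2 (rho_nn D.BX)
  have hm1 : (1 : ℝ) ≤ (MM P N : ℝ) := by exact_mod_cast mm_one P N
  have h5 : 0 < 8 * (MM P N : ℝ) ^ 2 := by positivity
  have h6 : 8 * (MM P N : ℝ) ^ 2 * (JJ N : ℝ) ^ 4 ≤ 8 * (MM P N : ℝ) ^ 2 * ((sh P N D).J1 * rho D.BX) := by
    calc _ ≤ D.J1 * rho D.BX := h1
      _ ≤ _ := h3
      _ = _ := by ring
  exact le_of_mul_le_mul_left h6 h5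

omit [NeZero N] in
theorem base3_m4 (hn : NumX P N) (hb : Base3 P N D) : 4 * MM P N ^ 2 ≤ D.J1 := by
  have h1 := hb.sj
  have h2 := jj_one hn
  have h3 := j2_lt hn hb.base.ok
  have h4 := hb.base.ok.j02
  have h5 := hb.base.ok.j0
  have h6 := mm_one P N
  have h7 : 1 ≤ D.J2 := by
    have h8 : 1 ≤ 8 * JJ N * MM P N ^ 2 * D.J0 := by
      have : 0 < 8 * JJ N * MM P N ^ 2 * D.J0 := by positivity
      omega
    omega
  have h8 : 1 ≤ JJ N * D.J2 := by
    have : 0 < JJ N * D.J2 := Nat.mul_pos (by omega) (by omega)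
    omega
  have h9 : 8 * MM P N ^ 2 * 1 ≤ 8 * MM P N ^ 2 * (JJ N * D.J2) := Nat.mul_le_mul_left _ h8
  have h10 : 0 ≤ MM P N ^ 2 := Nat.zero_le _
  omega

omit [NeZero N] in
/-- the conditions on the short data -/
theorem sh_ok_of (hok : D.Ok P N) (hsj : 8 * MM P N ^ 2 * (JJ N * D.J2) ≤ D.J1)
    (hjx : (JJ N : ℝ) ^ 3 ≤ (sh P N D).J1 * rho D.BX) : (sh P N D).Ok P N := by
  have hle : (sh P N D).J1 ≤ D.J1 := sh_le
  refine ⟨hok.fx, hok.fy, ?_, hok.y2, hok.j0, hok.j02, ?_, hok.jy, hjx⟩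
  · exact (Nat.mul_le_mul_left _ hle).trans hok.y1
  · show JJ N * D.J2 ≤ D.J1 / (4 * MM P N ^ 2)
    have h0 : 0 < 4 * MM P N ^ 2 := by
      have := mm_one P N
      positivity
    rw [Nat.le_div_iff_mul_le h0]
    have h1 : JJ N * D.J2 * (4 * MM P N ^ 2) ≤ 8 * MM P N ^ 2 * (JJ N * D.J2) := by
      have h2 : 8 * MM P N ^ 2 * (JJ N * D.J2) = JJ N * D.J2 * (4 * MM P N ^ 2) + JJ N * D.J2 * (4 * MM P N ^ 2) := by ring
      omega
    exact h1.trans hsj

omit [NeZero N] in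
theorem sh_base (hn : NumX P N) (hb : Base3 P N D) : Base P N (sh P N D) := by
  have hm4 := base3_m4 hn hb
  have hjx := sub3_jx hb hm4
  have hJ := sub3_jj hn
  refine ⟨sh_ok_of hb.base.ok hb.sj ?_, hb.base.lx, hb.base.ly, hb.base.jy, hjx⟩
  refine le_trans ?_ hjx
  have h4 : (0 : ℝ) ≤ (JJ N : ℝ) ^ 3 := by positivity
  nlinarith

private theorem sub3_prod {n : ℕ} (x : Fin n → ℝ) (h0 : ∀ c, 0 ≤ x c) (h1 : ∀ c, x c ≤ 1) (s : Finset (Fin n)) :
    1 - ∑ c ∈ s, x c ≤ ∏ c ∈ s, (1 - x c) ∧ ∏ c ∈ s, (1 - x c) ≤ 1 := by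
  classical
  induction s using Finset.induction_on with
  | empty => simp
  | insert a s ha ih =>
    rw [sum_insert ha, prod_insert ha]
    have hp : 0 ≤ ∏ c ∈ s, (1 - x c) := prod_nonneg fun c _ => by linarith [h1 c]
    have hx0 := h0 a
    have hx1 := h1 a
    constructor <;> nlinarith [ih.1, ih.2]

omit [NeZero N] in
/-- removal of a few primes from one family -/
theorem fam_del (hn : NumX P N) {y0 n : ℕ} (B : Fin n → Finset ℕ) (hB : FamOk P N y0 B)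
    (hl : ∀ c, 2 / (Real.log N) ^ 3 ≤ ∑ p ∈ B c, 1 / (p : ℝ)) (Q : Finset ℕ)
    (hQ : ∑ c, ∑ p ∈ B c ∩ Q, 1 / (p : ℝ) ≤ 1 / (Real.log N) ^ 10) :
    FamOk P N y0 (fun c => B c \ Q) ∧ rho B ≤ 2 * rho (fun c => B c \ Q) := by
  classical
  have hK : (10 : ℝ) ^ 9 ≤ Real.log N := hn.num.K
  set K : ℝ := Real.log N with hKdef
  have hK0 : 0 < K := by linarith
  have hK1 : 1 ≤ K := by linarith
  set V : Fin n → ℝ := fun c => ∑ p ∈ B c, 1 / (p : ℝ) with hV
  set dl : Fin n → ℝ := fun c => ∑ p ∈ B c ∩ Q, 1 / (p : ℝ) with hdl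
  have hsplit : ∀ c, ∑ p ∈ B c \ Q, 1 / (p : ℝ) = V c - dl c := by
    intro c
    have h := Finset.sum_inter_add_sum_sdiff (B c) Q (fun p : ℕ => 1 / (p : ℝ))
    rw [hV, hdl]
    simp only
    linarith
  have hdl0 : ∀ c, 0 ≤ dl c := fun c => sum_nonneg fun p _ => by positivity
  have hdl1 : ∀ c, dl c ≤ 1 / K ^ 10 := by
    intro c
    refine le_trans ?_ hQ
    exact Finset.single_le_sum (f := dl) (fun c _ => hdl0 c) (Finset.mem_univ c)
  have hVl : ∀ c, 2 / K ^ 3 ≤ V c := hl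
  have hK3 : 0 < K ^ 3 := pow_pos hK0 _
  have hK10 : 0 < K ^ 10 := pow_pos hK0 _
  have hK310 : 1 / K ^ 10 ≤ 1 / K ^ 3 := by
    apply one_div_le_one_div_of_le hK3
    exact pow_le_pow_right₀ hK1 (by norm_num)
  have h23 : 2 / K ^ 3 = 1 / K ^ 3 + 1 / K ^ 3 := by ring
  have hVpos : ∀ c, 0 < V c := fun c => lt_of_lt_of_le (by positivity) (hVl c)
  -- the product
  have hrho : rho B ≤ 2 * rho (fun c => B c \ Q) := by
    have e1 : rho B = ∏ c, V c := rfl
    have e2 : rho (fun c => B c \ Q) = ∏ c, (V c - dl c) := by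
      unfold rho
      refine Finset.prod_congr rfl fun c _ => ?_
      exact hsplit c
    have e3 : ∏ c, (V c - dl c) = (∏ c, V c) * ∏ c, (1 - dl c / V c) := by
      rw [← Finset.prod_mul_distrib]
      refine Finset.prod_congr rfl fun c _ => ?_
      have := (hVpos c).ne'
      field_simp
    have hx1 : ∀ c, dl c / V c ≤ 1 := by
      intro c
      rw [div_le_one (hVpos c)]
      linarith [hdl1 c, hVl c, (by positivity : (0 : ℝ) < 1 / K ^ 3)]
    have hx0 : ∀ c, 0 ≤ dl c / V c := fun c => div_nonneg (hdl0 c) (hVpos c).le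
    have h1 := (sub3_prod (fun c => dl c / V c) hx0 hx1 Finset.univ).1
    have h2 : ∑ c, dl c / V c ≤ 1 / 2 := by
      have h3 : ∀ c, dl c / V c ≤ dl c * (K ^ 3 / 2) := by
        intro c
        rw [div_eq_mul_inv]
        refine mul_le_mul_of_nonneg_left ?_ (hdl0 c)
        have h4 := inv_anti₀ (by positivity) (hVl c)
        rwa [inv_div] at h4
      calc ∑ c, dl c / V c ≤ ∑ c, dl c * (K ^ 3 / 2) := Finset.sum_le_sum fun c _ => h3 c
        _ = (∑ c, dl c) * (K ^ 3 / 2) := by rw [Finset.sum_mul]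
        _ ≤ 1 / K ^ 10 * (K ^ 3 / 2) := mul_le_mul_of_nonneg_right hQ (by positivity)
        _ ≤ 1 / K ^ 3 * (K ^ 3 / 2) := mul_le_mul_of_nonneg_right hK310 (by positivity)
        _ = 1 / 2 := by field_simp
    have hP : 0 < ∏ c, V c := prod_pos fun c _ => hVpos c
    rw [e1, e2, e3]
    nlinarith
  have hmono : ∀ c, ∑ p ∈ B c \ Q, 1 / (p : ℝ) ≤ ∑ p ∈ B c, 1 / (p : ℝ) := by
    intro c
    exact Finset.sum_le_sum_of_subset_of_nonneg Finset.sdiff_subset (fun p _ _ => by positivity)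
  refine ⟨⟨hB.pos, ?_, ?_, ?_, ?_, ?_, hB.nle, ?_⟩, hrho⟩
  · intro c p hp
    exact hB.pr c p (Finset.sdiff_subset hp)
  · intro c c' hcc
    exact Finset.disjoint_of_subset_left Finset.sdiff_subset
      (Finset.disjoint_of_subset_right Finset.sdiff_subset (hB.disj c c' hcc))
  · intro c
    show 1 / K ^ 3 ≤ ∑ p ∈ B c \ Q, 1 / (p : ℝ)
    rw [hsplit c]
    linarith [hdl1 c, hVl c]
  · intro c
    exact (hmono c).trans (hB.up c)
  · refine le_trans ?_ hB.tot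
    refine Finset.prod_le_prod (fun c _ => ?_) (fun c _ => ?_)
    · have : 0 ≤ ∑ p ∈ B c \ Q, 1 / (p : ℝ) := sum_nonneg fun p _ => by positivity
      linarith
    · have := hmono c
      linarith
  · intro m hm
    exact hB.tup m (apx3_tup B (fun c => B c \ Q) (fun _ => sdiff_subset) hm)

omit [NeZero N] in
/-- removal of a few primes from both families -/
theorem del_ok (hn : NumX P N) (hb : Base P N D) (Q : Finset ℕ)
    (hX : ∑ c, ∑ p ∈ D.BX c ∩ Q, 1 / (p : ℝ) ≤ 1 / (Real.log N) ^ 10)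
    (hY : ∑ c, ∑ p ∈ D.BY c ∩ Q, 1 / (p : ℝ) ≤ 1 / (Real.log N) ^ 10) :
    (D.del Q).Ok P N ∧ rho D.BX ≤ 2 * rho (D.del Q).BX ∧ rho D.BY ≤ 2 * rho (D.del Q).BY := by
  obtain ⟨h1, h2⟩ := fam_del hn D.BX hb.ok.fx hb.lx Q hX
  obtain ⟨h3, h4⟩ := fam_del hn D.BY hb.ok.fy hb.ly Q hY
  have hJ := sub3_jj hn
  have hJ3 : (0 : ℝ) ≤ (JJ N : ℝ) ^ 3 := by positivity
  refine ⟨⟨h1, h3, hb.ok.y1, hb.ok.y2, hb.ok.j0, hb.ok.j02, hb.ok.j21, ?_, ?_⟩, h2, h4⟩
  · show (JJ N : ℝ) ^ 3 ≤ D.J0 * rho (fun c => D.BY c \ Q)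
    have h5 := hb.jy
    have h6 : (D.J0 : ℝ) * rho D.BY ≤ D.J0 * (2 * rho (fun c => D.BY c \ Q)) := mul_le_mul_of_nonneg_left h4 (by positivity)
    nlinarith
  · show (JJ N : ℝ) ^ 3 ≤ D.J1 * rho (fun c => D.BX c \ Q)
    have h5 := hb.jx
    have h6 : (D.J1 : ℝ) * rho D.BX ≤ D.J1 * (2 * rho (fun c => D.BX c \ Q)) := mul_le_mul_of_nonneg_left h2 (by positivity)
    nlinarith

omit [NeZero N] in
/-- removal of a few primes from the first family -/
theorem delX_ok (hn : NumX P N) (hb : Base P N D) (Q : Finset ℕ)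
    (hX : ∑ c, ∑ p ∈ D.BX c ∩ Q, 1 / (p : ℝ) ≤ 1 / (Real.log N) ^ 10) :
    (D.delX Q).Ok P N ∧ rho D.BX ≤ 2 * rho (D.delX Q).BX := by
  obtain ⟨h1, h2⟩ := fam_del hn D.BX hb.ok.fx hb.lx Q hX
  have hJ := sub3_jj hn
  have hJ3 : (0 : ℝ) ≤ (JJ N : ℝ) ^ 3 := by positivity
  refine ⟨⟨h1, hb.ok.fy, hb.ok.y1, hb.ok.y2, hb.ok.j0, hb.ok.j02, hb.ok.j21, hb.ok.jy, ?_⟩, h2⟩
  show (JJ N : ℝ) ^ 3 ≤ D.J1 * rho (fun c => D.BX c \ Q)
  have h5 := hb.jx
  have h6 : (D.J1 : ℝ) * rho D.BX ≤ D.J1 * (2 * rho (fun c => D.BX c \ Q)) := mul_le_mul_of_nonneg_left h2 (by positivity)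
  nlinarith

/-! ### the primes with `χ = 1` in a family -/

omit [NeZero N] in
private theorem sub3_le (hn : NumX P N) {y0 n : ℕ} {B : Fin n → Finset ℕ} (hB : FamOk P N y0 B) (c : Fin n)
    {p : ℕ} (hp : p ∈ B c) : (p : ℝ) ≤ (N : ℝ) ^ (P.kap / 100) := by
  classical
  have hK0 : 0 < Real.log N := lt_of_lt_of_le (by norm_num) (hK hn)
  have hne : ∀ c', ∃ q, q ∈ B c' := by
    intro c'
    by_contra h
    have he : B c' = ∅ := by
      refine eq_empty_of_forall_notMem fun q hq => h ⟨q, hq⟩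
    have h1 := hB.lo c'
    rw [he, sum_empty] at h1
    have h2 : 0 < 1 / (Real.log N) ^ 3 := by positivity
    linarith
  choose m hm using hne
  have hm' : ∀ c', Function.update m c p c' ∈ B c' := by
    intro c'
    by_cases h : c' = c
    · subst h
      rw [Function.update_self]
      exact hp
    · rw [Function.update_of_ne h]
      exact hm c'
  have ht : ∏ c', Function.update m c p c' ∈ TUP B := by
    rw [TUP, mem_image]
    exact ⟨_, Fintype.mem_piFinset.2 hm', rfl⟩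
  have h1 := hB.tup _ ht
  have h2 : p ≤ ∏ c', Function.update m c p c' := by
    refine Nat.le_of_dvd (prod_pos fun c' _ => (hB.pr c' _ (hm' c')).1.pos) ?_
    have h3 := dvd_prod_of_mem (Function.update m c p) (mem_univ c)
    rw [Function.update_self] at h3
    exact h3
  refine le_trans ?_ h1
  exact_mod_cast h2

omit [NeZero N] in
private theorem sub3_HH (hP : P.Ok) (hn : NumX P N) : (N : ℝ) ^ (P.kap / 100) ≤ HH N P.kap := by
  have hN1 : (1 : ℝ) ≤ N := by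
    have := N_two hn
    exact_mod_cast (by omega : 1 ≤ N)
  unfold HH
  refine Real.rpow_le_rpow_of_exponent_le hN1 ?_
  have h1 := hP.kap0
  have h2 := hP.kap1
  linarith

open Classical in
theorem qs_fam (hP : P.Ok) (hn : NumX P N) {y0 n : ℕ} {B : Fin n → Finset ℕ} (hB : FamOk P N y0 B)
    (χ : DirichletCharacter ℂ N) (hb : Blk P N 12 (-1) χ) :
    ∑ c, ∑ p ∈ B c ∩ QS P χ, 1 / (p : ℝ) ≤ 1 / (Real.log N) ^ 10 := by
  classical
  have hdisj : ∀ c ∈ (univ : Finset (Fin n)), ∀ c' ∈ (univ : Finset (Fin n)), c ≠ c' → Disjoint (B c ∩ QS P χ) (B c' ∩ QS P χ) := by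
    intro c _ c' _ hcc
    exact Disjoint.mono inter_subset_left inter_subset_left (hB.disj c c' hcc)
  rw [← sum_biUnion hdisj]
  refine le_trans (sum_le_sum_of_subset_of_nonneg ?_ (fun q _ _ => by positivity)) (qsm hP hn χ hb)
  intro p hp
  rw [mem_biUnion] at hp
  obtain ⟨c, -, hc⟩ := hp
  rw [mem_inter] at hc
  rw [mem_filter]
  exact ⟨hc.2, (sub3_le hn hB c hc.1).trans (sub3_HH hP hn)⟩

/-! ### the input for the short data -/

omit [NeZero N] in
private theorem sub3_nl (T : Dat) (l X Y : ℕ) : NL P N T LT Bd l X Y = 0 := by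
  classical
  unfold NL
  split_ifs
  · refine sum_eq_zero fun t _ => ?_
    rw [filter_eq_empty_iff.2, card_empty, Nat.cast_zero]
    rintro t' _ ⟨-, -, h⟩
    exact h trivial
  · rfl

omit [NeZero N] in
private theorem sub3_nlt (T : Dat) (X t Y : ℕ) : NLt P N T LT Bd X t Y = 0 := by
  classical
  unfold NLt
  split_ifs
  · rw [filter_eq_empty_iff.2, card_empty, Nat.cast_zero]
    rintro t' _ ⟨-, -, h⟩
    exact h trivial
  · rfl

open Classical in
/-- `BsIn` for smaller families -/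
theorem bs_of (hn : NumX P N) (hB : BsIn P N D Bd) (T : Dat) (h0 : T.J0 = D.J0) (hy : T.y0 = D.y0)
    (hX : TUP T.BX ⊆ TUP D.BX) (hY : TUP T.BY ⊆ TUP D.BY) (hr : rho D.BY ≤ 2 * rho T.BY)
    {v : ℕ} {o : Option (ℕ → ℝ)} {L : ℝ} (hm : TM P N v o L) {a b : ℕ} (hab : a ≤ b) (hvb : v * b ≤ D.J1 * N)
    (hor : (v = 1 ∧ o = none) ∨ D.J2 * N < v * (a + 1)) :
    ∑ n ∈ (Ioc a b).filter (fun n => n.Coprime N ∧ ∃ t ∈ TUP T.BX,
      1 / 40 * (VM P N * T.J0 * rho T.BY) < BB P N T Bd t ((v * n : ℕ) : ZMod N)), wt T.y0 o n ≤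
      L / JJ N * len P N v a b := by
  classical
  have h1 := hB v o L hm a b hab hvb hor
  refine le_trans ?_ h1
  rw [hy, h0]
  refine Finset.sum_le_sum_of_subset_of_nonneg ?_ (fun n _ _ => wt_nonneg hm _ _)
  intro n hn'
  rw [mem_filter] at hn' ⊢
  obtain ⟨hn1, hn2, t, ht, hlt⟩ := hn'
  have hv := (vm_pos hn).le
  refine ⟨hn1, hn2, t, hX ht, ?_⟩
  have h3 : BB P N T Bd t ((v * n : ℕ) : ZMod N) ≤ BB P N D Bd t ((v * n : ℕ) : ZMod N) := by
    unfold BB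
    rw [h0]
    refine sum_le_sum fun i _ => ?_
    split_ifs
    · rw [Nat.cast_le]
      exact card_le_card (filter_subset_filter _ hY)
    · exact le_rfl
  have h4 : VM P N * D.J0 * rho D.BY ≤ VM P N * D.J0 * (2 * rho T.BY) :=
    mul_le_mul_of_nonneg_left hr (by positivity)
  linarith

theorem pin_of (hn : NumX P N) (hB : BsIn P N D Bd) (T : Dat) (h0 : T.J0 = D.J0) (h1 : T.J1 ≤ D.J1)
    (h2 : T.J2 = D.J2) (hy : T.y0 = D.y0)
    (hX : TUP T.BX ⊆ TUP D.BX) (hY : TUP T.BY ⊆ TUP D.BY) (hr : rho D.BY ≤ 2 * rho T.BY) :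
    PairIn P N T LT Bd 4 (1 / 40) := by
  classical
  have hJ := sub3_jj hn
  have hJ0 : (0 : ℝ) < JJ N := by linarith
  have hrx := rho_nn T.BX
  have hry := rho_nn T.BY
  have hNp : (0 : ℝ) ≤ (N : ℝ) ^ (1 - P.kap / 8) := by positivity
  refine ⟨?_, ?_, ?_⟩
  · intro v o L hm l hl c c' hcc X Y a b hab hXY
    have hL := tm_L_pos hn hm
    have hlen : 0 ≤ len P N v a b := by
      unfold len
      have : (a : ℝ) ≤ b := by exact_mod_cast hab
      have h5 : 0 ≤ (N : ℝ) ^ (1 - P.kap / 8) / v := by positivity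
      linarith
    rw [sum_eq_zero fun n _ => by rw [sub3_nl, mul_zero]]
    positivity
  · intro v o L hm d a b hd hda hab hb' hJJ
    have hL := tm_L_pos hn hm
    have hlen : 0 ≤ (b : ℝ) - a + (N : ℝ) ^ (1 - P.kap / 8) := by
      have : (a : ℝ) ≤ b := by exact_mod_cast hab
      linarith
    rw [sum_eq_zero fun t _ => sum_eq_zero fun n _ => by rw [sub3_nlt, mul_zero]]
    positivity
  · intro v o L hm a b hab hvb hor
    rw [h2] at hor
    exact bs_of hn hB T h0 hy hX hY hr hm hab (hvb.trans (Nat.mul_le_mul_right _ h1)) hor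

open Classical in
/-- everything for the short data of `L` -/
theorem hyp3_of (hP : P.Ok) (hn : NumX P N) (hB : BsIn P N D Bd) (L : Dat) (hokL : L.Ok P N) (hokS : (sh P N L).Ok P N)
    (hcL : Cnt P N L) (hcS : Cnt P N (sh P N L))
    (h0 : L.J0 = D.J0) (h1 : L.J1 = D.J1) (h2 : L.J2 = D.J2) (hy : L.y0 = D.y0)
    (hX : TUP L.BX ⊆ TUP D.BX) (hY : TUP L.BY ⊆ TUP D.BY) (hr : rho D.BY ≤ 2 * rho L.BY)
    (A : Finset (ZMod N)) (hA : (A.card : ℝ) ≤ N / (JJ N : ℝ) ^ 2)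
    (hapa : ∀ l : ℕ, l = 1 → ∀ x : ZMod N, IsUnit x → x ∉ A →
        AP P N (sh P N L) LT Bd l x ≤ ((sh P N L).J1 * rho (sh P N L).BX) *
          ((sh P N L).J0 * rho (sh P N L).BY) / JJ N)
    (haq : ∀ l ∈ PZ N (MM P N), ∀ x : ZMod N, IsUnit x → (l : ZMod N) * x ∉ A →
        AQ P N (sh P N L) LT Bd l x ≤ ((sh P N L).J1 * rho (sh P N L).BX) *
          ((sh P N L).J0 * rho (sh P N L).BY) / JJ N)
    (hap : ∑ x : ZMod N, (if IsUnit x then AP P N (sh P N L) LT Bd 1 x else 0) ≤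
        N * (((sh P N L).J1 * rho (sh P N L).BX) * ((sh P N L).J0 * rho (sh P N L).BY)) /
          (JJ N : ℝ) ^ 2) :
    Hyp3 P N (sh P N L) LT Bd A := by
  classical
  have hle : (sh P N L).J1 ≤ D.J1 := by
    have := sh_le (P := P) (N := N) (D := L)
    omega
  have hmul : 4 * MM P N ^ 2 * ((sh P N L).J1 * N) ≤ D.J1 * N := by
    have h3 := Nat.mul_le_mul_right N (sh_mul (P := P) (N := N) (D := L))
    rw [h1] at h3
    calc 4 * MM P N ^ 2 * ((sh P N L).J1 * N) = 4 * MM P N ^ 2 * (sh P N L).J1 * N := by ring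
      _ ≤ D.J1 * N := h3
  refine ⟨hP, hn, hokS, hcS, ?_, fun _ _ _ _ => trivial, ?_, ?_, hA, hapa, haq, hap⟩
  · exact pin_of hn hB (sh P N L) h0 hle h2 hy hX hY hr
  · intro v o Lr hm a b hab hvb hor
    have h3 := hcL.c2 v o Lr hm a b hab (hvb.trans (by rw [h1]; exact hmul)) hor
    exact h3
  · intro v o Lr hm a b hab hvb hor
    have hor' : (v = 1 ∧ o = none) ∨ D.J2 * N < v * (a + 1) := by
      rcases hor with h | h
      · exact Or.inl h
      · right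
        have h4 : (sh P N L).J2 = D.J2 := h2
        rw [← h4]
        exact h
    exact bs_of hn hB (sh P N L) h0 hy hX hY hr hm hab (hvb.trans hmul) hor'

end Pool.Agent.Lib.T3F
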